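import Mathlib

/-! The Brun-Hooley lower bound sieve, abstract form. -/

set_option linter.unusedSectionVars false

namespace Pool.Agent.Lib.H9

open Finset

variable {ι : Type*} [DecidableEq ι]

/-- A symmetric multilinear form in the weights `w i`, `i ∈ B`. -/
noncomputable def sform (B : Finset ι) (c : ℕ → ℝ) (w : ι → ℝ) : ℝ :=
  ∑ T ∈ B.powerset, c T.card * ∏ i ∈ T, w i

theorem sform_empty (c : ℕ → ℝ) (w : ι → ℝ) : sform (∅ : Finset ι) c w = c 0 := by
  simp [sform]

theorem sform_insert {B : Finset ι} {x : ι} (hx : x ∉ B) (c : ℕ → ℝ) (w : ι → ℝ) :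
    sform (insert x B) c w = sform B c w + w x * sform B (fun i => c (i + 1)) w := by
  unfold sform
  rw [sum_powerset_insert hx, mul_sum]
  congr 1
  refine sum_congr rfl fun T hT => ?_
  have hxT : x ∉ T := fun h => hx (mem_powerset.1 hT h)
  rw [card_insert_of_notMem hxT, prod_insert hxT]; ring

/-- truncated inclusion-exclusion coefficients -/
noncomputable def cY (m i : ℕ) : ℝ := if i < m then (-1) ^ i else 0
/-- elementary symmetric coefficients -/
noncomputable def cZ (m i : ℕ) : ℝ := if i = m then 1 else 0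

theorem sform_neg (B : Finset ι) (c : ℕ → ℝ) (w : ι → ℝ) :
    sform B (fun i => -c i) w = -sform B c w := by
  simp [sform, sum_neg_distrib]

theorem sform_zero (B : Finset ι) (w : ι → ℝ) : sform B (fun _ => 0) w = 0 := by
  simp [sform]

theorem sform_sub (B : Finset ι) (c d : ℕ → ℝ) (w : ι → ℝ) :
    sform B (fun i => c i - d i) w = sform B c w - sform B d w := by
  simp [sform, sub_mul, sum_sub_distrib]

theorem bonferroni (B : Finset ι) (w : ι → ℝ) (hw : ∀ i ∈ B, 0 ≤ w i ∧ w i ≤ 1) (m : ℕ) :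
    0 ≤ (-1) ^ m * (∏ i ∈ B, (1 - w i) - sform B (cY m) w) := by
  induction B using Finset.induction_on generalizing m with
  | empty =>
    rw [sform_empty]
    rcases m with _ | m <;> simp [cY]
  | insert x B hx ih =>
    have hB : ∀ i ∈ B, 0 ≤ w i ∧ w i ≤ 1 := fun i hi => hw i (mem_insert_of_mem hi)
    have hx0 := hw x (mem_insert_self _ _)
    rw [sform_insert hx, prod_insert hx]
    rcases m with _ | m
    · have h0 : (cY 0) = fun _ => 0 := by ext i; simp [cY]
      have h1 : (fun i => cY 0 (i + 1)) = fun _ => 0 := by ext i; simp [cY]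
      rw [h1, h0, sform_zero]
      have : 0 ≤ ∏ i ∈ B, (1 - w i) := prod_nonneg fun i hi => by linarith [(hB i hi).2]
      simp only [pow_zero, one_mul, mul_zero, add_zero, sub_zero]
      exact mul_nonneg (by linarith [hx0.2]) this
    · have h1 : (fun i => cY (m + 1) (i + 1)) = fun i => -cY m i := by
        ext i; simp only [cY, Nat.add_lt_add_iff_right]; split_ifs <;> simp [pow_succ]
      rw [h1, sform_neg]
      have i1 := ih hB (m + 1)
      have i2 := ih hB m
      have : (-1 : ℝ) ^ (m + 1) * ((1 - w x) * ∏ i ∈ B, (1 - w i) -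
          (sform B (cY (m + 1)) w + w x * -sform B (cY m) w)) =
          (-1) ^ (m + 1) * (∏ i ∈ B, (1 - w i) - sform B (cY (m + 1)) w) +
          w x * ((-1) ^ m * (∏ i ∈ B, (1 - w i) - sform B (cY m) w)) := by ring
      rw [this]
      exact add_nonneg i1 (mul_nonneg hx0.1 i2)

theorem prod_le_sform_cY (B : Finset ι) (w : ι → ℝ) (hw : ∀ i ∈ B, 0 ≤ w i ∧ w i ≤ 1) (k : ℕ) :
    ∏ i ∈ B, (1 - w i) ≤ sform B (cY (2 * k + 1)) w := by
  have := bonferroni B w hw (2 * k + 1)
  rw [pow_succ, pow_mul] at this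
  simp at this
  linarith

theorem sform_cY_sub_le (B : Finset ι) (w : ι → ℝ) (hw : ∀ i ∈ B, 0 ≤ w i ∧ w i ≤ 1) (k : ℕ) :
    sform B (cY (2 * k + 1)) w - ∏ i ∈ B, (1 - w i) ≤ sform B (cZ (2 * k + 1)) w := by
  have := bonferroni B w hw (2 * k + 2)
  have h1 : cY (2 * k + 2) = fun i => cY (2 * k + 1) i - cZ (2 * k + 1) i := by
    ext i
    simp only [cY, cZ]
    rcases lt_trichotomy i (2 * k + 1) with h | h | h
    · rw [if_pos (by omega), if_pos h, if_neg (by omega)]; simp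
    · subst h; simp [pow_succ, pow_mul]
    · rw [if_neg (by omega), if_neg (by omega), if_neg (by omega)]; simp
  rw [h1, sform_sub, show 2 * k + 2 = 2 * (k + 1) by ring, pow_mul] at this
  simp at this
  linarith

theorem sform_cZ_nonneg (B : Finset ι) (w : ι → ℝ) (hw : ∀ i ∈ B, 0 ≤ w i) (m : ℕ) :
    0 ≤ sform B (cZ m) w := by
  refine sum_nonneg fun T hT => mul_nonneg ?_ (prod_nonneg fun i hi => hw i (mem_powerset.1 hT hi))
  unfold cZ; split_ifs <;> norm_num

theorem sform_cZ_le (B : Finset ι) (w : ι → ℝ) (hw : ∀ i ∈ B, 0 ≤ w i) (m : ℕ) :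
    sform B (cZ m) w ≤ (∑ i ∈ B, w i) ^ m / m.factorial := by
  induction B using Finset.induction_on generalizing m with
  | empty =>
    rw [sform_empty]
    rcases m with _ | m <;> simp [cZ]
  | insert x B hx ih =>
    have hB : ∀ i ∈ B, 0 ≤ w i := fun i hi => hw i (mem_insert_of_mem hi)
    have hx0 := hw x (mem_insert_self _ _)
    rw [sform_insert hx, sum_insert hx]
    rcases m with _ | m
    · have h1 : (fun i => cZ 0 (i + 1)) = fun _ => 0 := by ext i; simp [cZ]
      rw [h1, sform_zero]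
      simpa using ih hB 0
    · have h1 : (fun i => cZ (m + 1) (i + 1)) = cZ m := by
        ext i; simp only [cZ, Nat.add_right_cancel_iff]
      rw [h1]
      have i1 := ih hB (m + 1)
      have i2 := ih hB m
      set s := ∑ i ∈ B, w i
      have hs : 0 ≤ s := sum_nonneg hB
      have hbern : s ^ (m + 1) + (m + 1) * s ^ m * w x ≤ (w x + s) ^ (m + 1) := by
        have := pow_add_mul_le_add_pow hs (show 0 ≤ 2 * s + w x by positivity) (m + 1)
        simpa [add_comm] using this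
      have hf : (0 : ℝ) < m.factorial := by positivity
      calc sform B (cZ (m + 1)) w + w x * sform B (cZ m) w
          ≤ s ^ (m + 1) / (m + 1).factorial + w x * (s ^ m / m.factorial) := by gcongr
        _ = (s ^ (m + 1) + (m + 1) * s ^ m * w x) / (m + 1).factorial := by
          rw [Nat.factorial_succ]; push_cast; field_simp
        _ ≤ _ := by gcongr

theorem prod_sub_prod_le {κ : Type*} [DecidableEq κ] (s : Finset κ) (x y : κ → ℝ)
    (hx : ∀ j ∈ s, 0 ≤ x j) (hxy : ∀ j ∈ s, x j ≤ y j) :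
    ∏ j ∈ s, y j - ∏ j ∈ s, x j ≤ ∑ l ∈ s, (y l - x l) * ∏ j ∈ s.erase l, y j := by
  induction s using Finset.induction_on with
  | empty => simp
  | insert a s ha ih =>
    have hx' : ∀ j ∈ s, 0 ≤ x j := fun j hj => hx j (mem_insert_of_mem hj)
    have hxy' : ∀ j ∈ s, x j ≤ y j := fun j hj => hxy j (mem_insert_of_mem hj)
    have i1 := ih hx' hxy'
    have hxa := hx a (mem_insert_self _ _)
    have hya := hxy a (mem_insert_self _ _)
    rw [prod_insert ha, prod_insert ha, sum_insert ha, erase_insert ha]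
    have h2 : ∑ l ∈ s, (y l - x l) * ∏ j ∈ (insert a s).erase l, y j =
        y a * ∑ l ∈ s, (y l - x l) * ∏ j ∈ s.erase l, y j := by
      rw [mul_sum]
      refine sum_congr rfl fun l hl => ?_
      have hal : a ≠ l := fun h => ha (h ▸ hl)
      rw [erase_insert_of_ne hal, prod_insert (fun h => ha (mem_of_mem_erase h))]; ring
    rw [h2]
    have hS : 0 ≤ ∑ l ∈ s, (y l - x l) * ∏ j ∈ s.erase l, y j :=
      sum_nonneg fun l hl => mul_nonneg (by linarith [hxy' l hl])
        (prod_nonneg fun j hj => (hx' j (mem_of_mem_erase hj)).trans (hxy' j (mem_of_mem_erase hj)))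
    nlinarith [mul_le_mul_of_nonneg_left i1 hxa, mul_le_mul_of_nonneg_right hya hS]

variable {κ : Type*} [Fintype κ] [DecidableEq κ]

theorem prod_sform_eq (B : κ → Finset ι) (hB : Pairwise fun i j => Disjoint (B i) (B j))
    (c : κ → ℕ → ℝ) (w : ι → ℝ) :
    ∏ j, sform (B j) (c j) w =
      ∑ τ ∈ Fintype.piFinset (fun j => (B j).powerset),
        (∏ j, c j (τ j).card) * ∏ i ∈ univ.biUnion τ, w i := by
  unfold sform
  rw [prod_univ_sum]
  refine sum_congr rfl fun τ hτ => ?_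
  rw [prod_mul_distrib, prod_biUnion]
  intro i _ j _ hij
  rw [Fintype.mem_piFinset] at hτ
  exact (hB hij).mono (mem_powerset.1 (hτ i)) (mem_powerset.1 (hτ j))

/-- The admissible tuples of subsets of the blocks. -/
def adm (B : κ → Finset ι) (m : κ → ℕ) : Finset (κ → Finset ι) :=
  (Fintype.piFinset (fun j => (B j).powerset)).filter (fun τ => ∀ j, (τ j).card ≤ m j)

theorem abs_sum_prod_sform_sub_le {α : Type*} (A : Finset α) (w : α → ι → ℝ) (g : ι → ℝ) (X : ℝ)
    (B : κ → Finset ι) (hB : Pairwise fun i j => Disjoint (B i) (B j)) (m : κ → ℕ)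
    (c : κ → ℕ → ℝ) (hc1 : ∀ j i, |c j i| ≤ 1) (hc0 : ∀ j i, m j < i → c j i = 0) :
    |∑ a ∈ A, ∏ j, sform (B j) (c j) (w a) - X * ∏ j, sform (B j) (c j) g| ≤
      ∑ τ ∈ adm B m, |∑ a ∈ A, ∏ i ∈ univ.biUnion τ, w a i - X * ∏ i ∈ univ.biUnion τ, g i| := by
  simp_rw [prod_sform_eq B hB]
  rw [sum_comm, mul_sum, ← sum_sub_distrib]
  refine (abs_sum_le_sum_abs _ _).trans ?_
  unfold adm
  rw [sum_filter]
  refine sum_le_sum fun τ _ => ?_
  rw [← mul_sum, mul_left_comm, ← mul_sub, abs_mul]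
  split_ifs with h
  · have : |∏ j, c j (τ j).card| ≤ 1 := by
      rw [abs_prod]; exact prod_le_one (fun _ _ => abs_nonneg _) (fun j _ => hc1 j _)
    exact mul_le_of_le_one_left (abs_nonneg _) this
  · push Not at h
    obtain ⟨j, hj⟩ := h
    rw [prod_eq_zero (mem_univ j) (hc0 j _ hj)]; simp

theorem brun_hooley {α : Type*} (A : Finset α) (w : α → ι → ℝ) (g : ι → ℝ) (X : ℝ) (hX : 0 ≤ X)
    (B : κ → Finset ι) (hB : Pairwise fun i j => Disjoint (B i) (B j)) (k : κ → ℕ)
    (hw : ∀ a ∈ A, ∀ j, ∀ i ∈ B j, 0 ≤ w a i ∧ w a i ≤ 1)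
    (hg : ∀ j, ∀ i ∈ B j, 0 ≤ g i ∧ g i < 1)
    (hz : ∑ j, (∑ i ∈ B j, g i) ^ (2 * k j + 1) / (2 * k j + 1).factorial /
      ∏ i ∈ B j, (1 - g i) ≤ 1 / 2) :
    X * (∏ j, ∏ i ∈ B j, (1 - g i)) / 2 - (Fintype.card κ + 1) *
      ∑ τ ∈ adm B (fun j => 2 * k j + 1),
        |∑ a ∈ A, ∏ i ∈ univ.biUnion τ, w a i - X * ∏ i ∈ univ.biUnion τ, g i|
      ≤ ∑ a ∈ A, ∏ j, ∏ i ∈ B j, (1 - w a i) := by
  set R := ∑ τ ∈ adm B (fun j => 2 * k j + 1),
        |∑ a ∈ A, ∏ i ∈ univ.biUnion τ, w a i - X * ∏ i ∈ univ.biUnion τ, g i|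
  set cy : κ → ℕ → ℝ := fun j => cY (2 * k j + 1)
  set cz : κ → κ → ℕ → ℝ := fun l j => if j = l then cZ (2 * k j + 1) else cY (2 * k j + 1)
  have hcy1 : ∀ j i, |cy j i| ≤ 1 := by
    intro j i; simp only [cy, cY]; split_ifs <;> simp
  have hcy0 : ∀ j i, 2 * k j + 1 < i → cy j i = 0 := by
    intro j i h; simp only [cy, cY]; rw [if_neg (by omega)]
  have hcz1 : ∀ l j i, |cz l j i| ≤ 1 := by
    intro l j i; simp only [cz]; split_ifs
    · simp only [cZ]; split_ifs <;> simp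
    · exact hcy1 j i
  have hcz0 : ∀ l j i, 2 * k j + 1 < i → cz l j i = 0 := by
    intro l j i h; simp only [cz]; split_ifs
    · simp only [cZ]; rw [if_neg (by omega)]
    · exact hcy0 j i h
  have hsplit : ∀ (l : κ) (u : ι → ℝ), ∏ j, sform (B j) (cz l j) u =
      sform (B l) (cZ (2 * k l + 1)) u * ∏ j ∈ univ.erase l, sform (B j) (cy j) u := by
    intro l u
    rw [← mul_prod_erase univ _ (mem_univ l)]
    congr 1
    · simp [cz]
    · refine prod_congr rfl fun j hj => ?_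
      simp [cz, cy, ne_of_mem_erase hj]
  -- pointwise inequality
  have hpt : ∀ a ∈ A, ∏ j, sform (B j) (cy j) (w a) - ∑ l, ∏ j, sform (B j) (cz l j) (w a) ≤
      ∏ j, ∏ i ∈ B j, (1 - w a i) := by
    intro a ha
    have h0 : ∀ j, 0 ≤ ∏ i ∈ B j, (1 - w a i) :=
      fun j => prod_nonneg fun i hi => by linarith [(hw a ha j i hi).2]
    have h1 := prod_sub_prod_le univ (fun j => ∏ i ∈ B j, (1 - w a i))
      (fun j => sform (B j) (cy j) (w a)) (fun j _ => h0 j)
      (fun j _ => prod_le_sform_cY _ _ (hw a ha j) _)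
    have h2 : ∑ l, (sform (B l) (cy l) (w a) - ∏ i ∈ B l, (1 - w a i)) *
        ∏ j ∈ univ.erase l, sform (B j) (cy j) (w a) ≤ ∑ l, ∏ j, sform (B j) (cz l j) (w a) := by
      refine sum_le_sum fun l _ => ?_
      rw [hsplit]
      refine mul_le_mul_of_nonneg_right (sform_cY_sub_le _ _ (hw a ha l) _) ?_
      exact prod_nonneg fun j _ => (h0 j).trans (prod_le_sform_cY _ _ (hw a ha j) _)
    linarith
  have e1 := abs_sum_prod_sform_sub_le A w g X B hB (fun j => 2 * k j + 1) cy hcy1 hcy0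
  have e2 := fun l => abs_sum_prod_sform_sub_le A w g X B hB (fun j => 2 * k j + 1) (cz l)
    (hcz1 l) (hcz0 l)
  have hV : ∀ j, 0 < ∏ i ∈ B j, (1 - g i) :=
    fun j => prod_pos fun i hi => by linarith [(hg j i hi).2]
  have hg' : ∀ j, ∀ i ∈ B j, 0 ≤ g i ∧ g i ≤ 1 := fun j i hi => ⟨(hg j i hi).1, (hg j i hi).2.le⟩
  have hVy : ∀ j, ∏ i ∈ B j, (1 - g i) ≤ sform (B j) (cy j) g :=
    fun j => prod_le_sform_cY _ _ (hg' j) _
  have hy : ∀ j, 0 < sform (B j) (cy j) g := fun j => (hV j).trans_le (hVy j)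
  -- main term
  have hmain : (∏ j, ∏ i ∈ B j, (1 - g i)) / 2 ≤
      ∏ j, sform (B j) (cy j) g - ∑ l, ∏ j, sform (B j) (cz l j) g := by
    have h1 : ∑ l, ∏ j, sform (B j) (cz l j) g ≤
        (∏ j, sform (B j) (cy j) g) * ∑ j, (∑ i ∈ B j, g i) ^ (2 * k j + 1) /
          (2 * k j + 1).factorial / ∏ i ∈ B j, (1 - g i) := by
      rw [mul_sum]
      refine sum_le_sum fun l _ => ?_
      rw [hsplit, ← mul_prod_erase univ (fun j => sform (B j) (cy j) g) (mem_univ l)]
      have hP : 0 ≤ ∏ j ∈ univ.erase l, sform (B j) (cy j) g := prod_nonneg fun j _ => (hy j).le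
      rw [mul_right_comm]
      refine mul_le_mul_of_nonneg_right ?_ hP
      have hz1 := sform_cZ_le (B l) g (fun i hi => (hg l i hi).1) (2 * k l + 1)
      have hz0 := sform_cZ_nonneg (B l) g (fun i hi => (hg l i hi).1) (2 * k l + 1)
      set Z := (∑ i ∈ B l, g i) ^ (2 * k l + 1) / ((2 * k l + 1).factorial : ℝ)
      have hZ : 0 ≤ Z := hz0.trans hz1
      calc _ ≤ Z := hz1
        _ = (∏ i ∈ B l, (1 - g i)) * (Z / ∏ i ∈ B l, (1 - g i)) := by
          field_simp [(hV l).ne']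
        _ ≤ _ := mul_le_mul_of_nonneg_right (hVy l) (div_nonneg hZ (hV l).le)
    have h2 : ∏ j, ∏ i ∈ B j, (1 - g i) ≤ ∏ j, sform (B j) (cy j) g :=
      prod_le_prod (fun j _ => (hV j).le) (fun j _ => hVy j)
    have h3 : 0 ≤ ∏ j, sform (B j) (cy j) g := prod_nonneg fun j _ => (hy j).le
    nlinarith [mul_le_mul_of_nonneg_left hz h3]
  have hsum := sum_le_sum hpt
  rw [sum_sub_distrib, sum_comm] at hsum
  have e3 : ∑ l, ∑ a ∈ A, ∏ j, sform (B j) (cz l j) (w a) ≤
      ∑ l, (X * ∏ j, sform (B j) (cz l j) g + R) :=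
    sum_le_sum fun l _ => by linarith [(abs_le.1 (e2 l)).2]
  rw [sum_add_distrib, ← mul_sum, sum_const, card_univ, nsmul_eq_mul] at e3
  have e4 := (abs_le.1 e1).1
  have := mul_le_mul_of_nonneg_left hmain hX
  nlinarith

end Pool.Agent.Lib.H9
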