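import Mathlib

/-! Elementary bound for Kloosterman sums over a finite field (fourth moment), and quadratic
Gauss sums. -/

namespace Pool.Agent.Lib.H9

open Finset Complex

section field

variable {F : Type*} [Field F] [Fintype F] [DecidableEq F]

theorem norm_sq_eq_mul_conj (z : ℂ) : ((‖z‖ ^ 2 : ℝ) : ℂ) = z * (starRingEnd ℂ) z := by
  rw [Complex.mul_conj, Complex.normSq_eq_norm_sq]

/-- Parseval for a family of points of the plane over a finite field. -/
theorem sum_norm_sq_char2 (ψ : AddChar F ℂ) (hψ : ψ.IsPrimitive) {I : Type*} (s : Finset I)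
    (u v : I → F) :
    ∑ a : F, ∑ b : F, ‖∑ i ∈ s, ψ (a * u i + b * v i)‖ ^ 2 =
      (Fintype.card F : ℝ) ^ 2 *
        (((s ×ˢ s).filter (fun p => u p.1 = u p.2 ∧ v p.1 = v p.2)).card : ℝ) := by
  have key : ∀ a b : F, ((‖∑ i ∈ s, ψ (a * u i + b * v i)‖ ^ 2 : ℝ) : ℂ) =
      ∑ p ∈ s ×ˢ s, ψ (a * (u p.1 - u p.2)) * ψ (b * (v p.1 - v p.2)) := by
    intro a b
    rw [norm_sq_eq_mul_conj, map_sum, sum_mul_sum, sum_product]
    refine sum_congr rfl fun i _ => sum_congr rfl fun j _ => ?_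
    rw [← AddChar.map_neg_eq_conj, ← AddChar.map_add_eq_mul, ← AddChar.map_add_eq_mul]
    congr 1; ring
  apply Complex.ofReal_injective
  push_cast
  have : ∀ a b : F, ((‖∑ i ∈ s, ψ (a * u i + b * v i)‖ : ℂ) ^ 2) =
      ∑ p ∈ s ×ˢ s, ψ (a * (u p.1 - u p.2)) * ψ (b * (v p.1 - v p.2)) := by
    intro a b; rw [← key]; push_cast; rfl
  simp_rw [this]
  calc ∑ a : F, ∑ b : F, ∑ p ∈ s ×ˢ s, ψ (a * (u p.1 - u p.2)) * ψ (b * (v p.1 - v p.2))
      = ∑ p ∈ s ×ˢ s, (∑ a : F, ψ (a * (u p.1 - u p.2))) * ∑ b : F, ψ (b * (v p.1 - v p.2)) := by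
        simp_rw [sum_mul_sum]
        rw [sum_comm (s := s ×ˢ s)]
        refine sum_congr rfl fun a _ => ?_
        rw [sum_comm (s := s ×ˢ s)]
    _ = ∑ p ∈ s ×ˢ s, if u p.1 = u p.2 ∧ v p.1 = v p.2 then (Fintype.card F : ℂ) ^ 2 else 0 := by
        refine sum_congr rfl fun p _ => ?_
        rw [AddChar.sum_mulShift _ hψ, AddChar.sum_mulShift _ hψ]
        by_cases h1 : u p.1 = u p.2 <;> by_cases h2 : v p.1 = v p.2 <;>
          simp [h1, h2, sub_eq_zero, sq]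
    _ = _ := by
        rw [← sum_filter, sum_const, nsmul_eq_mul, mul_comm]

/-- The Kloosterman sum. -/
noncomputable def kl (ψ : AddChar F ℂ) (a b : F) : ℂ :=
  ∑ x ∈ univ.erase (0 : F), ψ (a * x + b * x⁻¹)

theorem kl_scale (ψ : AddChar F ℂ) (a b c : F) (hc : c ≠ 0) :
    kl ψ (a * c) (b * c⁻¹) = kl ψ a b := by
  unfold kl
  refine sum_bij (fun x _ => c * x) ?_ ?_ ?_ ?_
  · intro x hx; simp at hx ⊢; exact ⟨hc, hx⟩
  · intro x _ y _ h; exact mul_left_cancel₀ hc h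
  · intro y hy
    simp at hy
    exact ⟨c⁻¹ * y, by simp [hc, hy], by field_simp⟩
  · intro x hx
    simp at hx
    congr 1; field_simp

theorem card_kl4_le :
    ((((univ.erase (0 : F)) ×ˢ (univ.erase (0 : F))) ×ˢ
      ((univ.erase (0 : F)) ×ˢ (univ.erase (0 : F)))).filter
        (fun p => p.1.1 + p.1.2 = p.2.1 + p.2.2 ∧ p.1.1⁻¹ + p.1.2⁻¹ = p.2.1⁻¹ + p.2.2⁻¹)).card
      ≤ 3 * (Fintype.card F) ^ 2 := by
  set A : Finset ((F × F) × (F × F)) := univ.image (fun x : F × F => ((x.1, -x.1), (x.2, -x.2)))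
  set B : Finset ((F × F) × (F × F)) := univ.image (fun x : F × F => ((x.1, x.2), (x.1, x.2)))
  set C : Finset ((F × F) × (F × F)) := univ.image (fun x : F × F => ((x.1, x.2), (x.2, x.1)))
  have hA : A.card ≤ (Fintype.card F) ^ 2 := card_image_le.trans (by simp [sq])
  have hB : B.card ≤ (Fintype.card F) ^ 2 := card_image_le.trans (by simp [sq])
  have hC : C.card ≤ (Fintype.card F) ^ 2 := card_image_le.trans (by simp [sq])
  refine le_trans (card_le_card (t := A ∪ B ∪ C) ?_) ?_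
  · rintro ⟨⟨x1, x2⟩, ⟨x3, x4⟩⟩ hp
    simp only [mem_filter, mem_product, mem_erase, mem_univ, and_true] at hp
    obtain ⟨⟨⟨h1, h2⟩, h3, h4⟩, hs, hi⟩ := hp
    simp only [A, B, C, mem_union, mem_image, mem_univ, true_and, Prod.exists, Prod.mk.injEq]
    have hx4 : x4 = x1 + x2 - x3 := by rw [hs]; ring
    have hi' : (x1 + x2) * (x3 - x1) * (x3 - x2) = 0 := by
      field_simp at hi
      rw [hx4] at hi
      linear_combination -hi
    rcases mul_eq_zero.1 hi' with h | h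
    · rcases mul_eq_zero.1 h with h | h
      · left; left
        refine ⟨x1, x3, ⟨rfl, ?_⟩, rfl, ?_⟩
        · linear_combination -h
        · linear_combination hs - h
      · left; right
        refine ⟨x1, x2, ⟨rfl, rfl⟩, ?_, ?_⟩
        · linear_combination -h
        · linear_combination hs + h
    · right
      refine ⟨x1, x2, ⟨rfl, rfl⟩, ?_, ?_⟩
      · linear_combination -h
      · linear_combination hs + h
  · calc (A ∪ B ∪ C).card ≤ (A ∪ B).card + C.card := card_union_le _ _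
      _ ≤ A.card + B.card + C.card := by gcongr; exact card_union_le _ _
      _ ≤ _ := by omega

theorem sum_kl_pow_four_le (ψ : AddChar F ℂ) (hψ : ψ.IsPrimitive) :
    ∑ a : F, ∑ b : F, ‖kl ψ a b‖ ^ 4 ≤ 3 * (Fintype.card F : ℝ) ^ 4 := by
  have h := sum_norm_sq_char2 ψ hψ ((univ.erase (0 : F)) ×ˢ (univ.erase (0 : F)))
    (fun p => p.1 + p.2) (fun p => p.1⁻¹ + p.2⁻¹)
  have h2 : ∀ a b : F, ‖kl ψ a b‖ ^ 4 =
      ‖∑ i ∈ (univ.erase (0 : F)) ×ˢ (univ.erase (0 : F)),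
        ψ (a * (i.1 + i.2) + b * (i.1⁻¹ + i.2⁻¹))‖ ^ 2 := by
    intro a b
    have : ∑ i ∈ (univ.erase (0 : F)) ×ˢ (univ.erase (0 : F)),
        ψ (a * (i.1 + i.2) + b * (i.1⁻¹ + i.2⁻¹)) = kl ψ a b ^ 2 := by
      unfold kl
      rw [sq, sum_mul_sum, sum_product]
      refine sum_congr rfl fun i _ => sum_congr rfl fun j _ => ?_
      rw [← AddChar.map_add_eq_mul]; congr 1; ring
    rw [this, norm_pow]; ring
  simp_rw [h2]
  rw [h]
  have h3 : ((((((univ.erase (0 : F)) ×ˢ (univ.erase (0 : F))) ×ˢ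
      ((univ.erase (0 : F)) ×ˢ (univ.erase (0 : F)))).filter
        (fun p => p.1.1 + p.1.2 = p.2.1 + p.2.2 ∧ p.1.1⁻¹ + p.1.2⁻¹ = p.2.1⁻¹ + p.2.2⁻¹)).card : ℕ) : ℝ)
      ≤ 3 * (Fintype.card F : ℝ) ^ 2 := by exact_mod_cast card_kl4_le
  calc _ ≤ (Fintype.card F : ℝ) ^ 2 * (3 * (Fintype.card F : ℝ) ^ 2) := by gcongr
    _ = _ := by ring

/-- Kloosterman's bound in fourth-power form. -/
theorem norm_kl_pow_four_le (ψ : AddChar F ℂ) (hψ : ψ.IsPrimitive) {a : F} (ha : a ≠ 0) (b : F) :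
    ‖kl ψ a b‖ ^ 4 ≤ 6 * (Fintype.card F : ℝ) ^ 3 := by
  have h := sum_kl_pow_four_le ψ hψ
  rw [← sum_product'] at h
  set S : Finset (F × F) := (univ.erase (0 : F)).image (fun c => (a * c, b * c⁻¹))
  have hS : ∑ p ∈ S, ‖kl ψ p.1 p.2‖ ^ 4 = ((Fintype.card F : ℝ) - 1) * ‖kl ψ a b‖ ^ 4 := by
    rw [sum_image]
    · rw [sum_congr rfl (g := fun _ => ‖kl ψ a b‖ ^ 4)]
      · rw [sum_const, card_erase_of_mem (mem_univ _), nsmul_eq_mul, card_univ,
          Nat.cast_sub Fintype.card_pos]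
        simp
      · intro c hc
        simp at hc
        simp only [kl_scale ψ a b c hc]
    · intro c _ d _ hcd
      exact mul_left_cancel₀ ha (congrArg Prod.fst hcd)
  have hle : ∑ p ∈ S, ‖kl ψ p.1 p.2‖ ^ 4 ≤ ∑ p ∈ univ ×ˢ univ, ‖kl ψ p.1 p.2‖ ^ 4 :=
    sum_le_sum_of_subset_of_nonneg (by simp) (fun _ _ _ => by positivity)
  have hq : (2 : ℝ) ≤ Fintype.card F := by exact_mod_cast Fintype.one_lt_card
  have h4 : ((Fintype.card F : ℝ) - 1) * ‖kl ψ a b‖ ^ 4 ≤ 3 * (Fintype.card F : ℝ) ^ 4 := by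
    linarith
  set q : ℝ := (Fintype.card F : ℝ)
  set K := ‖kl ψ a b‖ ^ 4
  have hK : 0 ≤ K := by positivity
  have : q * K ≤ q * (6 * q ^ 3) := by nlinarith
  exact le_of_mul_le_mul_left this (by linarith)

theorem norm_kl_le (ψ : AddChar F ℂ) (hψ : ψ.IsPrimitive) {a : F} (ha : a ≠ 0) (b : F) :
    ‖kl ψ a b‖ ≤ 2 * (Fintype.card F : ℝ) ^ (3 / 4 : ℝ) := by
  have h := norm_kl_pow_four_le ψ hψ ha b
  have hq : (0 : ℝ) ≤ Fintype.card F := by positivity
  have h2 : (2 * (Fintype.card F : ℝ) ^ (3 / 4 : ℝ)) ^ 4 = 16 * (Fintype.card F : ℝ) ^ 3 := by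
    rw [mul_pow, ← Real.rpow_natCast ((Fintype.card F : ℝ) ^ (3 / 4 : ℝ)), ← Real.rpow_mul hq]
    norm_num
  refine le_of_pow_le_pow_left₀ (n := 4) (by norm_num) (by positivity) ?_
  rw [h2]
  have : 0 ≤ (Fintype.card F : ℝ) ^ 3 := by positivity
  linarith

/-- The fourth power of the quadratic Gauss sum. -/
theorem gauss_pow_four (hF : ringChar F ≠ 2) (ψ : AddChar F ℂ) (hψ : ψ.IsPrimitive) {a : F}
    (ha : a ≠ 0) : (∑ t : F, ψ (a * t ^ 2)) ^ 4 = (Fintype.card F : ℂ) ^ 2 := by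
  set χ : MulChar F ℂ := (quadraticChar F).ringHomComp (Int.castRingHom ℂ)
  have hχ1 : χ ≠ 1 := (MulChar.ringHomComp_ne_one_iff (RingHom.injective_int _)).2
    (quadraticChar_ne_one hF)
  have hχ2 : χ.IsQuadratic := (quadraticChar_isQuadratic F).comp _
  have hψa : (ψ.mulShift a).IsPrimitive := AddChar.IsPrimitive.of_ne_one (hψ ha)
  have h1 : ∑ t : F, ψ (a * t ^ 2) = gaussSum χ (ψ.mulShift a) := by
    rw [← sum_fiberwise (s := univ) (g := fun t : F => t ^ 2)]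
    have : ∀ s : F, ∑ t ∈ univ.filter (fun t : F => t ^ 2 = s), ψ (a * t ^ 2) =
        (χ s + 1) * ψ (a * s) := by
      intro s
      rw [sum_congr rfl (g := fun _ => ψ (a * s))]
      · rw [sum_const, nsmul_eq_mul]
        congr 1
        have := quadraticChar_card_sqrts hF s
        have h2 : ({x : F | x ^ 2 = s}.toFinset) = univ.filter (fun t : F => t ^ 2 = s) := by
          ext; simp
        rw [h2] at this
        simp only [χ, MulChar.ringHomComp_apply]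
        have h3 := congrArg (fun z : ℤ => (z : ℂ)) this
        simpa using h3
      · intro t ht
        rw [(mem_filter.1 ht).2]
    simp_rw [this, add_mul, sum_add_distrib, one_mul]
    have h0 : ∑ s : F, ψ (a * s) = 0 := by
      simp_rw [mul_comm a]
      rw [AddChar.sum_mulShift _ hψ]; simp [ha]
    rw [h0, add_zero]
    rfl
  rw [h1, show (4 : ℕ) = 2 * 2 from rfl, pow_mul, gaussSum_sq hχ1 hχ2 hψa, mul_pow]
  have : χ (-1) ^ 2 = 1 := by
    rw [← map_pow]; simp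
  rw [this, one_mul]

omit [DecidableEq F] in
/-- Completing the square. -/
theorem gauss_linear (hF : ringChar F ≠ 2) (ψ : AddChar F ℂ) {a : F} (ha : a ≠ 0) (b : F) :
    ∑ t : F, ψ (a * t ^ 2 + b * t) = ψ (-(b ^ 2) * (4 * a)⁻¹) * ∑ t : F, ψ (a * t ^ 2) := by
  have h2 : (2 : F) ≠ 0 := Ring.two_ne_zero hF
  have h4 : (4 : F) ≠ 0 := by
    have : (4 : F) = 2 * 2 := by norm_num
    rw [this]; exact mul_ne_zero h2 h2
  rw [mul_sum, ← Equiv.sum_comp (Equiv.addRight (b * (2 * a)⁻¹))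
    (fun t => ψ (-(b ^ 2) * (4 * a)⁻¹) * ψ (a * t ^ 2))]
  refine sum_congr rfl fun t _ => ?_
  rw [← AddChar.map_add_eq_mul]
  congr 1
  simp only [Equiv.coe_addRight]
  have : (4 : F) = 2 * 2 := by norm_num
  rw [this]
  field_simp
  ring

end field

end Pool.Agent.Lib.H9
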