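import Mathlib

/-! Poisson summation for theta series in four variables with periodic coefficients. -/

namespace Pool.Agent.Lib.H9

open Finset Complex Real

/-- `ee x = exp (2 π i x)`. -/
noncomputable def ee (x : ℂ) : ℂ := Complex.exp (2 * π * I * x)

theorem ee_add (x y : ℂ) : ee (x + y) = ee x * ee y := by
  unfold ee; rw [← Complex.exp_add]; congr 1; ring

theorem ee_zero : ee 0 = 1 := by simp [ee]

theorem ee_int (k : ℤ) : ee k = 1 := by
  unfold ee
  rw [mul_comm, Complex.exp_int_mul_two_pi_mul_I]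

theorem ee_sum {ι : Type*} (s : Finset ι) (f : ι → ℂ) : ee (∑ i ∈ s, f i) = ∏ i ∈ s, ee (f i) := by
  unfold ee; rw [mul_sum, Complex.exp_sum]

theorem norm_ee (x : ℂ) : ‖ee x‖ = Real.exp (-(2 * π * x.im)) := by
  unfold ee; rw [Complex.norm_exp]; congr 1; simp

theorem norm_ee_real (x : ℝ) : ‖ee x‖ = 1 := by rw [norm_ee]; simp

theorem norm_ee_div (a : ℤ) (q : ℕ) : ‖ee (a / q)‖ = 1 := by
  have := norm_ee_real ((a : ℝ) / q); push_cast at this; exact this

theorem ee_congr {q : ℕ} (hq : q ≠ 0) {a b : ℤ} (h : (q : ℤ) ∣ a - b) :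
    ee (a / q) = ee (b / q) := by
  obtain ⟨c, hc⟩ := h
  have hq' : (q : ℂ) ≠ 0 := by exact_mod_cast hq
  have : (a : ℂ) / q = b / q + c := by
    have h2 : (a : ℂ) = b + q * c := by
      have : a = b + q * c := by linarith
      exact_mod_cast this
    rw [h2]; field_simp
  rw [this, ee_add, ee_int, mul_one]

theorem summable_norm_ee_sq {τ : ℂ} (hτ : 0 < τ.im) :
    Summable (fun x : ℤ => ‖ee (τ * (x : ℂ) ^ 2)‖) := by
  have h := (summable_jacobiTheta₂_term_iff 0 (2 * τ)).2 (by simpa using hτ)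
  rw [← summable_norm_iff] at h
  refine h.congr fun x => ?_
  unfold ee jacobiTheta₂_term
  congr 2; ring

theorem pi_prod_summable {d : ℕ} (f : Fin d → ℤ → ℂ) (hf : ∀ j, Summable (fun x => ‖f j x‖)) :
    Summable (fun k : Fin d → ℤ => ‖∏ j, f j (k j)‖) ∧
      ∑' k : Fin d → ℤ, ∏ j, f j (k j) = ∏ j, ∑' x, f j x := by
  induction d with
  | zero =>
    refine ⟨Summable.of_finite, ?_⟩
    simp
  | succ d ih =>
    obtain ⟨h1, h2⟩ := ih (fun j => f j.succ) (fun j => hf j.succ)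
    have key : ∀ p : ℤ × (Fin d → ℤ), ∏ j, f j ((Fin.consEquiv (fun _ => ℤ)) p j) =
        f 0 p.1 * ∏ j : Fin d, f j.succ (p.2 j) := by
      intro p; rw [Fin.prod_univ_succ]; simp [Fin.consEquiv]
    constructor
    · rw [← (Fin.consEquiv (fun _ => ℤ)).summable_iff]
      have := (hf 0).mul_norm h1
      convert this using 2 with p
      simp only [Function.comp]; rw [key]
    · rw [← (Fin.consEquiv (fun _ => ℤ)).tsum_eq, Fin.prod_univ_succ, ← h2,
        tsum_mul_tsum_of_summable_norm (hf 0) h1]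
      exact tsum_congr key

theorem poisson1 {M : ℕ} (hM : M ≠ 0) (r : ℤ) {τ : ℂ} (hτ : 0 < τ.im) :
    ∑' x : ℤ, (if (M : ℤ) ∣ x - r then ee (τ * (x : ℂ) ^ 2) else 0) =
      1 / (-2 * I * τ * M ^ 2) ^ (1 / 2 : ℂ) *
        ∑' k : ℤ, ee (-1 / (4 * τ * M ^ 2) * (k : ℂ) ^ 2) * ee ((k * r : ℤ) / M) := by
  have hM' : (M : ℂ) ≠ 0 := by exact_mod_cast hM
  have hMz : (M : ℤ) ≠ 0 := by exact_mod_cast hM
  have hτ0 : τ ≠ 0 := by rintro rfl; simp at hτ
  have hinj : Function.Injective (fun j : ℤ => r + M * j) := by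
    intro a b h; simpa [hM] using h
  rw [← hinj.tsum_eq]
  · have ha : 0 < (-2 * I * τ * M ^ 2).re := by
      have : (-2 * I * τ * M ^ 2).re = 2 * τ.im * (M : ℝ) ^ 2 := by
        simp [pow_two]
      rw [this]; positivity
    have h := Complex.tsum_exp_neg_quadratic ha (2 * I * τ * r * M)
    have e1 : ∀ j : ℤ, (if (M : ℤ) ∣ r + M * j - r then ee (τ * ((r + M * j : ℤ) : ℂ) ^ 2) else 0) =
        ee (τ * r ^ 2) * cexp (-π * (-2 * I * τ * M ^ 2) * j ^ 2 + 2 * π * (2 * I * τ * r * M) * j) := by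
      intro j
      rw [if_pos (by simp)]
      unfold ee
      rw [← Complex.exp_add]; congr 1; push_cast; ring
    simp_rw [e1]
    rw [tsum_mul_left, h, mul_left_comm, ← tsum_mul_left]
    congr 1
    refine tsum_congr fun k => ?_
    unfold ee
    rw [← Complex.exp_add, ← Complex.exp_add]
    congr 1
    push_cast
    field_simp
    ring_nf
    simp only [I_pow_four, I_sq]
    ring
  · intro x hx
    simp only [Function.mem_support, ne_eq, ite_eq_right_iff, Classical.not_imp] at hx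
    obtain ⟨c, hc⟩ := hx.1
    exact ⟨c, by simp only; linarith⟩

/-- squared norm -/
def nsq (v : Fin 4 → ℤ) : ℤ := ∑ j, v j ^ 2

/-- dot product -/
def dot (k v : Fin 4 → ℤ) : ℤ := ∑ j, k j * v j

/-- periodicity modulo `M` -/
def Per (M : ℕ) (φ : (Fin 4 → ℤ) → ℂ) : Prop :=
  ∀ v w : Fin 4 → ℤ, (∀ j, (M : ℤ) ∣ v j - w j) → φ v = φ w

/-- a complete residue system -/
noncomputable def res (M : ℕ) : Finset (Fin 4 → ℤ) := Fintype.piFinset (fun _ => Ico (0 : ℤ) M)

/-- finite Fourier transform -/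
noncomputable def fhat (M : ℕ) (φ : (Fin 4 → ℤ) → ℂ) (k : Fin 4 → ℤ) : ℂ :=
  ∑ r ∈ res M, φ r * ee (dot k r / M)

theorem nsq_nonneg (v : Fin 4 → ℤ) : 0 ≤ nsq v := sum_nonneg fun _ _ => sq_nonneg _

theorem ee_nsq (τ : ℂ) (v : Fin 4 → ℤ) : ee (τ * nsq v) = ∏ j, ee (τ * (v j : ℂ) ^ 2) := by
  unfold nsq; push_cast; rw [mul_sum, ee_sum]

theorem summable_norm_ee_nsq {τ : ℂ} (hτ : 0 < τ.im) :
    Summable (fun v : Fin 4 → ℤ => ‖ee (τ * nsq v)‖) := by
  simp_rw [ee_nsq]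
  exact (pi_prod_summable (fun _ x => ee (τ * (x : ℂ) ^ 2)) (fun _ => summable_norm_ee_sq hτ)).1

theorem mem_res {M : ℕ} {r : Fin 4 → ℤ} : r ∈ res M ↔ ∀ j, 0 ≤ r j ∧ r j < M := by
  simp [res]

theorem card_res (M : ℕ) : (res M).card = M ^ 4 := by
  simp [res]

theorem emod_mem_res {M : ℕ} (hM : M ≠ 0) (v : Fin 4 → ℤ) : (fun j => v j % M) ∈ res M := by
  have hMz : (0 : ℤ) < M := by exact_mod_cast Nat.pos_of_ne_zero hM
  rw [mem_res]
  exact fun j => ⟨Int.emod_nonneg _ hMz.ne', Int.emod_lt_of_pos _ hMz⟩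

theorem eq_of_mem_res {M : ℕ} {r s : Fin 4 → ℤ} (hr : r ∈ res M) (hs : s ∈ res M)
    (h : ∀ j, (M : ℤ) ∣ r j - s j) : r = s := by
  funext j
  rw [mem_res] at hr hs
  have : r j % M = s j % M := ((Int.modEq_iff_dvd.2 (h j)).symm)
  rwa [Int.emod_eq_of_lt (hr j).1 (hr j).2, Int.emod_eq_of_lt (hs j).1 (hs j).2] at this

theorem poisson4 {M : ℕ} (hM : M ≠ 0) {φ : (Fin 4 → ℤ) → ℂ} (hφ : Per M φ) {τ : ℂ}
    (hτ : 0 < τ.im) :
    ∑' v : Fin 4 → ℤ, φ v * ee (τ * nsq v) =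
      -1 / (4 * τ ^ 2 * M ^ 4) *
        ∑' k : Fin 4 → ℤ, fhat M φ k * ee (-1 / (4 * τ * M ^ 2) * nsq k) := by
  have hM' : (M : ℂ) ≠ 0 := by exact_mod_cast hM
  have hτ0 : τ ≠ 0 := by rintro rfl; simp at hτ
  set f : ℤ → ℤ → ℂ := fun r x => if (M : ℤ) ∣ x - r then ee (τ * (x : ℂ) ^ 2) else 0 with hf
  have hfs : ∀ r, Summable (fun x => ‖f r x‖) := by
    intro r
    refine (summable_norm_ee_sq hτ).of_nonneg_of_le (fun _ => norm_nonneg _) fun x => ?_
    simp only [f]; split_ifs <;> simp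
  have e1 : ∀ v : Fin 4 → ℤ, φ v * ee (τ * nsq v) = ∑ r ∈ res M, φ r * ∏ j, f (r j) (v j) := by
    intro v
    rw [sum_eq_single_of_mem _ (emod_mem_res hM v)]
    · have hd : ∀ j, (M : ℤ) ∣ v j - v j % M := fun j => Int.dvd_self_sub_emod
      rw [hφ v _ hd, ee_nsq]
      congr 1
      exact prod_congr rfl fun j _ => by simp only [f]; rw [if_pos (hd j)]
    · intro r hr hne
      by_contra h0
      apply hne
      refine eq_of_mem_res hr (emod_mem_res hM v) fun j => ?_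
      have h1 : f (r j) (v j) ≠ 0 := by
        intro h; apply h0; rw [prod_eq_zero (mem_univ j) h, mul_zero]
      simp only [f, ne_eq, ite_eq_right_iff, Classical.not_imp] at h1
      have h2 : (M : ℤ) ∣ v j - v j % M := Int.dvd_self_sub_emod
      have := dvd_sub h2 h1.1
      have h3 : v j - v j % M - (v j - r j) = r j - v j % M := by ring
      rwa [h3] at this
  simp_rw [e1]
  have hs1 : ∀ r : Fin 4 → ℤ, Summable (fun v : Fin 4 → ℤ => φ r * ∏ j, f (r j) (v j)) :=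
    fun r => ((pi_prod_summable (fun j => f (r j)) (fun j => hfs _)).1.of_norm).mul_left _
  rw [Summable.tsum_finsetSum (fun r _ => hs1 r)]
  set σ : ℂ := -1 / (4 * τ * M ^ 2) with hσ
  have hσim : 0 < σ.im := by
    have h1 : σ = (1 / (4 * M ^ 2) : ℝ) * (-τ⁻¹) := by
      rw [hσ]; push_cast; field_simp
    rw [h1, Complex.im_ofReal_mul, Complex.neg_im, Complex.inv_im]
    have : 0 < Complex.normSq τ := Complex.normSq_pos.2 hτ0
    have hMr : (0 : ℝ) < M := by exact_mod_cast Nat.pos_of_ne_zero hM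
    rw [neg_div, neg_neg]
    positivity
  set g : ℤ → ℤ → ℂ := fun r k => ee (σ * (k : ℂ) ^ 2) * ee ((k * r : ℤ) / M)
  have hgs : ∀ r, Summable (fun x => ‖g r x‖) := by
    intro r
    convert summable_norm_ee_sq hσim using 2 with x
    simp only [g]; rw [norm_mul, norm_ee_div, mul_one]
  have e2 : ∀ r : Fin 4 → ℤ, ∑' v : Fin 4 → ℤ, φ r * ∏ j, f (r j) (v j) =
      -1 / (4 * τ ^ 2 * M ^ 4) * ∑' k : Fin 4 → ℤ, φ r * ∏ j, g (r j) (k j) := by
    intro r
    rw [tsum_mul_left, tsum_mul_left, (pi_prod_summable (fun j => f (r j)) (fun j => hfs _)).2,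
      (pi_prod_summable (fun j => g (r j)) (fun j => hgs _)).2]
    simp only [f]
    simp_rw [poisson1 hM _ hτ]
    rw [prod_mul_distrib, prod_const, card_univ, Fintype.card_fin, mul_left_comm]
    congr 1
    rw [one_div_pow, show (4 : ℕ) = 2 * 2 from rfl, pow_mul, one_div (2 : ℂ),
      Complex.cpow_ofNat_inv_pow]
    field_simp
    rw [I_sq]; ring
  simp_rw [e2]
  rw [← mul_sum]
  congr 1
  have hs2 : ∀ r : Fin 4 → ℤ, Summable (fun k : Fin 4 → ℤ => φ r * ∏ j, g (r j) (k j)) :=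
    fun r => ((pi_prod_summable (fun j => g (r j)) (fun j => hgs _)).1.of_norm).mul_left _
  rw [← Summable.tsum_finsetSum (fun r _ => hs2 r)]
  refine tsum_congr fun k => ?_
  unfold fhat
  rw [sum_mul]
  refine sum_congr rfl fun r _ => ?_
  simp only [g]
  rw [prod_mul_distrib, ← ee_nsq, ← ee_sum, mul_assoc, mul_comm (ee (σ * _))]
  congr 3
  unfold dot; push_cast; rw [sum_div]

end Pool.Agent.Lib.H9
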