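import Mathlib
import Pool.Agent.Lib.helper9.Theta

/-! Bounds for theta series whose constant term vanishes. -/

namespace Pool.Agent.Lib.H9

open Finset Complex Real

theorem norm_ee_I_mul (t : ℝ) (m : ℤ) : ‖ee (I * (t / 2 : ℝ) * m)‖ = Real.exp (-π * t * m) := by
  rw [norm_ee]; congr 1; simp; ring

theorem summable_gauss {t : ℝ} (ht : 0 < t) :
    Summable (fun k : ℤ => Real.exp (-π * t * (k : ℝ) ^ 2)) := by
  have h := summable_norm_ee_sq (τ := I * (t / 2 : ℝ)) (by simpa using ht)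
  refine h.congr fun k => ?_
  have := norm_ee_I_mul t (k ^ 2)
  push_cast at this ⊢
  exact this

theorem summable_gauss4 {t : ℝ} (ht : 0 < t) :
    Summable (fun k : Fin 4 → ℤ => Real.exp (-π * t * (nsq k : ℝ))) := by
  have h := summable_norm_ee_nsq (τ := I * (t / 2 : ℝ)) (by simpa using ht)
  exact h.congr fun k => norm_ee_I_mul t (nsq k)

theorem tsum_gauss4 {t : ℝ} (ht : 0 < t) :
    ∑' k : Fin 4 → ℤ, Real.exp (-π * t * (nsq k : ℝ)) =
      (∑' k : ℤ, Real.exp (-π * t * (k : ℝ) ^ 2)) ^ 4 := by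
  have h := (pi_prod_summable (d := 4) (fun _ x => ((Real.exp (-π * t * (x : ℝ) ^ 2) : ℝ) : ℂ))
    (fun _ => by
      refine (summable_gauss ht).congr fun x => ?_
      rw [Complex.norm_real, Real.norm_of_nonneg (Real.exp_pos _).le])).2
  rw [prod_const, card_univ, Fintype.card_fin] at h
  apply Complex.ofReal_injective
  rw [Complex.ofReal_tsum, Complex.ofReal_pow, Complex.ofReal_tsum, ← h]
  refine tsum_congr fun k => ?_
  rw [← Complex.ofReal_prod, ← Real.exp_sum]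
  congr 2
  unfold nsq; push_cast; rw [mul_sum]

theorem gauss_antitone {s t : ℝ} (hs : 0 < s) (hst : s ≤ t) :
    ∑' k : ℤ, Real.exp (-π * t * (k : ℝ) ^ 2) ≤ ∑' k : ℤ, Real.exp (-π * s * (k : ℝ) ^ 2) := by
  refine (summable_gauss (hs.trans_le hst)).tsum_le_tsum (fun k => ?_) (summable_gauss hs)
  apply Real.exp_le_exp.2
  have : 0 ≤ π * (k : ℝ) ^ 2 := by positivity
  nlinarith

theorem gauss4_le : ∃ C : ℝ, 0 < C ∧ ∀ t : ℝ, 0 < t →
    ∑' k : Fin 4 → ℤ, Real.exp (-π * t * (nsq k : ℝ)) ≤ C * (1 + 1 / t ^ 2) := by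
  set G := ∑' k : ℤ, Real.exp (-π * 1 * (k : ℝ) ^ 2)
  have hG : 0 ≤ G := tsum_nonneg fun _ => (Real.exp_pos _).le
  refine ⟨G ^ 4 + 1, by positivity, fun t ht => ?_⟩
  rw [tsum_gauss4 ht]
  have h0 : 0 ≤ ∑' k : ℤ, Real.exp (-π * t * (k : ℝ) ^ 2) := tsum_nonneg fun _ => (Real.exp_pos _).le
  rcases le_total 1 t with h | h
  · have := gauss_antitone one_pos h
    calc _ ≤ G ^ 4 := by gcongr
      _ ≤ (G ^ 4 + 1) * 1 := by linarith
      _ ≤ _ := by
        have : 0 ≤ 1 / t ^ 2 := by positivity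
        gcongr; linarith
  · rw [Real.tsum_exp_neg_mul_int_sq ht]
    have h1 : 1 ≤ 1 / t := by rw [le_div_iff₀ ht]; linarith
    have h2 := gauss_antitone one_pos h1
    have h3 : ∑' n : ℤ, Real.exp (-π / t * (n : ℝ) ^ 2) =
        ∑' k : ℤ, Real.exp (-π * (1 / t) * (k : ℝ) ^ 2) := by
      refine tsum_congr fun k => ?_
      congr 1; ring
    rw [h3, mul_pow]
    have h4 : (1 / t ^ (1 / 2 : ℝ)) ^ 4 = 1 / t ^ 2 := by
      rw [one_div_pow, ← Real.rpow_natCast, ← Real.rpow_mul ht.le]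
      norm_num
    rw [h4]
    have h5 : 0 ≤ ∑' k : ℤ, Real.exp (-π * (1 / t) * (k : ℝ) ^ 2) :=
      tsum_nonneg fun _ => (Real.exp_pos _).le
    have h6 : 0 ≤ 1 / t ^ 2 := by positivity
    calc _ ≤ 1 / t ^ 2 * G ^ 4 := by gcongr
      _ ≤ _ := by nlinarith [pow_nonneg hG 4]

theorem one_le_nsq {k : Fin 4 → ℤ} (hk : k ≠ 0) : 1 ≤ nsq k := by
  obtain ⟨j, hj⟩ := Function.ne_iff.1 hk
  have h1 : k j ^ 2 ≤ nsq k := single_le_sum (f := fun j => k j ^ 2) (fun _ _ => sq_nonneg _)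
    (mem_univ j)
  have h2 : 0 < k j ^ 2 := by
    have : k j ≠ 0 := hj
    positivity
  omega

theorem dual_tail_le : ∃ C : ℝ, 0 < C ∧ ∀ (σ : ℂ) (c : (Fin 4 → ℤ) → ℂ) (B : ℝ), 0 < σ.im →
    c 0 = 0 → (∀ k, ‖c k‖ ≤ B) → ‖∑' k : Fin 4 → ℤ, c k * ee (σ * nsq k)‖ ≤ C * B / σ.im ^ 2 := by
  obtain ⟨C, hC, h⟩ := gauss4_le
  refine ⟨2 * C, by positivity, fun σ c B hσ h0 hB => ?_⟩
  set t := σ.im
  have hB0 : 0 ≤ B := (norm_nonneg _).trans (hB 0)
  have hs := ((summable_gauss4 hσ).mul_left (B * Real.exp (-π * t))).hasSum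
  refine (tsum_of_norm_bounded hs fun k => ?_).trans ?_
  · by_cases hk : k = 0
    · rw [hk, h0, zero_mul, norm_zero]; positivity
    · rw [norm_mul, norm_ee, mul_assoc B, ← Real.exp_add]
      refine mul_le_mul (hB k) (Real.exp_le_exp.2 ?_) (Real.exp_pos _).le hB0
      have h1 : (1 : ℝ) ≤ nsq k := by exact_mod_cast one_le_nsq hk
      have h2 : (σ * (nsq k : ℂ)).im = t * nsq k := by simp [t]
      rw [h2]
      have : 0 < π * t := by positivity
      nlinarith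
  · rw [tsum_mul_left]
    have h1 := h t hσ
    have h2 : Real.exp (-π * t) ≤ 1 := by
      rw [Real.exp_le_one_iff]; have : 0 < π * t := by positivity
      linarith
    have h3 : Real.exp (-π * t) ≤ 1 / t ^ 2 := by
      have h4 := Real.pow_div_factorial_le_exp (π * t) (by positivity) 2
      have h5 : t ^ 2 ≤ Real.exp (π * t) := by
        refine le_trans ?_ h4
        have : (3 : ℝ) < π := Real.pi_gt_three
        rw [mul_pow]; simp only [Nat.factorial_two, Nat.cast_ofNat]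
        have h6 : (2 : ℝ) ≤ π ^ 2 := by nlinarith
        nlinarith [sq_nonneg t]
      rw [neg_mul, Real.exp_neg, ← one_div]
      exact one_div_le_one_div_of_le (by positivity) h5
    have h7 : 0 ≤ 1 / t ^ 2 := by positivity
    calc B * Real.exp (-π * t) * ∑' k : Fin 4 → ℤ, Real.exp (-π * t * (nsq k : ℝ))
        ≤ B * Real.exp (-π * t) * (C * (1 + 1 / t ^ 2)) := by gcongr
      _ = B * C * (Real.exp (-π * t) + Real.exp (-π * t) * (1 / t ^ 2)) := by ring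
      _ ≤ B * C * (1 / t ^ 2 + 1 * (1 / t ^ 2)) := by gcongr
      _ = _ := by ring

theorem theta_bound : ∃ C : ℝ, 0 < C ∧ ∀ (M : ℕ) (φ : (Fin 4 → ℤ) → ℂ) (τ : ℂ) (B : ℝ),
    M ≠ 0 → Per M φ → 0 < τ.im → fhat M φ 0 = 0 → (∀ k, ‖fhat M φ k‖ ≤ B) →
    ‖∑' v : Fin 4 → ℤ, φ v * ee (τ * nsq v)‖ ≤ C * B * ‖τ‖ ^ 2 / τ.im ^ 2 := by
  obtain ⟨C, hC, h⟩ := dual_tail_le
  refine ⟨4 * C, by positivity, fun M φ τ B hM hφ hτ h0 hB => ?_⟩
  have hM' : (M : ℂ) ≠ 0 := by exact_mod_cast hM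
  have hτ0 : τ ≠ 0 := by rintro rfl; simp at hτ
  have hMr : (0 : ℝ) < M := by exact_mod_cast Nat.pos_of_ne_zero hM
  have hn : 0 < ‖τ‖ := norm_pos_iff.2 hτ0
  rw [poisson4 hM hφ hτ, norm_mul]
  set σ : ℂ := -1 / (4 * τ * M ^ 2) with hσ
  have hσim : σ.im = τ.im / (4 * M ^ 2 * ‖τ‖ ^ 2) := by
    have h1 : σ = (1 / (4 * M ^ 2) : ℝ) * (-τ⁻¹) := by
      rw [hσ]; push_cast; field_simp
    rw [h1, Complex.im_ofReal_mul, Complex.neg_im, Complex.inv_im, Complex.normSq_eq_norm_sq]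
    field_simp
  have h1 := h σ (fhat M φ) B (by rw [hσim]; positivity) h0 hB
  have h2 : ‖-1 / (4 * τ ^ 2 * M ^ 4)‖ = 1 / (4 * ‖τ‖ ^ 2 * M ^ 4) := by
    simp
  rw [h2]
  calc _ ≤ 1 / (4 * ‖τ‖ ^ 2 * M ^ 4) * (C * B / σ.im ^ 2) := by gcongr
    _ = _ := by rw [hσim]; field_simp

/-! Residue sums. -/

theorem sum_res_shift {M : ℕ} (hM : M ≠ 0) {F : (Fin 4 → ℤ) → ℂ} (hF : Per M F) (h : Fin 4 → ℤ) :
    ∑ r ∈ res M, F (r + h) = ∑ r ∈ res M, F r := by
  refine sum_nbij' (fun r j => (r j + h j) % M) (fun r j => (r j - h j) % M) ?_ ?_ ?_ ?_ ?_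
  · intro r _; exact emod_mem_res hM (r + h)
  · intro r _; exact emod_mem_res hM (r - h)
  · intro r hr
    funext j
    have := (mem_res.1 hr) j
    simp only
    rw [Int.emod_sub_emod, add_sub_cancel_right, Int.emod_eq_of_lt this.1 this.2]
  · intro r hr
    funext j
    have := (mem_res.1 hr) j
    simp only
    rw [Int.emod_add_emod, sub_add_cancel, Int.emod_eq_of_lt this.1 this.2]
  · intro r _
    exact hF _ _ fun j => Int.dvd_self_sub_emod

theorem sum_res_mul {e q : ℕ} (he : e ≠ 0) (F : (Fin 4 → ℤ) → ℂ) :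
    ∑ v ∈ res (e * q), F v = ∑ r ∈ res e, ∑ s ∈ res q, F (fun j => r j + e * s j) := by
  have hez : (0 : ℤ) < e := by exact_mod_cast Nat.pos_of_ne_zero he
  rw [← sum_product']
  symm
  refine sum_nbij' (fun p j => p.1 j + e * p.2 j) (fun v => (fun j => v j % e, fun j => v j / e))
    ?_ ?_ ?_ ?_ ?_
  · rintro ⟨r, s⟩ hp
    simp only [mem_res, mem_product] at hp ⊢
    intro j
    obtain ⟨h1, h2⟩ := hp.1 j
    obtain ⟨h3, h4⟩ := hp.2 j
    push_cast
    constructor <;> nlinarith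
  · intro v hv
    simp only [mem_res, mem_product] at hv ⊢
    refine ⟨fun j => ⟨Int.emod_nonneg _ hez.ne', Int.emod_lt_of_pos _ hez⟩, fun j => ?_⟩
    obtain ⟨h1, h2⟩ := hv j
    push_cast at h2
    exact ⟨Int.ediv_nonneg h1 hez.le, Int.ediv_lt_of_lt_mul hez (by linarith)⟩
  · rintro ⟨r, s⟩ hp
    simp only [mem_res, mem_product] at hp
    ext j
    · simp only
      rw [Int.add_mul_emod_self_left, Int.emod_eq_of_lt (hp.1 j).1 (hp.1 j).2]
    · simp only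
      rw [Int.add_mul_ediv_left _ _ hez.ne', Int.ediv_eq_zero_of_lt (hp.1 j).1 (hp.1 j).2, zero_add]
  · intro v _
    funext j
    exact Int.emod_add_mul_ediv _ _
  · intro _ _; rfl

theorem sum_res_prod (M : ℕ) (f : Fin 4 → ℤ → ℂ) :
    ∑ s ∈ res M, ∏ j, f j (s j) = ∏ j, ∑ x ∈ Ico (0 : ℤ) M, f j x := by
  unfold res; rw [prod_univ_sum]

/-- Sums over `Ico 0 q` as sums over `ZMod q`. -/
theorem sum_Ico_eq_sum_zmod {q : ℕ} [NeZero q] {β : Type*} [AddCommMonoid β] (f : ZMod q → β) :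
    ∑ x ∈ Ico (0 : ℤ) q, f x = ∑ x : ZMod q, f x := by
  refine sum_nbij' (fun x => (x : ZMod q)) (fun y => (y.val : ℤ)) ?_ ?_ ?_ ?_ ?_
  · intro _ _; simp
  · intro y _
    simp only [mem_Ico]
    exact ⟨by positivity, by exact_mod_cast y.val_lt⟩
  · intro x hx
    simp only [mem_Ico] at hx
    rw [ZMod.val_intCast, Int.emod_eq_of_lt hx.1 hx.2]
  · intro y _; simp
  · intro _ _; rfl

theorem ee_div_eq_stdAddChar {q : ℕ} [NeZero q] (a : ℤ) :
    ee (a / q) = ZMod.stdAddChar (a : ZMod q) := by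
  rw [ZMod.stdAddChar_coe]; unfold ee; congr 1; ring

theorem sum_ee_orth {q : ℕ} (hq : q ≠ 0) (c : ℤ) :
    ∑ x ∈ Ico (0 : ℤ) q, ee ((c * x : ℤ) / q) = if (q : ℤ) ∣ c then (q : ℂ) else 0 := by
  have : NeZero q := ⟨hq⟩
  simp_rw [ee_div_eq_stdAddChar]
  have := sum_Ico_eq_sum_zmod (q := q) (fun y => (ZMod.stdAddChar (y * (c : ZMod q)) : ℂ))
  push_cast
  simp_rw [mul_comm (c : ZMod q)]
  rw [this, AddChar.sum_mulShift _ (ZMod.isPrimitive_stdAddChar q)]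
  simp [ZMod.intCast_zmod_eq_zero_iff_dvd]

end Pool.Agent.Lib.H9
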