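import Mathlib
import Pool.Agent.Lib.helper9.ThetaBound
import Pool.Agent.Lib.helper9.Kloosterman

/-! Theta series with cuspidal coefficients: sup bound, and the Kloosterman bound at prime
denominators. -/

namespace Pool.Agent.Lib.H9

open Finset Complex Real

/-- All constant terms of the theta series vanish. -/
def Cusp (e : ℕ) (ψ : (Fin 4 → ℤ) → ℂ) : Prop :=
  ∀ (q : ℕ) (a : ℤ), q ≠ 0 → IsCoprime a q → ∑ v ∈ res (e * q), ψ v * ee ((a * nsq v : ℤ) / q) = 0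

theorem norm_stdAddChar {q : ℕ} [NeZero q] (x : ZMod q) : ‖(ZMod.stdAddChar x : ℂ)‖ = 1 := by
  obtain ⟨a, rfl⟩ := ZMod.intCast_surjective x
  rw [← ee_div_eq_stdAddChar, norm_ee_div]

theorem gauss_general_zmod {q : ℕ} [NeZero q] (A b : ZMod q) :
    ‖∑ s : ZMod q, (ZMod.stdAddChar (A * s ^ 2 + b * s) : ℂ)‖ ^ 2 ≤
      q * ((univ.filter (fun h : ZMod q => 2 * A * h = 0)).card : ℝ) := by
  set χ : AddChar (ZMod q) ℂ := ZMod.stdAddChar
  have key : ((‖∑ s : ZMod q, χ (A * s ^ 2 + b * s)‖ ^ 2 : ℝ) : ℂ) =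
      ∑ h : ZMod q, χ (A * h ^ 2 + b * h) * ∑ t : ZMod q, χ (t * (2 * A * h)) := by
    rw [norm_sq_eq_mul_conj, map_sum, sum_mul_sum, sum_comm]
    simp_rw [mul_sum]
    rw [sum_comm (s := univ) (t := univ)
      (f := fun h t : ZMod q => χ (A * h ^ 2 + b * h) * χ (t * (2 * A * h)))]
    refine sum_congr rfl fun t _ => ?_
    rw [← Equiv.sum_comp (Equiv.addRight t)]
    refine sum_congr rfl fun h _ => ?_
    rw [← AddChar.map_neg_eq_conj, ← AddChar.map_add_eq_mul, ← AddChar.map_add_eq_mul]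
    congr 1
    simp only [Equiv.coe_addRight]; ring
  have h2 := congrArg norm key
  rw [Complex.norm_real, Real.norm_of_nonneg (by positivity)] at h2
  rw [h2]
  refine (norm_sum_le _ _).trans ?_
  rw [card_filter]
  push_cast
  rw [mul_sum]
  refine sum_le_sum fun h _ => ?_
  rw [norm_mul, norm_stdAddChar, one_mul, AddChar.sum_mulShift _ (ZMod.isPrimitive_stdAddChar q)]
  split_ifs <;> simp

theorem gauss_general {q e : ℕ} (hq : q ≠ 0) (he : e ≠ 0) {a : ℤ} (ha : IsCoprime a q) (r k : ℤ) :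
    ‖∑ x ∈ Ico (0 : ℤ) q, ee ((a * (r + e * x) ^ 2 + k * x : ℤ) / q)‖ ^ 2 ≤ 2 * e ^ 2 * q := by
  have : NeZero q := ⟨hq⟩
  simp_rw [ee_div_eq_stdAddChar]
  have h1 := sum_Ico_eq_sum_zmod (q := q)
    (fun y => (ZMod.stdAddChar ((a : ZMod q) * ((r : ZMod q) + (e : ZMod q) * y) ^ 2 +
      (k : ZMod q) * y) : ℂ))
  push_cast
  rw [h1]
  have h2 : ∀ y : ZMod q, (ZMod.stdAddChar ((a : ZMod q) * ((r : ZMod q) + (e : ZMod q) * y) ^ 2 +
      (k : ZMod q) * y) : ℂ) =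
      ZMod.stdAddChar ((a : ZMod q) * (r : ZMod q) ^ 2) *
        ZMod.stdAddChar (((a : ZMod q) * (e : ZMod q) ^ 2) * y ^ 2 +
          (2 * (a : ZMod q) * (r : ZMod q) * (e : ZMod q) + (k : ZMod q)) * y) := by
    intro y; rw [← AddChar.map_add_eq_mul]; congr 1; ring
  simp_rw [h2]
  rw [← mul_sum, norm_mul, norm_stdAddChar, one_mul]
  refine (gauss_general_zmod _ _).trans ?_
  have hu : IsUnit (a : ZMod q) := (ZMod.coe_int_isUnit_iff_isCoprime a q).2 ha.symm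
  have h3 : (univ.filter (fun h : ZMod q => 2 * ((a : ZMod q) * e ^ 2) * h = 0)).card ≤
      2 * e ^ 2 := by
    refine le_trans (card_le_card ?_)
      (IsAddCyclic.card_nsmul_eq_zero_le (α := ZMod q) (n := 2 * e ^ 2) (by positivity))
    intro h hh
    simp only [mem_filter, mem_univ, true_and, nsmul_eq_mul] at hh ⊢
    push_cast
    apply hu.mul_left_cancel
    rw [mul_zero]; linear_combination hh
  have h4 : ((univ.filter (fun h : ZMod q => 2 * ((a : ZMod q) * e ^ 2) * h = 0)).card : ℝ) ≤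
      2 * e ^ 2 := by exact_mod_cast h3
  have : (0 : ℝ) ≤ q := by positivity
  nlinarith

theorem per_twist {e q : ℕ} (hq : q ≠ 0) {ψ : (Fin 4 → ℤ) → ℂ} (hψ : Per e ψ) (a : ℤ) :
    Per (e * q) (fun v => ψ v * ee ((a * nsq v : ℤ) / q)) := by
  intro v w h
  simp only
  rw [hψ v w (fun j => (Dvd.intro _ (by push_cast; rfl)).trans (h j)), ee_congr hq]
  rw [← mul_sub]
  refine Dvd.dvd.mul_left ?_ _
  unfold nsq
  rw [← sum_sub_distrib]
  refine dvd_sum fun j _ => ?_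
  rw [sq_sub_sq]
  exact ((Dvd.intro_left _ (by push_cast; rfl)).trans (h j)).mul_left _

theorem fhat_twist {e q : ℕ} (hq : q ≠ 0) (he : e ≠ 0) {ψ : (Fin 4 → ℤ) → ℂ} (hψ : Per e ψ)
    (a : ℤ) (k : Fin 4 → ℤ) :
    fhat (e * q) (fun v => ψ v * ee ((a * nsq v : ℤ) / q)) k =
      ∑ r ∈ res e, ψ r * ee (dot k r / (e * q : ℕ)) *
        ∏ j, ∑ x ∈ Ico (0 : ℤ) q, ee ((a * (r j + e * x) ^ 2 + k j * x : ℤ) / q) := by
  have hq' : (q : ℂ) ≠ 0 := by exact_mod_cast hq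
  have he' : (e : ℂ) ≠ 0 := by exact_mod_cast he
  unfold fhat
  rw [sum_res_mul he]
  refine sum_congr rfl fun r _ => ?_
  rw [← sum_res_prod, mul_sum]
  refine sum_congr rfl fun s _ => ?_
  beta_reduce
  rw [hψ (fun j => r j + e * s j) r (fun j => by simp), ← ee_sum, mul_assoc, mul_assoc, ← ee_add, ← ee_add]
  congr 2
  unfold nsq dot
  push_cast
  simp only [Fin.sum_univ_four]
  field_simp
  ring

theorem norm_fhat_twist_le {e q : ℕ} (hq : q ≠ 0) (he : e ≠ 0) {ψ : (Fin 4 → ℤ) → ℂ}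
    (hψ : Per e ψ) (hb : ∀ v, ‖ψ v‖ ≤ 1) {a : ℤ} (ha : IsCoprime a q) (k : Fin 4 → ℤ) :
    ‖fhat (e * q) (fun v => ψ v * ee ((a * nsq v : ℤ) / q)) k‖ ≤ 4 * e ^ 8 * q ^ 2 := by
  rw [fhat_twist hq he hψ]
  refine (norm_sum_le _ _).trans ?_
  have h1 : ∀ r ∈ res e, ‖ψ r * ee (dot k r / (e * q : ℕ)) *
      ∏ j, ∑ x ∈ Ico (0 : ℤ) q, ee ((a * (r j + e * x) ^ 2 + k j * x : ℤ) / q)‖ ≤
      (2 * e ^ 2 * q) ^ 2 := by
    intro r _
    rw [norm_mul, norm_mul, norm_ee_div, mul_one, norm_prod]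
    have h2 : (∏ j, ‖∑ x ∈ Ico (0 : ℤ) q, ee ((a * (r j + e * x) ^ 2 + k j * x : ℤ) / q)‖) ^ 2 ≤
        ((2 * e ^ 2 * q) ^ 2) ^ 2 := by
      rw [← prod_pow]
      calc _ ≤ ∏ _j : Fin 4, (2 * e ^ 2 * q : ℝ) :=
            prod_le_prod (fun _ _ => by positivity) (fun j _ => gauss_general hq he ha _ _)
        _ = _ := by rw [prod_const, card_univ, Fintype.card_fin]; ring
    have h3 := le_of_pow_le_pow_left₀ (by norm_num) (by positivity) h2
    calc _ ≤ 1 * (2 * e ^ 2 * q : ℝ) ^ 2 :=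
          mul_le_mul (hb r) h3 (prod_nonneg fun _ _ => norm_nonneg _) zero_le_one
      _ = _ := one_mul _
  have h4 := sum_le_card_nsmul _ _ _ h1
  rw [card_res, nsmul_eq_mul] at h4
  refine h4.trans (le_of_eq ?_)
  push_cast; ring

theorem fhat_zero_of_cusp {e q : ℕ} (hq : q ≠ 0) {ψ : (Fin 4 → ℤ) → ℂ} (hc : Cusp e ψ)
    {a : ℤ} (ha : IsCoprime a q) :
    fhat (e * q) (fun v => ψ v * ee ((a * nsq v : ℤ) / q)) 0 = 0 := by
  rw [← hc q a hq ha]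
  unfold fhat
  refine sum_congr rfl fun r _ => ?_
  simp [dot, ee_zero]

theorem theta_sup_bound : ∃ C : ℝ, 0 < C ∧ ∀ (e : ℕ) (ψ : (Fin 4 → ℤ) → ℂ) (α y : ℝ),
    e ≠ 0 → Per e ψ → (∀ v, ‖ψ v‖ ≤ 1) → Cusp e ψ → 0 < y → y ≤ 1 →
    ‖∑' v : Fin 4 → ℤ, ψ v * ee ((α + y * I) * nsq v)‖ ≤ C * e ^ 8 / y := by
  obtain ⟨C, hC, h⟩ := theta_bound
  refine ⟨8 * C, by positivity, fun e ψ α y he hψ hb hc hy hy1 => ?_⟩
  set N := ⌊√(1 / y)⌋₊ with hN
  have h1y : 1 ≤ 1 / y := by rw [le_div_iff₀ hy]; linarith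
  have hs1 : 1 ≤ √(1 / y) := Real.one_le_sqrt.2 h1y
  have hN0 : 0 < N := Nat.floor_pos.2 hs1
  have hN1 : (N : ℝ) ^ 2 ≤ 1 / y := by
    have := Nat.floor_le (Real.sqrt_nonneg (1 / y))
    calc (N : ℝ) ^ 2 ≤ √(1 / y) ^ 2 := by gcongr
      _ = _ := Real.sq_sqrt (by positivity)
  have hN2 : 1 / y ≤ ((N : ℝ) + 1) ^ 2 := by
    have := (Nat.lt_floor_add_one (√(1 / y))).le
    calc 1 / y = √(1 / y) ^ 2 := (Real.sq_sqrt (by positivity)).symm
      _ ≤ _ := by gcongr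
  obtain ⟨ρ, hρ1, hρ2⟩ := Real.exists_rat_abs_sub_le_and_den_le α hN0
  set q := ρ.den
  set a := ρ.num
  have hq : q ≠ 0 := ρ.den_nz
  have hqr : (0 : ℝ) < q := by exact_mod_cast Nat.pos_of_ne_zero hq
  have hq' : (q : ℂ) ≠ 0 := by exact_mod_cast hq
  have ha : IsCoprime a q := Int.isCoprime_iff_gcd_eq_one.2 (by
    have := ρ.reduced
    simpa [Int.gcd] using this)
  set β : ℝ := α - ρ
  set τ : ℂ := β + y * I
  have hτim : τ.im = y := by simp [τ]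
  have hτn : ‖τ‖ ^ 2 = β ^ 2 + y ^ 2 := by
    rw [← Complex.normSq_eq_norm_sq, Complex.normSq_add_mul_I]
  have e1 : ∀ v : Fin 4 → ℤ, ψ v * ee ((α + y * I) * nsq v) =
      (ψ v * ee ((a * nsq v : ℤ) / q)) * ee (τ * nsq v) := by
    intro v
    rw [mul_assoc, ← ee_add]
    congr 2
    have : (ρ : ℝ) = a / q := by rw [Rat.cast_def]
    simp only [τ, β, this]
    push_cast; field_simp; ring
  simp_rw [e1]
  have h2 := h (e * q) _ τ (4 * e ^ 8 * q ^ 2) (mul_ne_zero he hq) (per_twist hq hψ a)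
    (by rw [hτim]; exact hy) (fhat_zero_of_cusp hq hc ha) (norm_fhat_twist_le hq he hψ hb ha)
  refine h2.trans ?_
  rw [hτim, hτn]
  have h3 : (q : ℝ) ^ 2 * β ^ 2 ≤ y := by
    have h4 : |β| * q ≤ 1 / (N + 1) := by
      rw [le_div_iff₀ (by positivity)] at hρ1 ⊢
      linarith
    have h5 : (|β| * q) ^ 2 ≤ (1 / (N + 1)) ^ 2 := by gcongr
    rw [mul_pow, sq_abs, one_div_pow] at h5
    have h6 : 1 / ((N : ℝ) + 1) ^ 2 ≤ y := by
      rw [div_le_iff₀ (by positivity)]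
      rw [div_le_iff₀ hy] at hN2
      linarith
    linarith
  have h7 : (q : ℝ) ^ 2 * y ^ 2 ≤ y := by
    have h8 : (q : ℝ) ≤ N := by exact_mod_cast hρ2
    have h9 : (q : ℝ) ^ 2 ≤ 1 / y := le_trans (by gcongr) hN1
    rw [le_div_iff₀ hy] at h9
    nlinarith
  rw [div_le_div_iff₀ (by positivity) hy]
  have : C * (4 * e ^ 8 * q ^ 2) * (β ^ 2 + y ^ 2) * y =
      4 * C * e ^ 8 * y * (q ^ 2 * β ^ 2 + q ^ 2 * y ^ 2) := by ring
  rw [this]
  calc _ ≤ 4 * C * e ^ 8 * y * (y + y) := by gcongr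
    _ = _ := by ring

theorem prime_gauss_prod {q e : ℕ} [Fact q.Prime] (hq2 : q ≠ 2) (hqe : (e : ZMod q) ≠ 0)
    {a : ZMod q} (ha : a ≠ 0) (r k : Fin 4 → ℤ) :
    ∏ j, ∑ x : ZMod q, (ZMod.stdAddChar (a * ((r j : ZMod q) + (e : ZMod q) * x) ^ 2 +
      (k j : ZMod q) * x) : ℂ) =
      ZMod.stdAddChar (-((dot k r : ℤ) : ZMod q) * (e : ZMod q)⁻¹) * q ^ 2 *
        ZMod.stdAddChar ((-((nsq k : ℤ) : ZMod q) * ((e : ZMod q)⁻¹) ^ 2 * 4⁻¹) * a⁻¹) := by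
  set χ : AddChar (ZMod q) ℂ := ZMod.stdAddChar
  have hF : ringChar (ZMod q) ≠ 2 := by rw [ZMod.ringChar_zmod_n]; exact hq2
  have h1 : ∀ j, ∑ x : ZMod q, χ (a * ((r j : ZMod q) + (e : ZMod q) * x) ^ 2 +
      (k j : ZMod q) * x) =
      χ (-((k j : ZMod q) * (r j : ZMod q)) * (e : ZMod q)⁻¹) *
        χ (-(((k j : ZMod q) * (e : ZMod q)⁻¹) ^ 2) * (4 * a)⁻¹) *
        ∑ t : ZMod q, χ (a * t ^ 2) := by
    intro j
    rw [mul_assoc, ← gauss_linear hF χ ha, mul_sum]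
    refine Fintype.sum_equiv ((Equiv.mulLeft₀ (e : ZMod q) hqe).trans (Equiv.addLeft (r j : ZMod q))) _ _
      fun x => ?_
    rw [← AddChar.map_add_eq_mul]
    congr 1
    simp only [Equiv.trans_apply, Equiv.mulLeft₀_apply, Equiv.coe_addLeft]
    field_simp
    ring
  simp_rw [h1]
  rw [prod_mul_distrib, prod_mul_distrib, prod_const, card_univ, Fintype.card_fin,
    gauss_pow_four hF χ (ZMod.isPrimitive_stdAddChar q) ha, ZMod.card]
  simp only [Fin.prod_univ_four, ← AddChar.map_add_eq_mul]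
  rw [mul_right_comm, ← AddChar.map_add_eq_mul]
  congr 2
  unfold dot nsq; push_cast; simp only [Fin.sum_univ_four]; rw [mul_inv]; ring

theorem theta_prime_bound : ∃ C : ℝ, 0 < C ∧ ∀ (e q : ℕ) (ψ : (Fin 4 → ℤ) → ℂ) (n : ℤ) (y : ℝ),
    e ≠ 0 → Per e ψ → (∀ v, ‖ψ v‖ ≤ 1) → Cusp e ψ → 0 < y → q.Prime → q ≠ 2 → ¬ q ∣ e →
    ¬ (q : ℤ) ∣ n →
    ‖∑' v : Fin 4 → ℤ, (ψ v * ∑ a ∈ Ico (1 : ℤ) q, ee ((a * (nsq v - n) : ℤ) / q)) *
      ee ((y * I) * nsq v)‖ ≤ C * e ^ 4 * q ^ 2 * (q : ℝ) ^ (3 / 4 : ℝ) := by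
  obtain ⟨C, hC, h⟩ := theta_bound
  refine ⟨2 * C, by positivity, fun e q ψ n y he hψ hb hc hy hq hq2 hqe hqn => ?_⟩
  have : Fact q.Prime := ⟨hq⟩
  have hq0 : q ≠ 0 := hq.ne_zero
  have hq' : (q : ℂ) ≠ 0 := by exact_mod_cast hq0
  set Φ : (Fin 4 → ℤ) → ℂ := fun v => ψ v * ∑ a ∈ Ico (1 : ℤ) q, ee ((a * (nsq v - n) : ℤ) / q)
  have hΦ : ∀ v, Φ v = ∑ a ∈ Ico (1 : ℤ) q, ee ((-(a * n) : ℤ) / q) *
      (ψ v * ee ((a * nsq v : ℤ) / q)) := by
    intro v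
    simp only [Φ]
    rw [mul_sum]
    refine sum_congr rfl fun a _ => ?_
    rw [mul_left_comm, ← ee_add]
    congr 2; push_cast; ring
  have hΦper : Per (e * q) Φ := by
    intro v w hvw
    rw [hΦ, hΦ]
    refine sum_congr rfl fun a _ => ?_
    exact congrArg _ (per_twist hq0 hψ a v w hvw)
  have hfh : ∀ k, fhat (e * q) Φ k = ∑ a ∈ Ico (1 : ℤ) q, ee ((-(a * n) : ℤ) / q) *
      fhat (e * q) (fun v => ψ v * ee ((a * nsq v : ℤ) / q)) k := by
    intro k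
    unfold fhat
    simp_rw [hΦ, sum_mul, mul_sum]
    rw [sum_comm]
    refine sum_congr rfl fun a _ => sum_congr rfl fun r _ => by ring
  have hcop : ∀ a ∈ Ico (1 : ℤ) q, IsCoprime a q := by
    intro a ha
    rw [mem_Ico] at ha
    refine ((Nat.prime_iff_prime_int.1 hq).irreducible.coprime_iff_not_dvd.2 ?_).symm
    intro hd
    have := Int.le_of_dvd (by omega) hd
    omega
  have h0 : fhat (e * q) Φ 0 = 0 := by
    rw [hfh]
    exact sum_eq_zero fun a ha => by rw [fhat_zero_of_cusp hq0 hc (hcop a ha), mul_zero]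
  have he' : (e : ZMod q) ≠ 0 := by rwa [Ne, ZMod.natCast_eq_zero_iff]
  have hn' : -(n : ZMod q) ≠ 0 := by
    rwa [neg_ne_zero, Ne, ZMod.intCast_zmod_eq_zero_iff_dvd]
  have hB : ∀ k, ‖fhat (e * q) Φ k‖ ≤ e ^ 4 * (q ^ 2 * (2 * (q : ℝ) ^ (3 / 4 : ℝ))) := by
    intro k
    rw [hfh]
    simp_rw [fhat_twist hq0 he hψ, mul_sum]
    rw [sum_comm]
    refine (norm_sum_le _ _).trans ?_
    have h1 : ∀ r ∈ res e, ‖∑ a ∈ Ico (1 : ℤ) q, ee ((-(a * n) : ℤ) / q) *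
        (ψ r * ee (dot k r / (e * q : ℕ)) *
        ∏ j, ∑ x ∈ Ico (0 : ℤ) q, ee ((a * (r j + e * x) ^ 2 + k j * x : ℤ) / q))‖ ≤
        q ^ 2 * (2 * (q : ℝ) ^ (3 / 4 : ℝ)) := by
      intro r _
      set b : ZMod q := -((nsq k : ℤ) : ZMod q) * ((e : ZMod q)⁻¹) ^ 2 * 4⁻¹
      set f : ZMod q → ℂ := fun a => if a = 0 then 0 else
        ZMod.stdAddChar (-(n : ZMod q) * a + b * a⁻¹)
      have h2 : ∀ a ∈ Ico (1 : ℤ) q, ee ((-(a * n) : ℤ) / q) *
          (ψ r * ee (dot k r / (e * q : ℕ)) *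
          ∏ j, ∑ x ∈ Ico (0 : ℤ) q, ee ((a * (r j + e * x) ^ 2 + k j * x : ℤ) / q)) =
          (ψ r * ee (dot k r / (e * q : ℕ)) *
            ZMod.stdAddChar (-((dot k r : ℤ) : ZMod q) * (e : ZMod q)⁻¹) * q ^ 2) * f a := by
        intro a ha
        have ha0 : (a : ZMod q) ≠ 0 := by
          rw [Ne, ZMod.intCast_zmod_eq_zero_iff_dvd]
          exact (Nat.prime_iff_prime_int.1 hq).irreducible.coprime_iff_not_dvd.1 (hcop a ha).symm
        have h3 : ∀ j, ∑ x ∈ Ico (0 : ℤ) q, ee ((a * (r j + e * x) ^ 2 + k j * x : ℤ) / q) =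
            ∑ x : ZMod q, (ZMod.stdAddChar ((a : ZMod q) * ((r j : ZMod q) + (e : ZMod q) * x) ^ 2 +
              (k j : ZMod q) * x) : ℂ) := by
          intro j
          rw [← sum_Ico_eq_sum_zmod]
          refine sum_congr rfl fun x _ => ?_
          rw [ee_div_eq_stdAddChar]; push_cast; rfl
        simp_rw [h3]
        rw [prime_gauss_prod hq2 he' ha0, ee_div_eq_stdAddChar]
        simp only [f, if_neg ha0]
        rw [AddChar.map_add_eq_mul]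
        push_cast
        rw [show -((a : ZMod q) * n) = -n * a by ring]
        ring
      rw [sum_congr rfl h2, ← mul_sum]
      have h4 : ∑ a ∈ Ico (1 : ℤ) q, f a = kl ZMod.stdAddChar (-(n : ZMod q)) b := by
        have h5 : ∑ a ∈ Ico (0 : ℤ) q, f a = f ((0 : ℤ) : ZMod q) + ∑ a ∈ Ico (1 : ℤ) q, f a := by
          rw [← sum_erase_add _ _ (a := 0) (by simp [hq.pos]), add_comm]
          congr 2
          ext x; simp only [mem_erase, mem_Ico]; omega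
        rw [sum_Ico_eq_sum_zmod] at h5
        simp only [f, Int.cast_zero, if_true, zero_add] at h5
        simp only [f]
        rw [← h5]
        unfold kl
        rw [← sum_erase (s := univ) (a := (0 : ZMod q)) (by simp)]
        exact sum_congr rfl fun x hx => by rw [if_neg (ne_of_mem_erase hx)]
      rw [h4, norm_mul, norm_mul, norm_mul, norm_mul, norm_ee_div, norm_stdAddChar, norm_pow,
        Complex.norm_natCast]
      have h6 := norm_kl_le ZMod.stdAddChar (ZMod.isPrimitive_stdAddChar q) hn' b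
      rw [ZMod.card] at h6
      have := hb r
      calc _ ≤ 1 * 1 * 1 * (q : ℝ) ^ 2 * (2 * (q : ℝ) ^ (3 / 4 : ℝ)) := by gcongr
        _ = _ := by ring
    have h7 := sum_le_card_nsmul _ _ _ h1
    rw [card_res, nsmul_eq_mul] at h7
    exact_mod_cast h7
  have h8 := h (e * q) Φ (y * I) _ (mul_ne_zero he hq0) hΦper (by simpa using hy) h0 hB
  refine h8.trans (le_of_eq ?_)
  have : ‖(y : ℂ) * I‖ = y := by simp [abs_of_pos hy]
  rw [this]
  simp only [mul_im, ofReal_re, I_im, mul_one, ofReal_im, I_re, mul_zero, add_zero]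
  field_simp

end Pool.Agent.Lib.H9
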