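import Mathlib
import Pool.Agent.Lib.helper9.Cusp

/-! Jutila's form of the circle method for cuspidal theta series. -/

namespace Pool.Agent.Lib.H9

open Finset Complex Real MeasureTheory

theorem integral_ee_int (c : ℤ) :
    ∫ x in (0 : ℝ)..1, ee (x * c) = if c = 0 then 1 else 0 := by
  split_ifs with h
  · simp [h, ee_zero]
  · have hc : (2 * π * I * c : ℂ) ≠ 0 := by
      simp [h, Real.pi_ne_zero]
    have := integral_exp_mul_complex (a := 0) (b := 1) hc
    have h2 : ∀ x : ℝ, ee (x * c) = cexp (2 * π * I * c * x) := by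
      intro x; unfold ee; congr 1; ring
    simp_rw [h2]
    rw [this]
    have h3 := ee_int c
    unfold ee at h3
    simp [h3]

theorem continuous_ee : Continuous ee := by unfold ee; fun_prop

theorem bessel {V : Type*} [Countable V] (c : V → ℂ) (N : V → ℤ) (hc : Summable (fun v => ‖c v‖))
    {B : ℝ} (hB : ∀ x : ℝ, ‖∑' v, c v * ee (x * N v)‖ ≤ B) (S : Finset ℤ) :
    ∑ m ∈ S, ‖∑' v, if N v = m then c v else 0‖ ^ 2 ≤ B ^ 2 := by
  set f : ℝ → ℂ := fun x => ∑' v, c v * ee (x * N v)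
  have hn : ∀ (v : V) (x : ℝ), ‖c v * ee (x * N v)‖ = ‖c v‖ := by
    intro v x
    have := norm_ee_real (x * N v)
    push_cast at this
    rw [norm_mul, this, mul_one]
  have hcont : Continuous f :=
    continuous_tsum (fun v => continuous_const.mul (continuous_ee.comp (by fun_prop))) hc
      (fun v x => (hn v x).le)
  have hL2 : MemLp f 2 (volume.restrict (Set.Ioc (0 : ℝ) 1)) :=
    MemLp.of_bound hcont.aestronglyMeasurable B (Filter.Eventually.of_forall hB)
  have hP := hasSum_sq_fourierCoeffOn zero_lt_one hL2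
  have hcoef : ∀ m : ℤ, fourierCoeffOn zero_lt_one f m = ∑' v, if N v = m then c v else 0 := by
    intro m
    rw [fourierCoeffOn_eq_integral]
    have h1 : ∀ x : ℝ, fourier (-m) (x : AddCircle ((1 : ℝ) - 0)) • f x =
        ∑' v, c v * ee (x * (N v - m : ℤ)) := by
      intro x
      rw [fourier_coe_apply, smul_eq_mul, ← tsum_mul_left]
      refine tsum_congr fun v => ?_
      unfold ee
      rw [mul_left_comm, ← Complex.exp_add]
      congr 2; push_cast; ring
    simp_rw [h1]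
    have hn' : ∀ (v : V) (x : ℝ), ‖c v * ee (x * (N v - m : ℤ))‖ = ‖c v‖ := by
      intro v x
      have := norm_ee_real (x * (N v - m : ℤ))
      push_cast at this ⊢
      rw [norm_mul, this, mul_one]
    rw [intervalIntegral.integral_of_le zero_le_one, ← integral_tsum_of_summable_integral_norm]
    · simp only [sub_zero, div_one, one_smul]
      refine tsum_congr fun v => ?_
      rw [← intervalIntegral.integral_of_le zero_le_one, intervalIntegral.integral_const_mul,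
        integral_ee_int]
      simp [sub_eq_zero]
    · intro v
      exact (Continuous.integrableOn_Icc
        (continuous_const.mul (continuous_ee.comp (by fun_prop)))).mono_set Set.Ioc_subset_Icc_self
    · simp_rw [hn']
      simpa using hc
  simp_rw [hcoef] at hP
  refine (sum_le_hasSum S (fun _ _ => by positivity) hP).trans ?_
  simp only [sub_zero, inv_one, one_smul]
  have h2 : ∫ x in (0 : ℝ)..1, ‖f x‖ ^ 2 ≤ ∫ x in (0 : ℝ)..1, B ^ 2 := by
    refine intervalIntegral.integral_mono_on zero_le_one ?_ (by simp) fun x _ => ?_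
    · exact (hcont.norm.pow 2).intervalIntegrable _ _
    · have := hB x
      gcongr
  simpa using h2

/-- The integer points on the sphere of squared radius `m`. -/
noncomputable def sphere (m : ℤ) : Finset (Fin 4 → ℤ) :=
  (Fintype.piFinset (fun _ => Icc (-m) m)).filter (fun v => nsq v = m)

theorem mem_sphere {m : ℤ} {v : Fin 4 → ℤ} : v ∈ sphere m ↔ nsq v = m := by
  simp only [sphere, mem_filter, Fintype.mem_piFinset, mem_Icc, and_iff_right_iff_imp]
  intro h j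
  have h1 : v j ^ 2 ≤ nsq v := single_le_sum (f := fun j => v j ^ 2) (fun _ _ => sq_nonneg _)
    (mem_univ j)
  constructor <;> nlinarith

/-- The coefficients of the theta series. -/
noncomputable def coef (ψ : (Fin 4 → ℤ) → ℂ) (m : ℤ) : ℂ := ∑ v ∈ sphere m, ψ v

theorem tsum_ite_nsq (c : (Fin 4 → ℤ) → ℂ) (m : ℤ) :
    (∑' v, if nsq v = m then c v else 0) = ∑ v ∈ sphere m, c v := by
  rw [tsum_eq_sum (s := sphere m)]
  · exact sum_congr rfl fun v hv => if_pos (mem_sphere.1 hv)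
  · intro v hv; exact if_neg (fun h => hv (mem_sphere.2 h))

theorem hasSum_coef (ψ : (Fin 4 → ℤ) → ℂ) (h : ℤ → ℂ)
    (hs : Summable (fun v => ψ v * h (nsq v))) :
    HasSum (fun m => coef ψ m * h m) (∑' v, ψ v * h (nsq v)) := by
  have := hs.hasSum.tsum_fiberwise nsq
  suffices H : ∀ m : ℤ, coef ψ m * h m = ∑' b : ↑(nsq ⁻¹' {m}), ψ b * h (nsq b) by
    simp_rw [H]; exact this
  intro m
  rw [tsum_subtype (nsq ⁻¹' {m}) (fun v => ψ v * h (nsq v)), tsum_eq_sum (s := sphere m)]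
  · unfold coef
    rw [sum_mul]
    refine sum_congr rfl fun v hv => ?_
    rw [Set.indicator_of_mem (by simpa using mem_sphere.1 hv), mem_sphere.1 hv]
  · intro v hv
    exact Set.indicator_of_notMem (by simpa using fun h => hv (mem_sphere.2 h)) _

theorem coef_neg (ψ : (Fin 4 → ℤ) → ℂ) {m : ℤ} (hm : m < 0) : coef ψ m = 0 := by
  refine sum_eq_zero fun v hv => ?_
  have := nsq_nonneg v
  rw [mem_sphere.1 hv] at this
  omega

theorem coef_l2_bound : ∃ C : ℝ, 0 < C ∧ ∀ (e : ℕ) (ψ : (Fin 4 → ℤ) → ℂ) (y : ℝ),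
    e ≠ 0 → Per e ψ → (∀ v, ‖ψ v‖ ≤ 1) → Cusp e ψ → 0 < y → y ≤ 1 → ∀ S : Finset ℤ,
    ∑ m ∈ S, (‖coef ψ m‖ * Real.exp (-(2 * π * y * m))) ^ 2 ≤ (C * e ^ 8 / y) ^ 2 := by
  obtain ⟨C, hC, h⟩ := theta_sup_bound
  refine ⟨C, hC, fun e ψ y he hψ hb hc hy hy1 S => ?_⟩
  have hs : Summable (fun v => ‖ψ v * ee (y * I * nsq v)‖) := by
    refine (summable_norm_ee_nsq (τ := y * I) (by simpa using hy)).of_nonneg_of_le
      (fun _ => norm_nonneg _) fun v => ?_
    rw [norm_mul]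
    exact mul_le_of_le_one_left (norm_nonneg _) (hb v)
  have h1 := bessel (fun v => ψ v * ee (y * I * nsq v)) nsq hs (B := C * e ^ 8 / y) (fun x => by
    refine le_trans (le_of_eq ?_) (h e ψ x y he hψ hb hc hy hy1)
    congr 1
    refine tsum_congr fun v => ?_
    rw [mul_assoc, ← ee_add]; congr 2; ring) S
  refine le_trans (le_of_eq ?_) h1
  refine sum_congr rfl fun m _ => ?_
  rw [tsum_ite_nsq]
  congr 1
  have : ∑ v ∈ sphere m, ψ v * ee (y * I * nsq v) = coef ψ m * ee (y * I * m) := by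
    unfold coef; rw [sum_mul]
    exact sum_congr rfl fun v hv => by rw [mem_sphere.1 hv]
  rw [this, norm_mul, norm_ee]
  congr 2; simp; ring

theorem sum_inv_sq_le {t : ℝ} (ht : 0 < t) (J : Finset ℕ) (hJ : 0 ∉ J) :
    ∑ j ∈ J, 1 / (1 + j * t) ^ 2 ≤ 1 / t := by
  have h1 : ∀ N : ℕ, ∑ j ∈ range N, 1 / (1 + ((j + 1 : ℕ) : ℝ) * t) ^ 2 ≤
      1 / t - 1 / (t * (1 + N * t)) := by
    intro N
    induction N with
    | zero => simp
    | succ N ih =>
      rw [sum_range_succ]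
      have h2 : 1 / (1 + ((N + 1 : ℕ) : ℝ) * t) ^ 2 ≤
          1 / (t * (1 + N * t)) - 1 / (t * (1 + ((N + 1 : ℕ) : ℝ) * t)) := by
        push_cast
        have : 1 / (t * (1 + N * t)) - 1 / (t * (1 + (N + 1) * t)) =
            1 / ((1 + N * t) * (1 + (N + 1) * t)) := by field_simp; ring
        rw [this, sq]
        gcongr; linarith
      linarith
  obtain ⟨N, hN⟩ := J.exists_nat_subset_range
  have h3 : J ⊆ (range N).image (· + 1) := by
    intro j hj
    have h4 : j ≠ 0 := fun h => hJ (h ▸ hj)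
    have := mem_range.1 (hN hj)
    exact mem_image.2 ⟨j - 1, mem_range.2 (by omega), by omega⟩
  refine (sum_le_sum_of_subset_of_nonneg h3 (fun _ _ _ => by positivity)).trans ?_
  rw [sum_image (fun _ _ _ _ h => by simpa using h)]
  refine (h1 N).trans ?_
  have : 0 ≤ 1 / (t * (1 + N * t)) := by positivity
  linarith

theorem sum_exp_progression_le {n : ℤ} (hn : 0 < n) {D : ℕ} (hD : 0 < D) (S : Finset ℤ)
    (hS : ∀ m ∈ S, 0 ≤ m ∧ m ≠ n ∧ (D : ℤ) ∣ m - n) :
    ∑ m ∈ S, Real.exp (-(2 * π * (1 / n) * m)) ≤ 8 * n / D := by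
  have hnr : (0 : ℝ) < n := by exact_mod_cast hn
  have hDr : (0 : ℝ) < D := by exact_mod_cast hD
  set t : ℝ := D / n
  have ht : 0 < t := by positivity
  set φ : ℤ → ℕ := fun m => (m - n).natAbs / D
  have hφ : ∀ m ∈ S, ((φ m : ℕ) : ℝ) * D = |(m : ℝ) - n| := by
    intro m hm
    have h1 : D ∣ (m - n).natAbs := Int.natCast_dvd.1 (hS m hm).2.2
    have h2 : φ m * D = (m - n).natAbs := Nat.div_mul_cancel h1
    have h3 : ((φ m * D : ℕ) : ℝ) = ((m - n).natAbs : ℝ) := by rw [h2]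
    rw [Nat.cast_natAbs] at h3
    push_cast at h3
    exact h3
  have hb : ∀ m ∈ S, Real.exp (-(2 * π * (1 / n) * m)) ≤ 4 * (1 / (1 + φ m * t) ^ 2) := by
    intro m hm
    have h1 : (φ m : ℝ) * t = |(m : ℝ) - n| / n := by
      rw [← hφ m hm]; simp only [t]; ring
    have hm0 : (0 : ℝ) ≤ m := by exact_mod_cast (hS m hm).1
    rw [h1]
    rcases le_total (m : ℝ) n with h | h
    · have h2 : |(m : ℝ) - n| / n ≤ 1 := by
        rw [div_le_one hnr, abs_le]; constructor <;> linarith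
      have h3 : Real.exp (-(2 * π * (1 / n) * m)) ≤ 1 := by
        rw [Real.exp_le_one_iff]
        have : 0 ≤ 2 * π * (1 / n) * m := by positivity
        linarith
      have h4 : 0 ≤ |(m : ℝ) - n| / n := by positivity
      refine h3.trans ?_
      rw [mul_one_div, le_div_iff₀ (by positivity)]
      nlinarith
    · rw [abs_of_nonneg (by linarith)]
      have h2 : 1 + ((m : ℝ) - n) / n = m / n := by field_simp; ring
      rw [h2]
      set u : ℝ := m / n
      have hu : 0 < u := div_pos (by linarith) hnr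
      have h3 : 2 * π * (1 / n) * m = 2 * π * u := by simp only [u]; ring
      rw [h3, Real.exp_neg, mul_one_div, inv_eq_one_div, div_le_div_iff₀ (Real.exp_pos _)
        (by positivity)]
      have h4 := Real.pow_div_factorial_le_exp (2 * π * u) (by positivity) 2
      simp only [Nat.factorial_two, Nat.cast_ofNat] at h4
      have h5 : (3 : ℝ) < π := Real.pi_gt_three
      have h6 : (1 : ℝ) ≤ π ^ 2 := by nlinarith
      nlinarith [sq_nonneg u]
  have aux : ∀ T ⊆ S, Set.InjOn φ T → ∑ m ∈ T, Real.exp (-(2 * π * (1 / n) * m)) ≤ 4 * (1 / t) := by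
    intro T hT hinj
    refine (sum_le_sum fun m hm => hb m (hT hm)).trans ?_
    rw [← mul_sum, ← sum_image (f := fun j : ℕ => 1 / (1 + (j : ℝ) * t) ^ 2) hinj]
    refine mul_le_mul_of_nonneg_left (sum_inv_sq_le ht _ ?_) (by norm_num)
    intro h0
    obtain ⟨m, hm, h⟩ := mem_image.1 h0
    have := hφ m (hT hm)
    rw [h] at this
    have h2 : (m : ℝ) - n = 0 := by
      rw [← abs_eq_zero, ← this]; simp
    exact (hS m (hT hm)).2.1 (by exact_mod_cast sub_eq_zero.1 h2)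
  rw [← sum_filter_add_sum_filter_not S (fun m => n ≤ m)]
  have a1 := aux (S.filter (fun m => n ≤ m)) (filter_subset _ _) (by
    intro a ha b hb hab
    simp only [coe_filter, Set.mem_ofPred_eq] at ha hb
    have h1 := hφ a ha.1
    have h2 := hφ b hb.1
    have ha' : (n : ℝ) ≤ a := by exact_mod_cast ha.2
    have hb' : (n : ℝ) ≤ b := by exact_mod_cast hb.2
    rw [hab, h2, abs_of_nonneg (by linarith), abs_of_nonneg (by linarith)] at h1
    exact_mod_cast (show (a : ℝ) = b by linarith))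
  have a2 := aux (S.filter (fun m => ¬ n ≤ m)) (filter_subset _ _) (by
    intro a ha b hb hab
    simp only [coe_filter, Set.mem_ofPred_eq, not_le] at ha hb
    have h1 := hφ a ha.1
    have h2 := hφ b hb.1
    have ha' : (a : ℝ) < n := by exact_mod_cast ha.2
    have hb' : (b : ℝ) < n := by exact_mod_cast hb.2
    rw [hab, h2, abs_of_neg (by linarith), abs_of_neg (by linarith)] at h1
    exact_mod_cast (show (a : ℝ) = b by linarith))
  have : 4 * (1 / t) + 4 * (1 / t) = 8 * n / D := by simp only [t]; field_simp; ring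
  linarith

theorem card_sq_le_two_mul_sum (Q : Finset ℕ) (hQ : 0 ∉ Q) : Q.card ^ 2 ≤ 2 * ∑ q ∈ Q, q := by
  induction Q using Finset.induction_on_max with
  | empty => simp
  | insert a s ha ih =>
    have has : a ∉ s := fun h => lt_irrefl _ (ha a h)
    have h0 : 0 ∉ s := fun h => hQ (mem_insert_of_mem h)
    have h1 : s.card + 1 ≤ a := by
      have : s ⊆ Ioo 0 a := fun x hx => mem_Ioo.2 ⟨Nat.pos_of_ne_zero (fun h => h0 (h ▸ hx)), ha x hx⟩
      have h2 := card_le_card this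
      have h3 : a ≠ 0 := fun h => hQ (h ▸ mem_insert_self _ _)
      simp at h2; omega
    rw [card_insert_of_notMem has, sum_insert has]
    have := ih h0
    nlinarith

/-- Sum of Ramanujan sums to prime moduli. -/
noncomputable def ramSum (Q : Finset ℕ) (h : ℤ) : ℝ :=
  ∑ q ∈ Q, ((if (q : ℤ) ∣ h then (q : ℝ) else 0) - 1)

theorem ramSum_l2 {n : ℤ} (hn : 0 < n) (Q : Finset ℕ) (hQ : ∀ q ∈ Q, q.Prime) (S : Finset ℤ)
    (hS : ∀ m ∈ S, 0 ≤ m ∧ m ≠ n) :
    ∑ m ∈ S, Real.exp (-(2 * π * (1 / n) * m)) * ramSum Q (m - n) ^ 2 ≤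
      40 * n * ∑ q ∈ Q, (q : ℝ) := by
  have hnr : (0 : ℝ) < n := by exact_mod_cast hn
  set w : ℤ → ℝ := fun m => Real.exp (-(2 * π * (1 / n) * m))
  have hw : ∀ m, 0 ≤ w m := fun m => (Real.exp_pos _).le
  set d : ℕ → ℤ → ℝ := fun q m => if (q : ℤ) ∣ m - n then (q : ℝ) else 0
  have h1 : ∀ m, ramSum Q (m - n) ^ 2 ≤ (∑ q ∈ Q, d q m) ^ 2 + (Q.card : ℝ) ^ 2 := by
    intro m
    unfold ramSum
    rw [sum_sub_distrib, sum_const, nsmul_eq_mul, mul_one]
    have : 0 ≤ ∑ q ∈ Q, d q m := sum_nonneg fun q _ => by simp only [d]; positivity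
    have h2 : (0 : ℝ) ≤ Q.card := by positivity
    simp only [d] at this ⊢
    nlinarith [mul_nonneg this h2]
  have h2 : ∑ m ∈ S, w m ≤ 8 * n := by
    have := sum_exp_progression_le hn (D := 1) one_pos S
      (fun m hm => ⟨(hS m hm).1, (hS m hm).2, by simp⟩)
    rwa [Nat.cast_one, div_one] at this
  have h3 : ∀ q ∈ Q, ∀ q' ∈ Q, ∑ m ∈ S, w m * (d q m * d q' m) ≤
      8 * n * ((if q = q' then (q : ℝ) else 0) + 1) := by
    intro q hq q' hq'
    have hq0 : (0 : ℝ) < q := by exact_mod_cast (hQ q hq).pos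
    have hq0' : (0 : ℝ) < q' := by exact_mod_cast (hQ q' hq').pos
    have e1 : ∑ m ∈ S, w m * (d q m * d q' m) =
        q * q' * ∑ m ∈ S.filter (fun m => (q : ℤ) ∣ m - n ∧ (q' : ℤ) ∣ m - n), w m := by
      rw [sum_filter, mul_sum]
      refine sum_congr rfl fun m _ => ?_
      simp only [d]
      by_cases ha : (q : ℤ) ∣ m - n <;> by_cases hb : (q' : ℤ) ∣ m - n <;> simp [ha, hb]
      ring
    rw [e1]
    split_ifs with h
    · subst h
      have := sum_exp_progression_le hn (hQ q hq).pos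
        (S.filter (fun m => (q : ℤ) ∣ m - n ∧ (q : ℤ) ∣ m - n)) (fun m hm => by
          rw [mem_filter] at hm
          exact ⟨(hS m hm.1).1, (hS m hm.1).2, hm.2.1⟩)
      calc _ ≤ (q : ℝ) * q * (8 * n / q) := by gcongr
        _ = 8 * n * q := by field_simp
        _ ≤ _ := by gcongr; linarith
    · have := sum_exp_progression_le hn (D := q * q') (Nat.mul_pos (hQ q hq).pos (hQ q' hq').pos)
        (S.filter (fun m => (q : ℤ) ∣ m - n ∧ (q' : ℤ) ∣ m - n)) (fun m hm => by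
          rw [mem_filter] at hm
          refine ⟨(hS m hm.1).1, (hS m hm.1).2, ?_⟩
          push_cast
          exact IsCoprime.mul_dvd (Nat.isCoprime_iff_coprime.2
            ((Nat.coprime_primes (hQ q hq) (hQ q' hq')).2 h)) hm.2.1 hm.2.2)
      push_cast at this
      calc _ ≤ (q : ℝ) * q' * (8 * n / (q * q')) := by gcongr
        _ = _ := by field_simp; ring
  have h4 : ∑ m ∈ S, w m * (∑ q ∈ Q, d q m) ^ 2 ≤
      8 * n * (∑ q ∈ Q, (q : ℝ) + (Q.card : ℝ) ^ 2) := by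
    simp_rw [sq, sum_mul_sum, mul_sum]
    rw [sum_comm]
    simp_rw [sum_comm (s := S)]
    refine (sum_le_sum fun q hq => sum_le_sum fun q' hq' => h3 q hq q' hq').trans (le_of_eq ?_)
    simp_rw [← mul_sum, sum_add_distrib]
    congr 2
    · exact sum_congr rfl fun q hq => by rw [sum_ite_eq]; simp [hq]
    · simp
  have h5 : (Q.card : ℝ) ^ 2 ≤ 2 * ∑ q ∈ Q, (q : ℝ) := by
    rw [← Nat.cast_sum]
    exact_mod_cast card_sq_le_two_mul_sum Q (fun h => Nat.not_prime_zero (hQ 0 h))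
  calc ∑ m ∈ S, w m * ramSum Q (m - n) ^ 2
      ≤ ∑ m ∈ S, w m * ((∑ q ∈ Q, d q m) ^ 2 + (Q.card : ℝ) ^ 2) :=
        sum_le_sum fun m _ => mul_le_mul_of_nonneg_left (h1 m) (hw m)
    _ = ∑ m ∈ S, w m * (∑ q ∈ Q, d q m) ^ 2 + (∑ m ∈ S, w m) * (Q.card : ℝ) ^ 2 := by
        simp_rw [mul_add]; rw [sum_add_distrib, sum_mul]
    _ ≤ 8 * n * (∑ q ∈ Q, (q : ℝ) + (Q.card : ℝ) ^ 2) + 8 * n * (Q.card : ℝ) ^ 2 := by gcongr
    _ ≤ _ := by nlinarith

theorem sum_Ico_one_ee {q : ℕ} (hq : q ≠ 0) (h : ℤ) :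
    ∑ a ∈ Ico (1 : ℤ) q, ee ((a * h : ℤ) / q) =
      (((if (q : ℤ) ∣ h then (q : ℝ) else 0) - 1 : ℝ) : ℂ) := by
  have h1 := sum_ee_orth hq h
  rw [← sum_erase_add _ _ (a := 0) (by simp [Nat.pos_of_ne_zero hq])] at h1
  have h2 : (Ico (0 : ℤ) q).erase 0 = Ico 1 (q : ℤ) := by
    ext x; simp only [mem_erase, mem_Ico]; omega
  rw [h2] at h1
  simp only [mul_zero, Int.cast_zero, zero_div, ee_zero] at h1
  simp_rw [mul_comm _ h]
  rw [eq_sub_of_add_eq h1]
  split_ifs <;> simp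

theorem jutila : ∃ C : ℝ, 0 < C ∧ ∀ (e : ℕ) (ψ : (Fin 4 → ℤ) → ℂ) (n : ℤ) (Q : Finset ℕ) (T : ℝ),
    e ≠ 0 → Per e ψ → (∀ v, ‖ψ v‖ ≤ 1) → Cusp e ψ → 0 < n → Q.Nonempty →
    (∀ q ∈ Q, q.Prime ∧ q ≠ 2 ∧ ¬ q ∣ e ∧ ¬ (q : ℤ) ∣ n ∧ (q : ℝ) ≤ T) →
    ‖coef ψ n‖ ≤ C * e ^ 8 * (T ^ (7 / 4 : ℝ) + n * √n / Q.card) := by
  obtain ⟨C1, hC1, h1⟩ := theta_prime_bound
  obtain ⟨C2, hC2, h2⟩ := coef_l2_bound
  refine ⟨Real.exp (2 * π) * (2 * C1 + 36 * C2), by positivity,
    fun e ψ n Q T he hψ hb hc hn hne hQ => ?_⟩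
  have hnr : (0 : ℝ) < n := by exact_mod_cast hn
  have hn1 : (1 : ℝ) ≤ n := by exact_mod_cast hn
  have he1 : (1 : ℝ) ≤ e := by exact_mod_cast Nat.pos_of_ne_zero he
  set y : ℝ := 1 / n
  have hy : 0 < y := by positivity
  set Sg : ℝ := ∑ q ∈ Q, (q : ℝ)
  set P : ℝ := (Q.card : ℝ)
  have hP : 0 < P := by simp only [P]; exact_mod_cast hne.card_pos
  have hPS : P ^ 2 ≤ 2 * Sg := by
    simp only [P, Sg]
    rw [← Nat.cast_sum]
    exact_mod_cast card_sq_le_two_mul_sum Q (fun h => Nat.not_prime_zero (hQ 0 h).1)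
  have hSg : 0 < Sg := by nlinarith
  have hL : Sg / 2 ≤ ramSum Q 0 := by
    unfold ramSum
    simp only [dvd_zero, if_true, Sg]
    rw [sum_div]
    refine sum_le_sum fun q hq => ?_
    have : (2 : ℝ) ≤ q := by exact_mod_cast (hQ q hq).1.two_le
    linarith
  have hsy : Summable (fun v : Fin 4 → ℤ => ‖ee (y * I * nsq v)‖) :=
    summable_norm_ee_nsq (τ := y * I) (by simpa using hy)
  have hsq : ∀ q ∈ Q, Summable (fun v : Fin 4 → ℤ =>
      (ψ v * ∑ a ∈ Ico (1 : ℤ) q, ee ((a * (nsq v - n) : ℤ) / q)) * ee ((y * I) * nsq v)) := by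
    intro q _
    refine Summable.of_norm_bounded (hsy.mul_left ((Ico (1 : ℤ) q).card : ℝ)) fun v => ?_
    rw [norm_mul, norm_mul]
    refine mul_le_mul_of_nonneg_right ?_ (norm_nonneg _)
    refine (mul_le_of_le_one_left (norm_nonneg _) (hb v)).trans ((norm_sum_le _ _).trans ?_)
    simp_rw [norm_ee_div]; simp
  set g : ℤ → ℂ := fun m => (ramSum Q (m - n) : ℂ) * ee (y * I * m)
  have e1 : ∀ v : Fin 4 → ℤ, ψ v * g (nsq v) = ∑ q ∈ Q,
      (ψ v * ∑ a ∈ Ico (1 : ℤ) q, ee ((a * (nsq v - n) : ℤ) / q)) * ee ((y * I) * nsq v) := by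
    intro v
    simp only [g, ramSum]
    rw [Complex.ofReal_sum, sum_mul, mul_sum]
    refine sum_congr rfl fun q hq => ?_
    rw [sum_Ico_one_ee (hQ q hq).1.ne_zero, mul_assoc (ψ v)]
  have hs : Summable (fun v => ψ v * g (nsq v)) := by
    simp_rw [e1]; exact summable_sum hsq
  have hT : ‖∑' v, ψ v * g (nsq v)‖ ≤ C1 * e ^ 4 * T ^ (7 / 4 : ℝ) * Sg := by
    simp_rw [e1]
    rw [Summable.tsum_finsetSum hsq]
    refine (norm_sum_le _ _).trans ?_
    simp only [Sg]
    rw [mul_sum]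
    refine sum_le_sum fun q hq => ?_
    obtain ⟨q1, q2, q3, q4, q5⟩ := hQ q hq
    refine (h1 e q ψ n y he hψ hb hc hy q1 q2 q3 q4).trans ?_
    have hq0 : (0 : ℝ) < q := by exact_mod_cast q1.pos
    have h3 : (q : ℝ) * (q : ℝ) ^ (3 / 4 : ℝ) = (q : ℝ) ^ (7 / 4 : ℝ) := by
      rw [show (7 / 4 : ℝ) = 1 + 3 / 4 by norm_num, Real.rpow_add hq0, Real.rpow_one]
    have h4 : (q : ℝ) ^ (7 / 4 : ℝ) ≤ T ^ (7 / 4 : ℝ) := by gcongr
    calc C1 * e ^ 4 * q ^ 2 * (q : ℝ) ^ (3 / 4 : ℝ)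
        = C1 * e ^ 4 * ((q : ℝ) * (q : ℝ) ^ (3 / 4 : ℝ)) * q := by ring
      _ ≤ _ := by rw [h3]; gcongr
  have hsum := hasSum_ite_sub_hasSum (hasSum_coef ψ g hs) n
  set B : ℝ := C2 * e ^ 8 / (y / 2)
  have hB0 : 0 ≤ B := by positivity
  have hE : ‖∑' v, ψ v * g (nsq v) - coef ψ n * g n‖ ≤ B * √(40 * n * Sg) := by
    refine le_of_tendsto' hsum.norm fun S => ?_
    refine (norm_sum_le _ _).trans ?_
    set S' := S.filter (fun m => 0 ≤ m ∧ m ≠ n)
    have e2 : ∑ m ∈ S, ‖if m = n then 0 else coef ψ m * g m‖ =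
        ∑ m ∈ S', (‖coef ψ m‖ * Real.exp (-(2 * π * (y / 2) * m))) *
          (Real.exp (-(2 * π * (y / 2) * m)) * |ramSum Q (m - n)|) := by
      rw [sum_filter]
      refine sum_congr rfl fun m _ => ?_
      by_cases hm : m = n
      · simp [hm]
      · by_cases hm0 : 0 ≤ m
        · rw [if_neg hm, if_pos ⟨hm0, hm⟩]
          simp only [g]
          rw [norm_mul, norm_mul, norm_ee, Complex.norm_real, Real.norm_eq_abs]
          have : Real.exp (-(2 * π * ((y : ℂ) * I * m).im)) =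
              Real.exp (-(2 * π * (y / 2) * m)) * Real.exp (-(2 * π * (y / 2) * m)) := by
            rw [← Real.exp_add]; congr 1; simp; ring
          rw [this]; ring
        · rw [if_neg hm, if_neg (fun h => hm0 h.1), coef_neg ψ (by omega)]; simp
    rw [e2]
    refine (Real.sum_mul_le_sqrt_mul_sqrt _ _ _).trans ?_
    have hy1 : y / 2 ≤ 1 := by
      have : y ≤ 1 := by simp only [y]; rw [div_le_one hnr]; exact hn1
      linarith
    have a1 := h2 e ψ (y / 2) he hψ hb hc (by positivity) hy1 S'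
    have a2 := ramSum_l2 hn Q (fun q hq => (hQ q hq).1) S' (fun m hm => (mem_filter.1 hm).2)
    refine mul_le_mul ?_ (Real.sqrt_le_sqrt (le_trans (le_of_eq ?_) a2)) (Real.sqrt_nonneg _) hB0
    · exact Real.sqrt_le_iff.2 ⟨hB0, a1⟩
    · refine sum_congr rfl fun m _ => ?_
      rw [mul_pow, sq_abs, sq, ← Real.exp_add]
      congr 2; simp only [y]; ring
  have hmain : ‖coef ψ n * g n‖ = ‖coef ψ n‖ * (ramSum Q 0 * Real.exp (-(2 * π))) := by
    simp only [g]
    rw [norm_mul, norm_mul, norm_ee, sub_self, Complex.norm_real,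
      Real.norm_of_nonneg (by linarith)]
    congr 3
    simp [y]; field_simp
  have h3 : ‖coef ψ n * g n‖ ≤ C1 * e ^ 4 * T ^ (7 / 4 : ℝ) * Sg + B * √(40 * n * Sg) := by
    have := norm_sub_le (∑' v, ψ v * g (nsq v)) (∑' v, ψ v * g (nsq v) - coef ψ n * g n)
    rw [sub_sub_cancel] at this
    linarith
  have hT0 : 0 ≤ T := by
    obtain ⟨q, hq⟩ := hne
    exact le_trans (by positivity) (hQ q hq).2.2.2.2
  have h4 : √(40 * n * Sg) ≤ 9 * √n / P * Sg := by
    rw [Real.sqrt_le_iff]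
    refine ⟨by positivity, ?_⟩
    rw [mul_pow, div_pow, mul_pow, Real.sq_sqrt hnr.le, div_mul_eq_mul_div, le_div_iff₀ (by positivity)]
    have : 0 < n * Sg := by positivity
    nlinarith
  have hBe : B = 2 * C2 * e ^ 8 * n := by simp only [B, y]; field_simp
  have he8 : (e : ℝ) ^ 4 ≤ e ^ 8 := pow_le_pow_right₀ he1 (by norm_num)
  have h5 : ‖coef ψ n‖ * (Sg / 2 * Real.exp (-(2 * π))) ≤
      (C1 * e ^ 8 * T ^ (7 / 4 : ℝ) + 18 * C2 * e ^ 8 * (n * √n / P)) * Sg := by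
    calc _ ≤ ‖coef ψ n‖ * (ramSum Q 0 * Real.exp (-(2 * π))) := by gcongr
      _ ≤ C1 * e ^ 4 * T ^ (7 / 4 : ℝ) * Sg + B * √(40 * n * Sg) := by rw [← hmain]; exact h3
      _ ≤ C1 * e ^ 8 * T ^ (7 / 4 : ℝ) * Sg + B * (9 * √n / P * Sg) := by gcongr
      _ = _ := by rw [hBe]; ring
  have h6 : ‖coef ψ n‖ ≤ Real.exp (2 * π) *
      (2 * (C1 * e ^ 8 * T ^ (7 / 4 : ℝ) + 18 * C2 * e ^ 8 * (n * √n / P))) := by
    rw [Real.exp_neg] at h5
    have hx := Real.exp_pos (2 * π)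
    have : ‖coef ψ n‖ = ‖coef ψ n‖ * (Sg / 2 * (Real.exp (2 * π))⁻¹) *
        (2 * Real.exp (2 * π) / Sg) := by field_simp
    rw [this]
    calc _ ≤ (C1 * e ^ 8 * T ^ (7 / 4 : ℝ) + 18 * C2 * e ^ 8 * (n * √n / P)) * Sg *
          (2 * Real.exp (2 * π) / Sg) := by gcongr
      _ = _ := by field_simp
  refine h6.trans ?_
  rw [mul_assoc (Real.exp (2 * π)), mul_assoc (Real.exp (2 * π))]
  refine mul_le_mul_of_nonneg_left ?_ (Real.exp_pos _).le
  have b1 : 0 ≤ T ^ (7 / 4 : ℝ) := by positivity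
  have b2 : 0 ≤ n * √n / P := by positivity
  have b3 : (0 : ℝ) ≤ e ^ 8 := by positivity
  nlinarith [mul_nonneg (mul_nonneg hC1.le b3) b2, mul_nonneg (mul_nonneg hC2.le b3) b1]

end Pool.Agent.Lib.H9
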