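import Mathlib
import Pool.Agent.Lib.helper9.Jutila

/-! Power saving bound for the coefficients of cuspidal theta series, the primitive version, and
a local criterion for cuspidality. -/

namespace Pool.Agent.Lib.H9

open Finset Complex Real

theorem two_pow_card_primeFactors_le {m : ℕ} (hm : m ≠ 0) : 2 ^ m.primeFactors.card ≤ m :=
  (pow_card_le_prod _ (fun p => p) 2 fun _ hp => (Nat.prime_of_mem_primeFactors hp).two_le).trans
    (Nat.le_of_dvd (Nat.pos_of_ne_zero hm) (Nat.prod_primeFactors_dvd m))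

theorem card_sphere_le {n : ℤ} (hn : 0 < n) : ((sphere n).card : ℝ) ≤ 81 * n ^ 4 := by
  have h1 : (sphere n).card ≤ (Fintype.piFinset (fun _ : Fin 4 => Icc (-n) n)).card :=
    card_filter_le _ _
  rw [Fintype.card_piFinset, prod_const, card_univ, Fintype.card_fin, Int.card_Icc] at h1
  have h2 : (((n + 1 - -n).toNat : ℕ) : ℤ) = 2 * n + 1 := by
    rw [Int.toNat_of_nonneg (by omega)]; ring
  have h3 : (((n + 1 - -n).toNat : ℕ) : ℝ) = 2 * n + 1 := by exact_mod_cast h2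
  have h4 : ((sphere n).card : ℝ) ≤ (((n + 1 - -n).toNat : ℕ) : ℝ) ^ 4 := by exact_mod_cast h1
  rw [h3] at h4
  have hn1 : (1 : ℝ) ≤ n := by exact_mod_cast hn
  calc _ ≤ (2 * (n : ℝ) + 1) ^ 4 := h4
    _ ≤ (3 * (n : ℝ)) ^ 4 := by gcongr; linarith
    _ = _ := by ring

theorem norm_coef_le_trivial {ψ : (Fin 4 → ℤ) → ℂ} (hb : ∀ v, ‖ψ v‖ ≤ 1) {n : ℤ} (hn : 0 < n) :
    ‖coef ψ n‖ ≤ 81 * n ^ 4 := by
  refine (norm_sum_le _ _).trans (le_trans ?_ (card_sphere_le hn))
  have := sum_le_card_nsmul (sphere n) (fun v => ‖ψ v‖) 1 (fun v _ => hb v)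
  simpa using this

theorem many_primes {u : ℝ} (hu : 1000 ≤ u) {m : ℕ} (hm0 : m ≠ 0) (hm : (m : ℝ) ≤ 2 * u ^ 160) :
    u ^ 42 + m.primeFactors.card ≤ (Nat.primesLE ⌊u ^ 44⌋₊).card := by
  rw [Nat.primesLE_card_eq_primeCounting]
  have hu1 : 1 < u := by linarith
  have hx : 1 < u ^ 44 := one_lt_pow₀ hu1 (by norm_num)
  refine le_trans ?_ (Chebyshev.pi_ge' hx)
  have hlu : Real.log u ≤ u := (Real.log_le_sub_one_of_pos (by linarith)).trans (by linarith)
  have hlu0 : 0 < Real.log u := Real.log_pos hu1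
  have hl2 : 1 / 2 ≤ Real.log 2 := by have := Real.log_two_gt_d9; linarith
  have hl2' : Real.log 2 ≤ 1 := by have := Real.log_two_lt_d9; linarith
  have h1 : (m.primeFactors.card : ℝ) ≤ u ^ 2 := by
    have h2 : (2 : ℝ) ^ m.primeFactors.card ≤ 2 * u ^ 160 :=
      le_trans (by exact_mod_cast two_pow_card_primeFactors_le hm0) hm
    have h3 := Real.log_le_log (by positivity) h2
    rw [Real.log_pow, Real.log_mul (by norm_num) (by positivity), Real.log_pow] at h3
    push_cast at h3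
    have h4 : (0 : ℝ) ≤ m.primeFactors.card := by positivity
    nlinarith
  have h5 : Real.log (u ^ 44 + 2) ≤ 45 * u := by
    have : u ^ 44 + 2 ≤ u ^ 45 := by rw [pow_succ u 44]; nlinarith
    calc _ ≤ Real.log (u ^ 45) := Real.log_le_log (by positivity) this
      _ = 45 * Real.log u := by rw [Real.log_pow]; norm_num
      _ ≤ _ := by linarith
  rw [le_div_iff₀ (Real.log_pos hx), Real.log_pow]
  push_cast
  have h6 : u ^ 2 ≤ u ^ 42 := pow_le_pow_right₀ hu1.le (by norm_num)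
  have h7 : u ≤ u ^ 43 := by simpa using pow_le_pow_right₀ hu1.le (show 1 ≤ 43 by norm_num)
  have h8 : (u ^ 42 + m.primeFactors.card) * (44 * Real.log u) ≤ 88 * u ^ 43 := by
    calc _ ≤ (u ^ 42 + u ^ 42) * (44 * u) := by gcongr; linarith
      _ = _ := by ring
  have h9 : 1000 * u ^ 43 ≤ u ^ 44 := by rw [pow_succ u 43]; nlinarith [pow_pos (by linarith : 0 < u) 43]
  nlinarith

theorem coef_power_saving : ∃ C : ℝ, 0 < C ∧ ∀ (e : ℕ) (ψ : (Fin 4 → ℤ) → ℂ) (n : ℤ),
    e ≠ 0 → Per e ψ → (∀ v, ‖ψ v‖ ≤ 1) → Cusp e ψ → 0 < n →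
    ‖coef ψ n‖ ≤ C * e ^ 8 * (n : ℝ) ^ (39 / 40 : ℝ) := by
  obtain ⟨C, hC, h⟩ := jutila
  refine ⟨2 * C + 81 * (1000 ^ 80) ^ 4, by positivity, fun e ψ n he hψ hb hc hn => ?_⟩
  have hnr : (0 : ℝ) < n := by exact_mod_cast hn
  have hn1 : (1 : ℝ) ≤ n := by exact_mod_cast hn
  have he1 : (1 : ℝ) ≤ e := by exact_mod_cast Nat.pos_of_ne_zero he
  have hr1 : 1 ≤ (n : ℝ) ^ (39 / 40 : ℝ) := Real.one_le_rpow hn1 (by norm_num)
  have he8 : (1 : ℝ) ≤ e ^ 8 := one_le_pow₀ he1
  have htriv := norm_coef_le_trivial hb hn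
  have hK : (1 : ℝ) ≤ (1000 ^ 80) ^ 4 := one_le_pow₀ (one_le_pow₀ (by norm_num))
  generalize hKK : ((1000 : ℝ) ^ 80) = K at *
  by_cases h1 : (n : ℝ) ≤ e
  · calc _ ≤ 81 * (n : ℝ) ^ 4 := htriv
      _ ≤ 81 * (e : ℝ) ^ 4 := by gcongr
      _ ≤ 81 * (e : ℝ) ^ 8 := by gcongr; norm_num
      _ = (0 + 81 * 1) * e ^ 8 * 1 := by ring
      _ ≤ _ := by gcongr; positivity
  by_cases h2 : (n : ℝ) ≤ K
  · calc _ ≤ 81 * (n : ℝ) ^ 4 := htriv
      _ ≤ 81 * K ^ 4 := by gcongr
      _ = (0 + 81 * K ^ 4) * 1 * 1 := by ring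
      _ ≤ _ := by gcongr; positivity
  push Not at h1 h2
  set u : ℝ := (n : ℝ) ^ (1 / 80 : ℝ)
  have hu0 : 0 < u := by positivity
  have hpow : ∀ k : ℕ, u ^ k = (n : ℝ) ^ ((k : ℝ) / 80) := by
    intro k
    rw [← Real.rpow_natCast, ← Real.rpow_mul hnr.le]; congr 1; ring
  have hn80 : u ^ 80 = n := by rw [hpow]; norm_num
  have hu : 1000 ≤ u := by
    refine le_of_pow_le_pow_left₀ (n := 80) (by norm_num) hu0.le ?_
    rw [hn80, hKK]; exact h2.le
  have hu1 : 1 ≤ u := by linarith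
  set m : ℕ := 2 * e * n.toNat
  have hnt : ((n.toNat : ℕ) : ℤ) = n := Int.toNat_of_nonneg hn.le
  have hntr : ((n.toNat : ℕ) : ℝ) = n := by exact_mod_cast hnt
  have hm0 : m ≠ 0 := by
    have : n.toNat ≠ 0 := by omega
    positivity
  have hm : (m : ℝ) ≤ 2 * u ^ 160 := by
    rw [show u ^ 160 = (u ^ 80) ^ 2 by ring, hn80]
    simp only [m]; push_cast; rw [hntr]; nlinarith
  have hP := many_primes hu hm0 hm
  set Q := Nat.primesLE ⌊u ^ 44⌋₊ \ m.primeFactors
  have hQc : u ^ 42 ≤ Q.card := by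
    have := le_card_sdiff m.primeFactors (Nat.primesLE ⌊u ^ 44⌋₊)
    have h3 : (Nat.primesLE ⌊u ^ 44⌋₊).card ≤ Q.card + m.primeFactors.card := by
      simp only [Q]; omega
    have h4 : ((Nat.primesLE ⌊u ^ 44⌋₊).card : ℝ) ≤ Q.card + m.primeFactors.card := by
      exact_mod_cast h3
    linarith
  have hQpos : (0 : ℝ) < Q.card := lt_of_lt_of_le (by positivity) hQc
  have h5 := h e ψ n Q (u ^ 44) he hψ hb hc hn (card_pos.1 (by exact_mod_cast hQpos)) (by
    intro q hq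
    rw [mem_sdiff, Nat.mem_primesLE, Nat.mem_primeFactors] at hq
    have hq1 : ¬ q ∣ m := fun h => hq.2 ⟨hq.1.2, h, hm0⟩
    refine ⟨hq.1.2, ?_, ?_, ?_, ?_⟩
    · rintro rfl; exact hq1 (Dvd.intro (e * n.toNat) (by simp only [m]; ring))
    · intro h; exact hq1 ((h.mul_left 2).mul_right _)
    · intro h; rw [← hnt] at h; exact hq1 (Dvd.dvd.mul_left (by exact_mod_cast h) _)
    · exact (Nat.cast_le.2 hq.1.1).trans (Nat.floor_le (by positivity)))
  have h6 : (u ^ 44) ^ (7 / 4 : ℝ) = u ^ 77 := by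
    rw [← Real.rpow_natCast, ← Real.rpow_mul hu0.le, ← Real.rpow_natCast]; norm_num
  have h7 : √(n : ℝ) = u ^ 40 := by
    rw [← hn80, show u ^ 80 = (u ^ 40) ^ 2 by ring, Real.sqrt_sq (by positivity)]
  have h8 : (n : ℝ) ^ (39 / 40 : ℝ) = u ^ 78 := by rw [hpow]; norm_num
  have h9 : (n : ℝ) * √n / Q.card ≤ u ^ 78 := by
    rw [h7, ← hn80, div_le_iff₀ hQpos]
    calc u ^ 80 * u ^ 40 = u ^ 78 * u ^ 42 := by ring
      _ ≤ _ := by gcongr
  have h10 : u ^ 77 ≤ u ^ 78 := pow_le_pow_right₀ hu1 (by norm_num)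
  rw [h6] at h5
  rw [h8]
  calc _ ≤ _ := h5
    _ ≤ C * e ^ 8 * (u ^ 78 + u ^ 78) := by gcongr
    _ = (2 * C + 0) * e ^ 8 * u ^ 78 := by ring
    _ ≤ _ := by gcongr; positivity

/-- The content of an integer vector. -/
def cont (v : Fin 4 → ℤ) : ℕ := univ.gcd (fun j => (v j).natAbs)

theorem dvd_cont {k : ℕ} {v : Fin 4 → ℤ} : k ∣ cont v ↔ ∀ j, (k : ℤ) ∣ v j := by
  simp [cont, Finset.dvd_gcd_iff, Int.natCast_dvd]

theorem sq_dvd_nsq {k : ℤ} {v : Fin 4 → ℤ} (h : ∀ j, k ∣ v j) : k ^ 2 ∣ nsq v :=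
  dvd_sum fun j _ => pow_dvd_pow_of_dvd (h j) 2

/-- The primitive points on a sphere. -/
noncomputable def psphere (n : ℤ) : Finset (Fin 4 → ℤ) := (sphere n).filter (fun v => cont v = 1)

theorem nsq_smul (k : ℤ) (u : Fin 4 → ℤ) : nsq (fun j => k * u j) = k ^ 2 * nsq u := by
  unfold nsq; rw [mul_sum]; exact sum_congr rfl fun j _ => by ring

theorem pcoef_power_saving : ∃ C : ℝ, 0 < C ∧ ∀ (e : ℕ) (ψ : (Fin 4 → ℤ) → ℂ) (n : ℤ),
    e ≠ 0 → Per e ψ → (∀ v, ‖ψ v‖ ≤ 1) → (∀ k : ℤ, Cusp e (fun u => ψ (fun j => k * u j))) →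
    0 < n → ‖∑ v ∈ psphere n, ψ v‖ ≤ C * e ^ 8 * (n : ℝ) ^ (39 / 40 : ℝ) := by
  obtain ⟨C, hC, h⟩ := coef_power_saving
  have hZ : Summable (fun k : ℕ => 1 / (k : ℝ) ^ (39 / 20 : ℝ)) :=
    Real.summable_one_div_nat_rpow.2 (by norm_num)
  set Z := ∑' k : ℕ, 1 / (k : ℝ) ^ (39 / 20 : ℝ)
  have hZ0 : 0 ≤ Z := tsum_nonneg fun _ => by positivity
  refine ⟨C * (Z + 1), by positivity, fun e ψ n he hψ hb hc hn => ?_⟩
  have hnr : (0 : ℝ) < n := by exact_mod_cast hn
  have e1 : ∑ v ∈ psphere n, ψ v = ∑ k ∈ Icc 1 n.toNat, (ArithmeticFunction.moebius k : ℂ) *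
      ∑ v ∈ (sphere n).filter (fun v => k ∣ cont v), ψ v := by
    unfold psphere
    simp_rw [sum_filter, mul_sum]
    rw [sum_comm]
    refine sum_congr rfl fun v hv => ?_
    have hv' := mem_sphere.1 hv
    have h1 : ((cont v : ℤ)) ^ 2 ∣ n := hv' ▸ sq_dvd_nsq (dvd_cont.1 dvd_rfl)
    have h2 : cont v ≠ 0 := by
      intro h0; rw [h0] at h1; simp at h1; omega
    have h3 : (cont v : ℤ) ≤ n := by
      have := Int.le_of_dvd hn h1
      nlinarith
    have h4 := congrArg (fun f => f (cont v)) (ArithmeticFunction.coe_moebius_mul_coe_zeta (R := ℂ))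
    simp only [ArithmeticFunction.coe_mul_zeta_apply, ArithmeticFunction.one_apply,
      ArithmeticFunction.intCoe_apply] at h4
    have h5 : (cont v).divisors = (Icc 1 n.toNat).filter (fun k => k ∣ cont v) := by
      ext k
      simp only [Nat.mem_divisors, mem_filter, mem_Icc]
      constructor
      · rintro ⟨hk, _⟩
        have := Nat.le_of_dvd (Nat.pos_of_ne_zero h2) hk
        exact ⟨⟨Nat.pos_of_dvd_of_pos hk (Nat.pos_of_ne_zero h2), by omega⟩, hk⟩
      · exact fun hk => ⟨hk.2, h2⟩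
    rw [h5, sum_filter] at h4
    calc (if cont v = 1 then ψ v else 0) = (if cont v = 1 then 1 else 0) * ψ v := by simp
      _ = _ := by
        rw [← h4, sum_mul]
        refine sum_congr rfl fun k _ => ?_
        split_ifs <;> simp
  have e2 : ∀ k ∈ Icc 1 n.toNat, ‖(ArithmeticFunction.moebius k : ℂ) *
      ∑ v ∈ (sphere n).filter (fun v => k ∣ cont v), ψ v‖ ≤
      C * e ^ 8 * (n : ℝ) ^ (39 / 40 : ℝ) * (1 / (k : ℝ) ^ (39 / 20 : ℝ)) := by
    intro k hk
    have hk0 : 0 < k := (mem_Icc.1 hk).1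
    have hkz : (0 : ℤ) < k := by exact_mod_cast hk0
    have hkr : (0 : ℝ) < k := by exact_mod_cast hk0
    rw [norm_mul]
    have hμ : ‖(ArithmeticFunction.moebius k : ℂ)‖ ≤ 1 := by
      rw [Complex.norm_intCast]
      exact_mod_cast ArithmeticFunction.abs_moebius_le_one
    refine (mul_le_of_le_one_left (norm_nonneg _) hμ).trans ?_
    by_cases hd : (k : ℤ) ^ 2 ∣ n
    · obtain ⟨m, hm⟩ := hd
      have hm0 : 0 < m := by
        by_contra h0
        have : (k : ℤ) ^ 2 * m ≤ 0 := mul_nonpos_of_nonneg_of_nonpos (by positivity) (by omega)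
        omega
      have e3 : ∑ v ∈ (sphere n).filter (fun v => k ∣ cont v), ψ v =
          coef (fun u => ψ (fun j => k * u j)) m := by
        unfold coef
        symm
        refine sum_bij (fun u _ j => k * u j) ?_ ?_ ?_ ?_
        · intro u hu
          rw [mem_filter, mem_sphere, nsq_smul, mem_sphere.1 hu, dvd_cont]
          exact ⟨hm.symm, fun j => Dvd.intro _ rfl⟩
        · intro u _ w _ huw
          funext j
          exact mul_left_cancel₀ hkz.ne' (congrFun huw j)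
        · intro v hv
          rw [mem_filter, mem_sphere, dvd_cont] at hv
          choose u hu using hv.2
          have : v = fun j => k * u j := funext hu
          refine ⟨u, ?_, this.symm⟩
          rw [mem_sphere]
          have h7 := hv.1
          rw [this, nsq_smul, hm] at h7
          exact mul_left_cancel₀ (by positivity) h7
        · intro _ _; rfl
      rw [e3]
      refine (h e _ m he (fun v w hvw => hψ _ _ fun j => ?_) (fun _ => hb _) (hc k) hm0).trans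
        (le_of_eq ?_)
      · rw [← mul_sub]; exact (hvw j).mul_left _
      · have hmr : (0 : ℝ) < m := by exact_mod_cast hm0
        rw [hm]
        push_cast
        rw [Real.mul_rpow (by positivity) hmr.le, ← Real.rpow_natCast (k : ℝ) 2,
          ← Real.rpow_mul hkr.le]
        norm_num
        field_simp
    · rw [sum_eq_zero, norm_zero]
      · positivity
      · intro v hv
        rw [mem_filter, mem_sphere, dvd_cont] at hv
        exact absurd (hv.1 ▸ sq_dvd_nsq hv.2) hd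
  rw [e1]
  refine (norm_sum_le _ _).trans ((sum_le_sum e2).trans ?_)
  rw [← mul_sum]
  have := hZ.sum_le_tsum (Icc 1 n.toNat) (fun _ _ => by positivity)
  calc _ ≤ C * e ^ 8 * (n : ℝ) ^ (39 / 40 : ℝ) * (Z + 1) := by gcongr; linarith
    _ = _ := by ring

/-- Local cuspidality. -/
def LocCusp (l : ℕ) [NeZero l] (f : (Fin 4 → ZMod l) → ℂ) : Prop :=
  f 0 = 0 ∧ ∀ h : ZMod l → ℂ, ∑ w, f w * h (∑ j, w j ^ 2) = 0

theorem LocCusp.smul {l : ℕ} [Fact l.Prime] {f : (Fin 4 → ZMod l) → ℂ} (hf : LocCusp l f)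
    (c : ZMod l) : LocCusp l (fun w => f (fun j => c * w j)) := by
  by_cases hc : c = 0
  · have : (fun w : Fin 4 → ZMod l => f (fun j => c * w j)) = fun _ => 0 := by
      funext w; rw [← hf.1]; congr 1; funext j; simp [hc]
    rw [this]; exact ⟨rfl, fun h => by simp⟩
  · refine ⟨?_, fun h => ?_⟩
    · rw [← hf.1]; simp only; congr 1; funext j; simp
    · rw [← hf.2 (fun s => h (c⁻¹ ^ 2 * s))]
      refine Fintype.sum_equiv (Equiv.piCongrRight fun _ => Equiv.mulLeft₀ c hc) _ _ fun w => ?_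
      simp only [Equiv.piCongrRight_apply, Pi.map_apply, Equiv.mulLeft₀_apply]
      congr 2
      rw [mul_sum]
      exact sum_congr rfl fun j _ => by field_simp

theorem sum_res_eq_sum_zmod {l : ℕ} [NeZero l] (G : (Fin 4 → ZMod l) → ℂ) :
    ∑ u ∈ res l, G (fun j => u j) = ∑ w, G w := by
  refine sum_nbij' (fun u j => (u j : ZMod l)) (fun w j => ((w j).val : ℤ)) ?_ ?_ ?_ ?_ ?_
  · intro _ _; simp
  · intro w _
    rw [mem_res]
    exact fun j => ⟨by positivity, by exact_mod_cast (w j).val_lt⟩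
  · intro u hu
    funext j
    rw [ZMod.val_intCast, Int.emod_eq_of_lt (mem_res.1 hu j).1 (mem_res.1 hu j).2]
  · intro w _; funext j; simp
  · intro _ _; rfl

theorem sum_res_eq_zero_of_avg {M l : ℕ} (hM : M ≠ 0) (hl : l ≠ 0) {F : (Fin 4 → ℤ) → ℂ}
    (hF : Per M F) (c : ℤ) (h : ∀ v, ∑ u ∈ res l, F (v + fun j => c * u j) = 0) :
    ∑ v ∈ res M, F v = 0 := by
  have h1 : ∑ u ∈ res l, ∑ v ∈ res M, F (v + fun j => c * u j) = 0 := by
    rw [sum_comm]; exact sum_eq_zero fun v _ => h v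
  simp_rw [sum_res_shift hM hF] at h1
  rw [sum_const, card_res, nsmul_eq_mul] at h1
  exact (mul_eq_zero.1 h1).resolve_left (by exact_mod_cast pow_ne_zero 4 hl)

theorem nsq_add_smul (v u : Fin 4 → ℤ) (c : ℤ) :
    nsq (v + fun j => c * u j) = nsq v + 2 * c * dot v u + c ^ 2 * nsq u := by
  unfold nsq dot; simp only [Fin.sum_univ_four, Pi.add_apply]; ring

theorem cusp_of_locCusp {l e : ℕ} [Fact l.Prime] (hl2 : l ≠ 2) (he : e ≠ 0) (hle : ¬ l ∣ e)
    {f : (Fin 4 → ZMod l) → ℂ} (hf : LocCusp l f) {ψ : (Fin 4 → ℤ) → ℂ} (hψ : Per e ψ) :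
    Cusp (l * e) (fun v => f (fun j => v j) * ψ v) := by
  have hlp : l.Prime := Fact.out
  have hl0 : l ≠ 0 := hlp.ne_zero
  have hlz : Prime (l : ℤ) := Nat.prime_iff_prime_int.1 hlp
  intro q a hq ha
  have hq' : (q : ℂ) ≠ 0 := by exact_mod_cast hq
  have hl' : (l : ℂ) ≠ 0 := by exact_mod_cast hl0
  have hper : Per (l * e) (fun v => f (fun j => v j) * ψ v) := by
    intro v w hvw
    simp only
    rw [hψ v w fun j => (Dvd.intro_left _ (by push_cast; rfl)).trans (hvw j)]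
    congr 2
    funext j
    exact ((ZMod.intCast_eq_intCast_iff_dvd_sub _ _ _).2
      ((Dvd.intro _ (by push_cast; rfl)).trans (hvw j))).symm
  have hM : l * e * q ≠ 0 := by positivity
  by_cases hq2 : l ^ 2 ∣ q
  · obtain ⟨q'', hq''⟩ := hq2
    refine sum_res_eq_zero_of_avg hM hl0 (per_twist hq hper a) (l * q'' * e) fun v => ?_
    have hq0 : (q'' : ℂ) ≠ 0 := by
      rintro h; apply hq'; rw [hq'']; push_cast; rw [h]; simp
    have e1 : ∀ u : Fin 4 → ℤ,
        f (fun j => ((v + fun j => (l * q'' * e : ℤ) * u j) j : ℤ)) *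
          ψ (v + fun j => (l * q'' * e : ℤ) * u j) *
          ee ((a * nsq (v + fun j => (l * q'' * e : ℤ) * u j) : ℤ) / q) =
        f (fun j => v j) * ψ v * ee ((a * nsq v : ℤ) / q) *
          ∏ j, ee ((2 * a * e * v j * u j : ℤ) / l) := by
      intro u
      have a1 : (fun j => (((v + fun j => (l * q'' * e : ℤ) * u j) j : ℤ) : ZMod l)) =
          fun j => (v j : ZMod l) := by
        funext j; simp
      rw [a1, hψ (v + fun j => (l * q'' * e : ℤ) * u j) v (fun j => by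
        simp only [Pi.add_apply, add_sub_cancel_left]
        exact Dvd.dvd.mul_right (Dvd.intro_left _ rfl) _), ← ee_sum, mul_assoc _ (ee _), ← ee_add,
        ← mul_one (ee (_ + _)), ← ee_int (a * q'' * e ^ 2 * nsq u), ← ee_add, nsq_add_smul]
      congr 2
      unfold dot
      rw [hq'']
      push_cast
      simp only [Fin.sum_univ_four]
      field_simp
    simp only
    simp_rw [e1]
    rw [← mul_sum, sum_res_prod l (fun j x => ee ((2 * a * e * v j * x : ℤ) / l))]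
    simp_rw [sum_ee_orth hl0]
    by_cases hv : ∀ j, (l : ℤ) ∣ v j
    · have : (fun j => (v j : ZMod l)) = 0 := by
        funext j; exact (ZMod.intCast_zmod_eq_zero_iff_dvd _ _).2 (hv j)
      rw [this, hf.1]; simp
    · push Not at hv
      obtain ⟨j, hj⟩ := hv
      rw [prod_eq_zero (mem_univ j), mul_zero]
      rw [if_neg]
      intro hd
      rcases hlz.dvd_or_dvd hd with h1 | h1
      · rcases hlz.dvd_or_dvd h1 with h2 | h2
        · rcases hlz.dvd_or_dvd h2 with h3 | h3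
          · exact hl2 ((Nat.prime_dvd_prime_iff_eq hlp Nat.prime_two).1 (by exact_mod_cast h3))
          · have h4 : (l : ℤ) ∣ q := by rw [hq'']; push_cast; exact ⟨l * q'', by ring⟩
            exact hlz.not_isUnit (ha.isUnit_of_dvd' h3 h4)
        · exact hle (by exact_mod_cast h2)
      · exact hj h1
  · obtain ⟨q', hq1, hq3⟩ : ∃ q' : ℕ, ¬ l ∣ q' ∧ q ∣ l * q' := by
      by_cases h : l ∣ q
      · obtain ⟨q', rfl⟩ := h
        exact ⟨q', fun h => hq2 (by rw [sq]; exact mul_dvd_mul_left _ h), dvd_rfl⟩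
      · exact ⟨q, h, Dvd.intro_left _ rfl⟩
    obtain ⟨α, β, hαβ⟩ : IsCoprime (l : ℤ) q' :=
      hlz.irreducible.coprime_iff_not_dvd.2 (by exact_mod_cast hq1)
    refine sum_res_eq_zero_of_avg hM hl0 (per_twist hq hper a) (e * q') fun v => ?_
    set H : ZMod l → ℂ := fun s => ee ((a * (α * l * nsq v + β * q' * s.val) : ℤ) / q)
    have hc : ((e * q' : ℕ) : ZMod l) ≠ 0 := by
      rw [Ne, ZMod.natCast_eq_zero_iff]
      exact fun h => (hlp.dvd_mul.1 h).elim hle hq1
    set G : (Fin 4 → ZMod l) → ℂ := fun w => f w * H (∑ j, w j ^ 2)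
    have e1 : ∀ u : Fin 4 → ℤ,
        f (fun j => ((v + fun j => (e * q' : ℤ) * u j) j : ℤ)) *
          ψ (v + fun j => (e * q' : ℤ) * u j) *
          ee ((a * nsq (v + fun j => (e * q' : ℤ) * u j) : ℤ) / q) =
        ψ v * G (fun j => (v j : ZMod l) + ((e * q' : ℕ) : ZMod l) * (u j : ZMod l)) := by
      intro u
      have a1 : (fun j => (((v + fun j => (e * q' : ℤ) * u j) j : ℤ) : ZMod l)) =
          fun j => (v j : ZMod l) + ((e * q' : ℕ) : ZMod l) * (u j : ZMod l) := by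
        funext j; simp
      rw [hψ (v + fun j => (e * q' : ℤ) * u j) v (fun j => by
        simp only [Pi.add_apply, add_sub_cancel_left]
        exact Dvd.dvd.mul_right (Dvd.intro _ rfl) _)]
      rw [← a1]
      simp only [G]
      rw [mul_comm (f _) (ψ v), mul_assoc]
      congr 2
      set N := nsq (v + fun j => (e * q' : ℤ) * u j) with hN
      have a2 : ∑ j, (((v + fun j => (e * q' : ℤ) * u j) j : ℤ) : ZMod l) ^ 2 = (N : ZMod l) := by
        rw [hN]; unfold nsq; push_cast; rfl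
      rw [a2]
      simp only [H]
      refine ee_congr hq ?_
      have a3 : (q' : ℤ) ∣ N - nsq v := by
        rw [hN, nsq_add_smul]
        exact ⟨2 * e * dot v u + e ^ 2 * q' * nsq u, by ring⟩
      have a4 : (l : ℤ) ∣ N - ((N : ZMod l).val : ℤ) := by
        rw [ZMod.val_intCast]; exact Int.dvd_self_sub_emod
      obtain ⟨x, hx⟩ := a3
      obtain ⟨y, hy⟩ := a4
      refine Dvd.dvd.trans (b := (l * q' : ℤ)) (by exact_mod_cast hq3) ⟨a * (α * x + β * y), ?_⟩
      linear_combination (-a * N) * hαβ + a * α * l * hx + a * β * q' * hy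
    simp only
    simp_rw [e1]
    rw [← mul_sum, sum_res_eq_sum_zmod
      (fun w => G (fun j => (v j : ZMod l) + ((e * q' : ℕ) : ZMod l) * w j))]
    have e2 : ∑ w : Fin 4 → ZMod l, G (fun j => (v j : ZMod l) + ((e * q' : ℕ) : ZMod l) * w j) =
        ∑ w, G w :=
      Fintype.sum_equiv (Equiv.piCongrRight fun j =>
        (Equiv.mulLeft₀ _ hc).trans (Equiv.addLeft (v j : ZMod l))) _ _ fun w => rfl
    rw [e2, hf.2 H, mul_zero]

end Pool.Agent.Lib.H9
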