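import Mathlib
import Pool.Agent.Lib.helper9.Equi

/-! An odd number `n` has at least `n` primitive representations as a sum of four squares. -/

namespace Pool.Agent.Lib.H9

open Finset

/-- quaternion product -/
def qmul (g v : Fin 4 → ℤ) : Fin 4 → ℤ :=
  ![g 0 * v 0 - g 1 * v 1 - g 2 * v 2 - g 3 * v 3, g 0 * v 1 + g 1 * v 0 + g 2 * v 3 - g 3 * v 2,
    g 0 * v 2 - g 1 * v 3 + g 2 * v 0 + g 3 * v 1, g 0 * v 3 + g 1 * v 2 - g 2 * v 1 + g 3 * v 0]

/-- first linear form -/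
def L1 (a b t : ℤ) (v : Fin 4 → ℤ) : ℤ :=
  v 0 + (a * v 2 - b * v 3) + t * ((b * v 2 + a * v 3) - v 1)
/-- second linear form -/
def L2 (a b t : ℤ) (v : Fin 4 → ℤ) : ℤ :=
  (b * v 2 + a * v 3) + v 1 + t * (v 0 - (a * v 2 - b * v 3))

theorem dvd_of_eq' {a b c : ℤ} (h : a ∣ b) (e : c = b) : a ∣ c := e ▸ h

theorem nsq_eq (v : Fin 4 → ℤ) : nsq v = v 0 ^ 2 + v 1 ^ 2 + v 2 ^ 2 + v 3 ^ 2 := by
  simp [nsq, Fin.sum_univ_four]

theorem dvd_nsq_of_L {n a b t : ℤ} (hs : n ∣ a ^ 2 + b ^ 2 + 1) {v : Fin 4 → ℤ}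
    (h1 : n ∣ L1 a b t v) (h2 : n ∣ L2 a b t v) : n ∣ nsq v := by
  have : nsq v = L1 a b t v * (v 0 - (a * v 2 - b * v 3)) -
      L2 a b t v * ((b * v 2 + a * v 3) - v 1) + (a ^ 2 + b ^ 2 + 1) * (v 2 ^ 2 + v 3 ^ 2) := by
    rw [nsq_eq]; unfold L1 L2; ring
  rw [this]
  exact dvd_add (dvd_sub (h1.mul_right _) (h2.mul_right _)) (hs.mul_right _)

theorem L_qmul {n a b t : ℤ} (hs : n ∣ a ^ 2 + b ^ 2 + 1) (g : Fin 4 → ℤ) {v : Fin 4 → ℤ}
    (h1 : n ∣ L1 a b t v) (h2 : n ∣ L2 a b t v) :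
    n ∣ L1 a b t (qmul g v) ∧ n ∣ L2 a b t (qmul g v) := by
  constructor
  · have : L1 a b t (qmul g v) = L1 a b t v * (g 0 + (a * g 2 - b * g 3)) +
        L2 a b t v * ((b * g 2 + a * g 3) - g 1) - (a ^ 2 + b ^ 2 + 1) *
          ((g 2 * v 2 + g 3 * v 3) - t * (g 3 * v 2 - g 2 * v 3)) := by
      simp [L1, L2, qmul]; ring
    rw [this]
    exact dvd_sub (dvd_add (h1.mul_right _) (h2.mul_right _)) (hs.mul_right _)
  · have : L2 a b t (qmul g v) = L1 a b t v * ((b * g 2 + a * g 3) + g 1) +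
        L2 a b t v * (g 0 - (a * g 2 - b * g 3)) - (a ^ 2 + b ^ 2 + 1) *
          (t * (g 2 * v 2 + g 3 * v 3) + (g 3 * v 2 - g 2 * v 3)) := by
      simp [L1, L2, qmul]; ring
    rw [this]
    exact dvd_sub (dvd_add (h1.mul_right _) (h2.mul_right _)) (hs.mul_right _)

theorem min_dvd {n a b t : ℤ} (hs : n ∣ a ^ 2 + b ^ 2 + 1) {v : Fin 4 → ℤ} (hv0 : v ≠ 0)
    (h1 : n ∣ L1 a b t v) (h2 : n ∣ L2 a b t v)
    (hmin : ∀ w : Fin 4 → ℤ, w ≠ 0 → n ∣ L1 a b t w → n ∣ L2 a b t w → nsq v ≤ nsq w)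
    (w : Fin 4 → ℤ) (hw1 : n ∣ L1 a b t w) (hw2 : n ∣ L2 a b t w) : nsq v ∣ nsq w := by
  set m := nsq v with hm
  have hm0 : 0 < m := one_le_nsq hv0
  set c := qmul w ![v 0, -v 1, -v 2, -v 3] with hc
  set g : Fin 4 → ℤ := fun j => (2 * c j + m) / (2 * m)
  set r : Fin 4 → ℤ := fun j => c j - m * g j
  have hr : ∀ j, -m ≤ 2 * r j ∧ 2 * r j < m := by
    intro j
    have e1 := Int.emod_add_mul_ediv (2 * c j + m) (2 * m)
    have e2 := Int.emod_nonneg (2 * c j + m) (show 2 * m ≠ 0 by omega)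
    have e3 := Int.emod_lt_of_pos (2 * c j + m) (show 0 < 2 * m by omega)
    simp only [r, g]
    constructor <;> nlinarith
  set ρ : Fin 4 → ℤ := w - qmul g v
  have hρ : nsq ρ * m = nsq r := by
    simp only [ρ, r, hc, hm, nsq_eq, qmul, Pi.sub_apply]
    simp
    ring
  have hL := L_qmul hs g h1 h2
  have hρ1 : n ∣ L1 a b t ρ := by
    have : L1 a b t ρ = L1 a b t w - L1 a b t (qmul g v) := by
      simp only [L1, ρ, Pi.sub_apply]; ring
    rw [this]; exact dvd_sub hw1 hL.1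
  have hρ2 : n ∣ L2 a b t ρ := by
    have : L2 a b t ρ = L2 a b t w - L2 a b t (qmul g v) := by
      simp only [L2, ρ, Pi.sub_apply]; ring
    rw [this]; exact dvd_sub hw2 hL.2
  by_cases h0 : ρ = 0
  · have : w = qmul g v := sub_eq_zero.1 h0
    refine ⟨nsq g, ?_⟩
    rw [this, hm]
    simp only [nsq_eq, qmul]; simp; ring
  · have h3 := hmin ρ h0 hρ1 hρ2
    have h4 : m * m ≤ nsq r := by rw [← hρ]; gcongr
    have h5 : ∀ j, (2 * r j) ^ 2 ≤ m ^ 2 := fun j => by nlinarith [hr j]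
    rw [nsq_eq] at h4
    have h6 : ∀ j, m ^ 2 ≤ (2 * r j) ^ 2 → 2 * r j = -m := fun j h => by nlinarith [hr j]
    have r0 := h6 0 (by nlinarith [h5 1, h5 2, h5 3])
    have r1 := h6 1 (by nlinarith [h5 0, h5 2, h5 3])
    have r2 := h6 2 (by nlinarith [h5 0, h5 1, h5 3])
    have r3 := h6 3 (by nlinarith [h5 0, h5 1, h5 2])
    have h7 : nsq w * m = nsq c := by
      simp only [hc, hm, nsq_eq, qmul]; simp; ring
    refine ⟨nsq g - (g 0 + g 1 + g 2 + g 3) + 1, ?_⟩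
    have h8 : 4 * m * nsq w = 4 * m * (m * (nsq g - (g 0 + g 1 + g 2 + g 3) + 1)) := by
      have c0 : 2 * c 0 = 2 * m * g 0 - m := by simp only [r] at r0; linarith
      have c1 : 2 * c 1 = 2 * m * g 1 - m := by simp only [r] at r1; linarith
      have c2 : 2 * c 2 = 2 * m * g 2 - m := by simp only [r] at r2; linarith
      have c3 : 2 * c 3 = 2 * m * g 3 - m := by simp only [r] at r3; linarith
      have : 4 * nsq c = (2 * c 0) ^ 2 + (2 * c 1) ^ 2 + (2 * c 2) ^ 2 + (2 * c 3) ^ 2 := by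
        rw [nsq_eq]; ring
      rw [c0, c1, c2, c3] at this
      rw [nsq_eq g]
      linear_combination 4 * h7 + this
    exact mul_left_cancel₀ (by omega) h8

theorem exists_rep {n a b : ℤ} (hn : 0 < n) (hodd : Odd n) (hs : n ∣ a ^ 2 + b ^ 2 + 1) (t : ℤ) :
    ∃ v : Fin 4 → ℤ, n ∣ L1 a b t v ∧ n ∣ L2 a b t v ∧ nsq v = n := by
  have hE1 : n ∣ L1 a b t ![0, n, 0, 0] := by simp [L1]
  have hE2 : n ∣ L2 a b t ![0, n, 0, 0] := by simp [L2]
  have hEn : nsq ![0, n, 0, 0] = n ^ 2 := by simp [nsq_eq]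
  have hex : ∃ m : ℕ, ∃ v : Fin 4 → ℤ, v ≠ 0 ∧ n ∣ L1 a b t v ∧ n ∣ L2 a b t v ∧ nsq v = m := by
    refine ⟨(n ^ 2).toNat, ![0, n, 0, 0], ?_, hE1, hE2, ?_⟩
    · intro h
      have := congrFun h 1
      simp at this; omega
    · rw [hEn, Int.toNat_of_nonneg (by positivity)]
  classical
  obtain ⟨v, hv0, h1, h2, h3⟩ := Nat.find_spec hex
  have hmin : ∀ w : Fin 4 → ℤ, w ≠ 0 → n ∣ L1 a b t w → n ∣ L2 a b t w → nsq v ≤ nsq w := by
    intro w hw0 hw1 hw2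
    have := Nat.find_min' hex (m := (nsq w).toNat)
      ⟨w, hw0, hw1, hw2, (Int.toNat_of_nonneg (nsq_nonneg w)).symm⟩
    have h4 := Int.toNat_of_nonneg (nsq_nonneg w)
    omega
  refine ⟨v, h1, h2, ?_⟩
  have key := min_dvd hs hv0 h1 h2 hmin
  have d1 : nsq v ∣ n ^ 2 := hEn ▸ key _ hE1 hE2
  have hW1 : L1 a b t ![-t, -1, a * t - b, -b * t - a] = 0 := by simp [L1]; ring
  have hW2 : L2 a b t ![-t, -1, a * t - b, -b * t - a] = -(a ^ 2 + b ^ 2 + 1) * (1 + t ^ 2) := by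
    simp [L2]; ring
  have hV1 : L1 a b t ![-t, -1 + n, a * t - b, -b * t - a] = -(n * t) := by simp [L1]; ring
  have hV2 : L2 a b t ![-t, -1 + n, a * t - b, -b * t - a] =
      -(a ^ 2 + b ^ 2 + 1) * (1 + t ^ 2) + n := by
    simp [L2]; ring
  have d2 := key ![-t, -1, a * t - b, -b * t - a] (by rw [hW1]; simp)
    (by rw [hW2]; exact (hs.neg_right).mul_right _)
  have d3 := key ![-t, -1 + n, a * t - b, -b * t - a] (by rw [hV1]; simp)
    (by rw [hV2]; exact dvd_add ((hs.neg_right).mul_right _) dvd_rfl)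
  have d4 : nsq v ∣ 2 * n := by
    have := dvd_sub (dvd_add d2 d1) d3
    refine dvd_of_eq' this ?_
    simp [nsq_eq]; ring
  obtain ⟨k, hk⟩ := hodd
  have d5 : nsq v ∣ n := by
    have := dvd_sub d1 (d4.mul_right k)
    refine dvd_of_eq' this ?_
    rw [hk]; ring
  exact Int.dvd_antisymm (nsq_nonneg v) hn.le d5 (dvd_nsq_of_L hs h1 h2)

theorem cont_eq_one {n a b t : ℤ} (hn : 0 < n) (hs : n ∣ a ^ 2 + b ^ 2 + 1) {v : Fin 4 → ℤ}
    (h1 : n ∣ L1 a b t v) (h2 : n ∣ L2 a b t v) (h3 : nsq v = n) : cont v = 1 := by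
  have hd := dvd_cont.1 (dvd_refl (cont v))
  set k : ℤ := (cont v : ℤ) with hk
  choose u hu using hd
  have hv : v = fun j => k * u j := funext hu
  have h4 : n = k ^ 2 * nsq u := by rw [← h3, hv, nsq_smul]
  have hk0 : k ≠ 0 := by rintro h; rw [h] at h4; simp at h4; omega
  have hu0 : nsq u ≠ 0 := by rintro h; rw [h] at h4; simp at h4; omega
  have e1 : L1 a b t v = k * L1 a b t u := by simp only [L1, hu]; ring
  have e2 : L2 a b t v = k * L2 a b t u := by simp only [L2, hu]; ring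
  have h5 : n = k * (k * nsq u) := by rw [h4]; ring
  rw [e1, h5] at h1
  rw [e2, h5] at h2
  have h6 : k * nsq u ∣ nsq u := dvd_nsq_of_L (a := a) (b := b) (t := t)
    (Dvd.dvd.trans (Dvd.intro_left k h5.symm) hs)
    ((mul_dvd_mul_iff_left hk0).1 h1) ((mul_dvd_mul_iff_left hk0).1 h2)
  have h7 : k ∣ 1 := by
    rwa [← mul_dvd_mul_iff_right hu0, one_mul]
  exact Nat.dvd_one.1 (by rw [hk] at h7; exact_mod_cast h7)

theorem dvd_sub_of_L {n a b s t : ℤ} (hodd : Odd n) (hs : n ∣ a ^ 2 + b ^ 2 + 1) {v : Fin 4 → ℤ}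
    (hv : cont v = 1) (h1 : n ∣ L1 a b t v) (h2 : n ∣ L2 a b t v) (h3 : n ∣ L1 a b s v)
    (h4 : n ∣ L2 a b s v) : n ∣ t - s := by
  have hB : n ∣ (t - s) * ((b * v 2 + a * v 3) - v 1) := by
    refine dvd_of_eq' (dvd_sub h1 h3) ?_; unfold L1; ring
  have hD : n ∣ (t - s) * (v 0 - (a * v 2 - b * v 3)) := by
    refine dvd_of_eq' (dvd_sub h2 h4) ?_; unfold L2; ring
  have hA : n ∣ (t - s) * (v 0 + (a * v 2 - b * v 3)) := by
    refine dvd_of_eq' (dvd_sub (h1.mul_left (t - s)) (hB.mul_left t)) ?_; unfold L1; ring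
  have hC : n ∣ (t - s) * ((b * v 2 + a * v 3) + v 1) := by
    refine dvd_of_eq' (dvd_sub (h2.mul_left (t - s)) (hD.mul_left t)) ?_; unfold L2; ring
  have h2v : ∀ j, n ∣ 2 * ((t - s) * v j) := by
    intro j
    fin_cases j
    · refine dvd_of_eq' (dvd_add hA hD) ?_; simp; ring
    · refine dvd_of_eq' (dvd_sub hC hB) ?_; simp; ring
    · refine dvd_of_eq' (dvd_sub (hs.mul_right (2 * (t - s) * v 2))
        (dvd_add ((dvd_sub hA hD).mul_left a) ((dvd_add hB hC).mul_left b))) ?_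
      simp; ring
    · refine dvd_of_eq' (dvd_sub (hs.mul_right (2 * (t - s) * v 3))
        (dvd_sub ((dvd_add hB hC).mul_left a) ((dvd_sub hA hD).mul_left b))) ?_
      simp; ring
  have hcop : IsCoprime n 2 := by
    obtain ⟨k, hk⟩ := hodd
    exact ⟨1, -k, by rw [hk]; ring⟩
  have h5 : ∀ j, n.natAbs ∣ (t - s).natAbs * (v j).natAbs := by
    intro j
    rw [← Int.natAbs_mul, Int.natAbs_dvd_natAbs]
    exact hcop.dvd_of_dvd_mul_left (h2v j)
  have h6 : n.natAbs ∣ univ.gcd (fun j => (t - s).natAbs * (v j).natAbs) :=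
    Finset.dvd_gcd fun j _ => h5 j
  rw [Finset.gcd_mul_left] at h6
  unfold cont at hv
  rw [hv] at h6
  simpa [Int.natAbs_dvd_natAbs] using h6

theorem exists_sq_add_sq_add_one {n : ℕ} (hodd : Odd n) : ∃ a b : ℤ, (n : ℤ) ∣ a ^ 2 + b ^ 2 + 1 := by
  obtain ⟨k, hk⟩ := hodd
  have hcop : IsCoprime (2 * (n : ℤ) - 1) ((4 * n : ℕ) : ℤ) :=
    ⟨-(2 * n + 1), n, by push_cast; ring⟩
  obtain ⟨p, _, hp, hmod⟩ := Nat.forall_exists_prime_gt_and_zmodEq 0 (q := 4 * n) (by omega) hcop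
  have : Fact p.Prime := ⟨hp⟩
  obtain ⟨c, hc⟩ := hmod.dvd
  push_cast at hc
  have h4 : p % 4 ≠ 3 := by
    have : (p : ℤ) = 4 * (k - n * c) + 1 := by
      have hn : (n : ℤ) = 2 * k + 1 := by exact_mod_cast hk
      linear_combination -hc + 2 * hn
    omega
  obtain ⟨a, b, hab⟩ := Nat.Prime.sq_add_sq h4
  refine ⟨a, b, 2 - 4 * c, ?_⟩
  have : (a : ℤ) ^ 2 + b ^ 2 = p := by exact_mod_cast hab
  linear_combination this - hc

theorem le_card_psphere {n : ℕ} (hodd : Odd n) : n ≤ (psphere n).card := by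
  obtain ⟨a, b, hs⟩ := exists_sq_add_sq_add_one hodd
  have hn : (0 : ℤ) < n := by exact_mod_cast hodd.pos
  have hodd' : Odd (n : ℤ) := by exact_mod_cast hodd
  choose v h1 h2 h3 using exists_rep hn hodd' hs
  have : (Ico (0 : ℤ) n).card ≤ (psphere n).card := by
    refine card_le_card_of_injOn v ?_ ?_
    · intro t _
      simp only [psphere, coe_filter, Set.mem_ofPred_eq, mem_sphere]
      exact ⟨h3 t, cont_eq_one hn hs (h1 t) (h2 t) (h3 t)⟩
    · intro t ht s hs' h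
      have := dvd_sub_of_L hodd' hs (cont_eq_one hn hs (h1 t) (h2 t) (h3 t)) (h1 t) (h2 t)
        (h ▸ h1 s) (h ▸ h2 s)
      simp only [coe_Ico, Set.mem_Ico] at ht hs'
      have h5 := Int.eq_zero_of_abs_lt_dvd this (by rw [abs_lt]; constructor <;> omega)
      omega
  simpa using this

end Pool.Agent.Lib.H9
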