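import Mathlib
import Pool.Agent.Lib.helper9.BrunHooley

/-! A fundamental lemma of sieve theory (lower bound), via the Brun-Hooley sieve. -/

namespace Pool.Agent.Lib.H9

open Finset Real

/-- Upper bound in Mertens' first theorem. -/
theorem sum_log_div_le (N : ℕ) (hN : 1 ≤ N) :
    ∑ p ∈ (range (N + 1)).filter Nat.Prime, Real.log p / p ≤ Real.log N + Real.log 4 := by
  have hNpos : (0 : ℝ) < N := by exact_mod_cast hN
  set P := (range (N + 1)).filter Nat.Prime
  have h1 : ∑ p ∈ P, ((N / p : ℕ) : ℝ) * Real.log p ≤ Real.log (N.factorial) := by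
    rw [Real.log_nat_eq_sum_factorization, Finsupp.sum]
    have hsub : P = N.factorial.factorization.support := by
      ext p
      simp only [P, mem_filter, mem_range, Nat.support_factorization, Nat.mem_primeFactors]
      constructor
      · rintro ⟨h, hp⟩
        exact ⟨hp, (hp.dvd_factorial).2 (by omega), N.factorial_ne_zero⟩
      · rintro ⟨hp, h, _⟩
        exact ⟨by have := (hp.dvd_factorial).1 h; omega, hp⟩
    rw [← hsub]
    refine sum_le_sum fun p hp => ?_
    have hpp : p.Prime := (mem_filter.1 hp).2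
    refine mul_le_mul_of_nonneg_right ?_ (Real.log_natCast_nonneg p)
    rw [Nat.factorization_factorial hpp (b := Nat.log p N + 2) (by omega)]
    have : N / p ≤ ∑ i ∈ Ico 1 (Nat.log p N + 2), N / p ^ i := by
      have := single_le_sum (f := fun i => N / p ^ i) (s := Ico 1 (Nat.log p N + 2))
        (fun _ _ => Nat.zero_le _) (a := 1) (by simp)
      simpa using this
    exact_mod_cast this
  have h2 : Real.log (N.factorial) ≤ N * Real.log N := by
    rw [← Real.log_pow]
    apply Real.log_le_log (by positivity)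
    exact_mod_cast Nat.factorial_le_pow N
  have h3 : ∑ p ∈ P, Real.log p ≤ Real.log 4 * N := by
    have := Chebyshev.theta_le_log4_mul_x (x := N) hNpos.le
    rw [Chebyshev.theta_eq_sum_Icc, Nat.floor_natCast] at this
    convert this using 2
    ext p; simp [P]
  have h4 : N * ∑ p ∈ P, Real.log p / p ≤ ∑ p ∈ P, ((N / p : ℕ) : ℝ) * Real.log p +
      ∑ p ∈ P, Real.log p := by
    rw [mul_sum, ← sum_add_distrib]
    refine sum_le_sum fun p hp => ?_
    have hpp : p.Prime := (mem_filter.1 hp).2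
    have hp0 : (0 : ℝ) < p := by exact_mod_cast hpp.pos
    have hl := Real.log_natCast_nonneg p
    have : (N : ℝ) / p ≤ ((N / p : ℕ) : ℝ) + 1 := by
      rw [div_le_iff₀ hp0]
      have := Nat.lt_div_mul_add (a := N) hpp.pos
      have h' : (N : ℝ) < ((N / p : ℕ) : ℝ) * p + p := by exact_mod_cast this
      linarith
    calc (N : ℝ) * (Real.log p / p) = (N / p) * Real.log p := by ring
      _ ≤ (((N / p : ℕ) : ℝ) + 1) * Real.log p := by gcongr
      _ = _ := by ring
  have : N * ∑ p ∈ P, Real.log p / p ≤ N * (Real.log N + Real.log 4) := by nlinarith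
  exact le_of_mul_le_mul_left this hNpos

theorem sum_inv_block_le (B : Finset ℕ) (hB : ∀ p ∈ B, p.Prime)
    (h : ∀ p ∈ B, ∀ q ∈ B, q < p ^ 2) : ∑ p ∈ B, (1 : ℝ) / p ≤ 6 := by
  rcases B.eq_empty_or_nonempty with rfl | hne
  · simp
  set N := B.max' hne
  have hNB : N ∈ B := B.max'_mem hne
  have hN2 : 2 ≤ N := (hB N hNB).two_le
  have hlog2 : Real.log 2 ≤ Real.log N := Real.log_le_log (by norm_num) (by exact_mod_cast hN2)
  have hl2 : 0 < Real.log 2 := Real.log_pos (by norm_num)
  have hlN : 0 < Real.log N := by linarith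
  have h1 := sum_log_div_le N (by omega)
  have h2 : ∑ p ∈ B, Real.log p / p ≤ ∑ p ∈ (range (N + 1)).filter Nat.Prime, Real.log p / p := by
    refine sum_le_sum_of_subset_of_nonneg ?_ (fun p _ _ => by positivity)
    intro p hp
    simp only [mem_filter, mem_range]
    exact ⟨Nat.lt_succ_of_le (B.le_max' p hp), hB p hp⟩
  have h3 : Real.log N * ∑ p ∈ B, (1 : ℝ) / p ≤ 2 * ∑ p ∈ B, Real.log p / p := by
    rw [mul_sum, mul_sum]
    refine sum_le_sum fun p hp => ?_
    have hp0 : (0 : ℝ) < p := by exact_mod_cast (hB p hp).pos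
    have : Real.log N ≤ 2 * Real.log p := by
      have h' : (N : ℝ) ≤ (p : ℝ) ^ 2 := by exact_mod_cast (h p hp N hNB).le
      calc Real.log N ≤ Real.log ((p : ℝ) ^ 2) := Real.log_le_log (by positivity) h'
        _ = 2 * Real.log p := by rw [Real.log_pow]; norm_num
    calc Real.log N * (1 / p) ≤ 2 * Real.log p * (1 / p) := by gcongr
      _ = _ := by ring
  have h4 : Real.log 4 = 2 * Real.log 2 := by
    rw [show (4 : ℝ) = 2 ^ 2 by norm_num, Real.log_pow]; norm_num
  have : Real.log N * ∑ p ∈ B, (1 : ℝ) / p ≤ Real.log N * 6 := by nlinarith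
  exact le_of_mul_le_mul_left this hlN

theorem exp_neg_le_one_sub {g η : ℝ} (hη : 0 < η) (h0 : 0 ≤ g) (h1 : g ≤ 1 - η) :
    Real.exp (-(g / η)) ≤ 1 - g := by
  have h2 : 0 < 1 - g := by linarith
  have h3 : 1 / (1 - g) ≤ Real.exp (g / η) := by
    calc 1 / (1 - g) = g / (1 - g) + 1 := by field_simp; ring
      _ ≤ g / η + 1 := by gcongr; linarith
      _ ≤ _ := Real.add_one_le_exp _
  rw [Real.exp_neg, inv_le_comm₀ (Real.exp_pos _) h2, ← one_div]
  exact h3

theorem exp_neg_le_prod {ι : Type*} (B : Finset ι) (g : ι → ℝ) {η : ℝ} (hη : 0 < η)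
    (h : ∀ i ∈ B, 0 ≤ g i ∧ g i ≤ 1 - η) :
    Real.exp (-((∑ i ∈ B, g i) / η)) ≤ ∏ i ∈ B, (1 - g i) := by
  rw [sum_div, ← sum_neg_distrib, Real.exp_sum]
  exact prod_le_prod (fun _ _ => (Real.exp_pos _).le)
    (fun i hi => exp_neg_le_one_sub hη (h i hi).1 (h i hi).2)

theorem sum_lin_div_two_pow (a : ℝ) (J : ℕ) :
    ∑ j ∈ range J, (a + 2 * j) / 2 ^ j = 2 * a + 4 - (2 * a + 4 * J + 4) / 2 ^ J := by
  induction J with
  | zero => simp
  | succ J ih => rw [sum_range_succ, ih]; push_cast; field_simp; ring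

/-- The block index of the prime `p` below `z`. -/
def bidx (z p : ℕ) : ℕ := Nat.log 2 (Nat.log p z)

theorem bidx_spec {z p : ℕ} (hp : 2 ≤ p) (hpz : p ≤ z) :
    p ^ 2 ^ bidx z p ≤ z ∧ z < p ^ 2 ^ (bidx z p + 1) ∧ bidx z p < z := by
  have h1 : 1 ≤ Nat.log p z := Nat.log_pos (by omega) hpz
  refine ⟨?_, ?_, ?_⟩
  · calc p ^ 2 ^ bidx z p ≤ p ^ Nat.log p z :=
          Nat.pow_le_pow_right (by omega) (Nat.pow_log_le_self 2 (by omega))
      _ ≤ z := Nat.pow_log_le_self p (by omega)
  · calc z < p ^ (Nat.log p z + 1) := Nat.lt_pow_succ_log_self (by omega) z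
      _ ≤ _ := Nat.pow_le_pow_right (by omega) (Nat.lt_pow_succ_log_self (by omega) _)
  · calc bidx z p ≤ Nat.log p z := Nat.log_le_self _ _
      _ < z := Nat.log_lt_self p (by omega)

/-- Lower bound fundamental lemma. -/
theorem fundamental_lemma (κ η : ℝ) (hκ : 0 ≤ κ) (hη : 0 < η) :
    ∃ s : ℕ, ∀ {α : Type} (A : Finset α) (z : ℕ) (P : Finset ℕ) (D : α → ℕ → Prop)
      [∀ a p, Decidable (D a p)] (g : ℕ → ℝ) (X R : ℝ), 2 ≤ z → 0 ≤ X →
      (∀ p ∈ P, p.Prime ∧ p ≤ z) → (∀ p ∈ P, 0 ≤ g p ∧ g p ≤ κ / p ∧ g p ≤ 1 - η) →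
      (∀ T ⊆ P, ∏ p ∈ T, p ≤ z ^ s →
        |((A.filter (fun a => ∀ p ∈ T, D a p)).card : ℝ) - X * ∏ p ∈ T, g p| ≤ R) →
      X * (∏ p ∈ P, (1 - g p)) / 2 - (z : ℝ) ^ (s + 2) * R ≤
        ((A.filter (fun a => ∀ p ∈ P, ¬ D a p)).card : ℝ) := by
  set L : ℝ := 6 * κ with hL
  have hL0 : 0 ≤ L := by positivity
  obtain ⟨k0, hk0⟩ : ∃ k0 : ℕ, 2 * Real.exp (2 * L + L / η) ≤ 2 ^ k0 := by
    obtain ⟨k, hk⟩ := pow_unbounded_of_one_lt (2 * Real.exp (2 * L + L / η)) (one_lt_two (α := ℝ))
    exact ⟨k, hk.le⟩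
  refine ⟨4 * k0 + 6, ?_⟩
  intro α A z P D _ g X R hz hX hP hg hR
  have hR0 : 0 ≤ R := (abs_nonneg _).trans (hR ∅ (empty_subset _)
    (by simp only [prod_empty]; exact Nat.one_le_pow _ _ (by omega)))
  set B : Fin z → Finset ℕ := fun j => P.filter (fun p => bidx z p = j)
  have hB : Pairwise fun i j => Disjoint (B i) (B j) := by
    intro i j hij
    rw [disjoint_left]
    intro p hi hj
    exact hij (Fin.ext ((mem_filter.1 hi).2.symm.trans (mem_filter.1 hj).2))
  have hBP : ∀ j, B j ⊆ P := fun j => filter_subset _ _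
  have hprod : ∀ f : ℕ → ℝ, ∏ j, ∏ i ∈ B j, f i = ∏ p ∈ P, f p := by
    intro f
    rw [Fin.prod_univ_eq_prod_range (fun j => ∏ i ∈ P.filter (fun p => bidx z p = j), f i) z]
    exact prod_fiberwise_of_maps_to
      (fun p hp => mem_range.2 (bidx_spec (hP p hp).1.two_le (hP p hp).2).2.2) f
  set w : α → ℕ → ℝ := fun a p => if D a p then 1 else 0
  have hblock : ∀ j, ∑ i ∈ B j, g i ≤ L := by
    intro j
    have h1 : ∑ p ∈ B j, (1 : ℝ) / p ≤ 6 := by
      refine sum_inv_block_le _ (fun p hp => (hP p (hBP j hp)).1) ?_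
      intro p hp q hq
      have hp' := bidx_spec (hP p (hBP j hp)).1.two_le (hP p (hBP j hp)).2
      have hq' := bidx_spec (hP q (hBP j hq)).1.two_le (hP q (hBP j hq)).2
      rw [(mem_filter.1 hp).2] at hp'
      rw [(mem_filter.1 hq).2] at hq'
      have : q ^ 2 ^ (j : ℕ) < (p ^ 2) ^ 2 ^ (j : ℕ) := by
        rw [← pow_mul, ← pow_succ']; omega
      exact lt_of_pow_lt_pow_left₀ _ (Nat.zero_le _) this
    calc ∑ i ∈ B j, g i ≤ ∑ i ∈ B j, κ * (1 / i) :=
          sum_le_sum fun i hi => by rw [mul_one_div]; exact (hg i (hBP j hi)).2.1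
      _ = κ * ∑ i ∈ B j, (1 : ℝ) / i := by rw [mul_sum]
      _ ≤ L := by rw [hL]; nlinarith
  have key := brun_hooley A w g X hX B hB (fun j => k0 + j)
    (by intro a _ j i _; simp only [w]; split_ifs <;> norm_num)
    (fun j i hi => ⟨(hg i (hBP j hi)).1, by linarith [(hg i (hBP j hi)).2.2]⟩) ?_
  · rw [hprod] at key
    have e1 : ∑ a ∈ A, ∏ j, ∏ i ∈ B j, (1 - w a i) =
        ((A.filter (fun a => ∀ p ∈ P, ¬ D a p)).card : ℝ) := by
      rw [card_filter]
      push_cast
      refine sum_congr rfl fun a _ => ?_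
      rw [hprod]
      split_ifs with h
      · exact prod_eq_one fun p hp => by simp [w, h p hp]
      · push Not at h
        obtain ⟨p, hp, hD⟩ := h
        exact prod_eq_zero hp (by simp [w, hD])
    rw [e1] at key
    -- the remainder sum
    have hlev : ∀ τ ∈ adm B (fun j => 2 * (k0 + j) + 1),
        univ.biUnion τ ⊆ P ∧ ∏ p ∈ univ.biUnion τ, p ≤ z ^ (4 * k0 + 6) := by
      intro τ hτ
      simp only [adm, mem_filter, Fintype.mem_piFinset, mem_powerset] at hτ
      have hsub : univ.biUnion τ ⊆ P := biUnion_subset.2 fun j _ => (hτ.1 j).trans (hBP j)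
      refine ⟨hsub, ?_⟩
      have hz0 : (0 : ℝ) < z := by positivity
      have hlz : 0 ≤ Real.log z := Real.log_natCast_nonneg z
      have hpos : (0 : ℝ) < ∏ p ∈ univ.biUnion τ, (p : ℝ) :=
        prod_pos fun p hp => by exact_mod_cast (hP p (hsub hp)).1.pos
      have hlog : Real.log (∏ p ∈ univ.biUnion τ, (p : ℝ)) ≤ Real.log ((z : ℝ) ^ (4 * k0 + 6)) := by
        rw [Real.log_prod (fun p hp => by exact_mod_cast (hP p (hsub hp)).1.ne_zero),
          sum_biUnion (fun i _ j _ hij => (hB hij).mono (hτ.1 i) (hτ.1 j)), Real.log_pow]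
        have h1 : ∀ j : Fin z, ∑ p ∈ τ j, Real.log p ≤
            ((2 * k0 + 1 : ℝ) + 2 * (j : ℕ)) / 2 ^ (j : ℕ) * Real.log z := by
          intro j
          have h2 : ∀ p ∈ τ j, Real.log p ≤ Real.log z / 2 ^ (j : ℕ) := by
            intro p hp
            have hpB := hτ.1 j hp
            have hp' := (bidx_spec (hP p (hBP j hpB)).1.two_le (hP p (hBP j hpB)).2).1
            rw [(mem_filter.1 hpB).2] at hp'
            have hp0 : (0 : ℝ) < p := by exact_mod_cast (hP p (hBP j hpB)).1.pos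
            have h3 : Real.log ((p : ℝ) ^ 2 ^ (j : ℕ)) ≤ Real.log z :=
              Real.log_le_log (by positivity) (by exact_mod_cast hp')
            rw [Real.log_pow] at h3
            rw [le_div_iff₀ (by positivity)]
            push_cast at h3
            linarith
          have h4 := sum_le_card_nsmul _ _ _ h2
          rw [nsmul_eq_mul] at h4
          have h5 : ((τ j).card : ℝ) ≤ (2 * k0 + 1 : ℝ) + 2 * (j : ℕ) := by
            have := hτ.2 j
            have h6 : ((τ j).card : ℝ) ≤ ((2 * (k0 + j) + 1 : ℕ) : ℝ) := by exact_mod_cast this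
            push_cast at h6; linarith
          calc _ ≤ _ := h4
            _ ≤ ((2 * k0 + 1 : ℝ) + 2 * (j : ℕ)) * (Real.log z / 2 ^ (j : ℕ)) := by gcongr
            _ = _ := by ring
        refine (sum_le_sum fun j _ => h1 j).trans ?_
        rw [← sum_mul, Fin.sum_univ_eq_sum_range
          (fun j => ((2 * k0 + 1 : ℝ) + 2 * (j : ℕ)) / 2 ^ j) z, sum_lin_div_two_pow]
        refine mul_le_mul_of_nonneg_right ?_ hlz
        have : 0 ≤ (2 * (2 * (k0 : ℝ) + 1) + 4 * z + 4) / 2 ^ z := by positivity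
        push_cast; linarith
      have := (Real.log_le_log_iff hpos (by positivity)).1 hlog
      rw [← Nat.cast_prod] at this
      exact_mod_cast this
    have hcard : (adm B (fun j => 2 * (k0 + j) + 1)).card ≤ z ^ (4 * k0 + 6) := by
      have : (adm B (fun j => 2 * (k0 + j) + 1)).card ≤ (Icc 1 (z ^ (4 * k0 + 6))).card := by
        refine card_le_card_of_injOn (fun τ => ∏ p ∈ univ.biUnion τ, p) ?_ ?_
        · intro τ hτ
          have := hlev τ hτ
          simp only [coe_Icc, Set.mem_Icc]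
          exact ⟨Nat.succ_le_of_lt (prod_pos fun p hp => (hP p (this.1 hp)).1.pos), this.2⟩
        · intro τ hτ σ hσ h
          have h1 := Nat.primeFactors_prod (fun p hp => (hP p ((hlev τ hτ).1 hp)).1)
          have h2 := Nat.primeFactors_prod (fun p hp => (hP p ((hlev σ hσ).1 hp)).1)
          have h3 : univ.biUnion τ = univ.biUnion σ := by
            rw [← h1, ← h2]; exact congrArg _ h
          have aux : ∀ τ ∈ adm B (fun j => 2 * (k0 + j) + 1), ∀ j,
              τ j = (univ.biUnion τ).filter (fun p => bidx z p = j) := by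
            intro τ hτ j
            simp only [adm, mem_filter, Fintype.mem_piFinset, mem_powerset] at hτ
            ext p
            simp only [mem_filter, mem_biUnion, mem_univ, true_and]
            constructor
            · intro hp
              exact ⟨⟨j, hp⟩, (mem_filter.1 (hτ.1 j hp)).2⟩
            · rintro ⟨⟨i, hi⟩, hj⟩
              have : i = j := Fin.ext ((mem_filter.1 (hτ.1 i hi)).2.symm.trans hj)
              exact this ▸ hi
          funext j
          rw [aux τ hτ j, aux σ hσ j, h3]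
      simpa using this
    have e2 : ∑ τ ∈ adm B (fun j => 2 * (k0 + j) + 1),
        |∑ a ∈ A, ∏ i ∈ univ.biUnion τ, w a i - X * ∏ i ∈ univ.biUnion τ, g i| ≤
        (z : ℝ) ^ (4 * k0 + 6) * R := by
      have h1 : ∀ τ ∈ adm B (fun j => 2 * (k0 + j) + 1),
          |∑ a ∈ A, ∏ i ∈ univ.biUnion τ, w a i - X * ∏ i ∈ univ.biUnion τ, g i| ≤ R := by
        intro τ hτ
        have h2 := hR _ (hlev τ hτ).1 (hlev τ hτ).2
        have h3 : ∀ T : Finset ℕ, ∑ a ∈ A, ∏ i ∈ T, w a i =
            ((A.filter (fun a => ∀ p ∈ T, D a p)).card : ℝ) := by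
          intro T
          rw [card_filter]
          push_cast
          refine sum_congr rfl fun a _ => ?_
          split_ifs with h
          · exact prod_eq_one fun p hp => by simp [w, h p hp]
          · push Not at h
            obtain ⟨p, hp, hD⟩ := h
            exact prod_eq_zero hp (by simp [w, hD])
        rwa [h3]
      have h4 := sum_le_card_nsmul _ _ _ h1
      rw [nsmul_eq_mul] at h4
      refine h4.trans (mul_le_mul_of_nonneg_right ?_ hR0)
      exact_mod_cast hcard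
    have hz2 : (2 : ℝ) ≤ z := by exact_mod_cast hz
    have e3 : ((Fintype.card (Fin z) : ℝ) + 1) ≤ (z : ℝ) ^ 2 := by
      rw [Fintype.card_fin]; nlinarith
    have e4 : ((Fintype.card (Fin z) : ℝ) + 1) * ∑ τ ∈ adm B (fun j => 2 * (k0 + j) + 1),
        |∑ a ∈ A, ∏ i ∈ univ.biUnion τ, w a i - X * ∏ i ∈ univ.biUnion τ, g i| ≤
        (z : ℝ) ^ 2 * ((z : ℝ) ^ (4 * k0 + 6) * R) :=
      mul_le_mul e3 e2 (sum_nonneg fun _ _ => abs_nonneg _) (by positivity)
    have e5 : (z : ℝ) ^ 2 * ((z : ℝ) ^ (4 * k0 + 6) * R) = (z : ℝ) ^ (4 * k0 + 6 + 2) * R := by ring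
    linarith
  · have h1 : ∀ j : Fin z, (∑ i ∈ B j, g i) ^ (2 * (k0 + j) + 1) /
        ((2 * (k0 + j) + 1).factorial : ℝ) / ∏ i ∈ B j, (1 - g i) ≤ (1 / 4) * (1 / 2) ^ (j : ℕ) := by
      intro j
      have hs0 : 0 ≤ ∑ i ∈ B j, g i := sum_nonneg fun i hi => (hg i (hBP j hi)).1
      have hV := exp_neg_le_prod (B j) g hη
        (fun i hi => ⟨(hg i (hBP j hi)).1, (hg i (hBP j hi)).2.2⟩)
      have hV2 : Real.exp (-(L / η)) ≤ ∏ i ∈ B j, (1 - g i) := by
        refine le_trans (Real.exp_le_exp.2 ?_) hV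
        have := hblock j
        gcongr
      set m := 2 * (k0 + j) + 1 with hm
      have h2 : (∑ i ∈ B j, g i) ^ m / (m.factorial : ℝ) ≤ Real.exp (2 * L) / 2 ^ m := by
        calc (∑ i ∈ B j, g i) ^ m / (m.factorial : ℝ) ≤ L ^ m / m.factorial := by
              gcongr; exact hblock j
          _ = (2 * L) ^ m / m.factorial / 2 ^ m := by rw [mul_pow 2 L]; field_simp
          _ ≤ _ := by gcongr; exact Real.pow_div_factorial_le_exp _ (by positivity) m
      have h3 : (2 : ℝ) ^ k0 * 2 * 2 ^ (j : ℕ) ≤ 2 ^ m := by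
        rw [← pow_succ, ← pow_add]
        exact pow_le_pow_right₀ (by norm_num) (by omega)
      calc _ ≤ Real.exp (2 * L) / 2 ^ m / Real.exp (-(L / η)) := by gcongr
        _ = Real.exp (2 * L + L / η) / 2 ^ m := by
          rw [Real.exp_neg, Real.exp_add]; field_simp
        _ ≤ (2 ^ k0 / 2) / (2 ^ k0 * 2 * 2 ^ (j : ℕ)) := by gcongr; linarith
        _ = _ := by rw [one_div_pow]; field_simp; norm_num
    refine (sum_le_sum fun j _ => h1 j).trans ?_
    rw [← mul_sum, Fin.sum_univ_eq_sum_range (fun j => (1 / 2 : ℝ) ^ j) z]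
    have := sum_geometric_two_le z
    linarith

end Pool.Agent.Lib.H9
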