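import Mathlib
import Pool.Agent.Lib.helper9.FourSq
import Pool.Agent.Lib.helper9.Sieve

/-! Sieving the primitive representations of an odd number as a sum of four squares. -/

namespace Pool.Agent.Lib.H9

open Finset Complex Real

open Classical in
/-- nonzero points of the sphere over a prime field -/
noncomputable def lev (l : ℕ) [Fact l.Prime] (c : ZMod l) : Finset (Fin 4 → ZMod l) :=
  univ.filter (fun w => w ≠ 0 ∧ ∑ j, w j ^ 2 = c)

theorem mem_lev {l : ℕ} [Fact l.Prime] {c : ZMod l} {w : Fin 4 → ZMod l} :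
    w ∈ lev l c ↔ w ≠ 0 ∧ ∑ j, w j ^ 2 = c := by simp [lev]

theorem card_lev_ge (l : ℕ) [Fact l.Prime] (hl2 : l ≠ 2) (c : ZMod l) :
    (l : ℝ) ^ 3 - l ^ 2 - 1 ≤ (lev l c).card := by
  have hlp : l.Prime := Fact.out
  set χ : AddChar (ZMod l) ℂ := ZMod.stdAddChar
  have hχ : χ.IsPrimitive := ZMod.isPrimitive_stdAddChar l
  have hF : ringChar (ZMod l) ≠ 2 := by rw [ZMod.ringChar_zmod_n]; exact hl2
  set N := (univ.filter (fun w : Fin 4 → ZMod l => ∑ j, w j ^ 2 = c)).card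
  have h1 : (l : ℂ) * N = ∑ a : ZMod l, χ (-(a * c)) * (∑ t : ZMod l, χ (a * t ^ 2)) ^ 4 := by
    have e1 : ∀ a : ZMod l, χ (-(a * c)) * (∑ t : ZMod l, χ (a * t ^ 2)) ^ 4 =
        ∑ w : Fin 4 → ZMod l, χ (a * (∑ j, w j ^ 2 - c)) := by
      intro a
      have : (∑ t : ZMod l, χ (a * t ^ 2)) ^ 4 = ∏ _j : Fin 4, ∑ t : ZMod l, χ (a * t ^ 2) := by
        simp
      rw [this, prod_univ_sum, Fintype.piFinset_univ, mul_sum]
      refine sum_congr rfl fun w _ => ?_
      simp only [Fin.prod_univ_four, Fin.sum_univ_four, ← AddChar.map_add_eq_mul]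
      congr 1; ring
    simp_rw [e1]
    rw [sum_comm]
    simp_rw [AddChar.sum_mulShift _ hχ, sub_eq_zero]
    simp only [N]
    rw [card_filter]
    push_cast
    rw [mul_sum]
    refine sum_congr rfl fun w _ => ?_
    split_ifs <;> simp
  rw [← sum_erase_add _ _ (mem_univ (0 : ZMod l))] at h1
  simp only [zero_mul, neg_zero, AddChar.map_zero_eq_one, sum_const, card_univ, ZMod.card,
    nsmul_eq_mul, mul_one, one_mul] at h1
  have h2 : ‖∑ a ∈ univ.erase (0 : ZMod l), χ (-(a * c)) * (∑ t : ZMod l, χ (a * t ^ 2)) ^ 4‖ ≤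
      l * (l : ℝ) ^ 2 := by
    refine (norm_sum_le _ _).trans ?_
    have := sum_le_card_nsmul (univ.erase (0 : ZMod l))
      (fun a => ‖χ (-(a * c)) * (∑ t : ZMod l, χ (a * t ^ 2)) ^ 4‖) ((l : ℝ) ^ 2) (by
        intro a ha
        rw [gauss_pow_four hF χ hχ (ne_of_mem_erase ha), norm_mul, norm_stdAddChar, ZMod.card]
        simp)
    refine this.trans ?_
    rw [nsmul_eq_mul]
    gcongr
    simp
  have h3 : ‖((l : ℂ) ^ 4 - l * N)‖ ≤ l * (l : ℝ) ^ 2 := by
    rw [h1, sub_add_cancel_right, norm_neg]; exact h2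
  have h4 : (l : ℝ) ^ 4 - l * N ≤ l * (l : ℝ) ^ 2 := by
    refine le_trans ?_ h3
    have : ((l : ℂ) ^ 4 - l * N) = (((l : ℝ) ^ 4 - l * N : ℝ) : ℂ) := by push_cast; rfl
    rw [this, Complex.norm_real]
    exact le_abs_self _
  have hl0 : (0 : ℝ) < l := by exact_mod_cast hlp.pos
  have h5 : (l : ℝ) ^ 3 - l ^ 2 ≤ N := by
    have : (l : ℝ) * (l ^ 3 - l ^ 2) ≤ l * N := by nlinarith
    exact le_of_mul_le_mul_left this hl0
  have h6 : N ≤ (lev l c).card + 1 := by
    refine le_trans (card_le_card (t := insert 0 (lev l c)) ?_) (card_insert_le _ _)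
    intro w hw
    rw [mem_insert, mem_lev]
    by_cases h : w = 0
    · exact Or.inl h
    · exact Or.inr ⟨h, (mem_filter.1 hw).2⟩
  have h7 : (N : ℝ) ≤ (lev l c).card + 1 := by exact_mod_cast h6
  linarith

open Classical in
/-- local density of a set of bad residues on the sphere -/
noncomputable def dens (bad : (l : ℕ) → (Fin 4 → ZMod l) → Prop) (n : ℤ) (l : ℕ) : ℝ :=
  if h : l.Prime then
    haveI := Fact.mk h
    (((lev l n).filter (bad l)).card : ℝ) / (lev l n).card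
  else 0

open Classical in
/-- the cuspidal part of the indicator of the bad residues -/
noncomputable def fl (bad : (l : ℕ) → (Fin 4 → ZMod l) → Prop) (n : ℤ) (l : ℕ)
    (w : Fin 4 → ZMod l) : ℝ :=
  if w ≠ 0 ∧ ∑ j, w j ^ 2 = n then (if bad l w then 1 else 0) - dens bad n l else 0

theorem dens_nonneg (bad : (l : ℕ) → (Fin 4 → ZMod l) → Prop) (n : ℤ) (l : ℕ) :
    0 ≤ dens bad n l := by
  unfold dens; split_ifs <;> positivity

theorem dens_le_one (bad : (l : ℕ) → (Fin 4 → ZMod l) → Prop) (n : ℤ) (l : ℕ) :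
    dens bad n l ≤ 1 := by
  classical
  unfold dens; split_ifs
  · exact div_le_one_of_le₀ (by exact_mod_cast card_filter_le _ _) (by positivity)
  · norm_num

theorem abs_fl_le (bad : (l : ℕ) → (Fin 4 → ZMod l) → Prop) (n : ℤ) (l : ℕ)
    (w : Fin 4 → ZMod l) : |fl bad n l w| ≤ 1 := by
  have h0 := dens_nonneg bad n l
  have h1 := dens_le_one bad n l
  unfold fl
  split_ifs <;> rw [abs_le] <;> constructor <;> linarith

theorem locCusp_fl (bad : (l : ℕ) → (Fin 4 → ZMod l) → Prop) (n : ℤ) (l : ℕ) [Fact l.Prime] :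
    LocCusp l (fun w => (fl bad n l w : ℂ)) := by
  classical
  refine ⟨by simp [fl], fun h => ?_⟩
  have e1 : ∀ w : Fin 4 → ZMod l, (fl bad n l w : ℂ) * h (∑ j, w j ^ 2) =
      if w ∈ lev l n then ((((if bad l w then 1 else 0) - dens bad n l : ℝ) : ℂ) * h n) else 0 := by
    intro w
    by_cases hw : w ∈ lev l n
    · rw [if_pos hw]
      rw [mem_lev] at hw
      unfold fl
      rw [if_pos hw, hw.2]
    · rw [if_neg hw]
      rw [mem_lev] at hw
      unfold fl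
      rw [if_neg hw]; simp
  simp_rw [e1]
  rw [← sum_filter, filter_mem_eq_inter, univ_inter, ← sum_mul, ← Complex.ofReal_sum,
    sum_sub_distrib, sum_const, nsmul_eq_mul]
  have : ∑ w ∈ lev l n, (if bad l w then (1 : ℝ) else 0) = (lev l n).card * dens bad n l := by
    unfold dens
    rw [dif_pos Fact.out, sum_boole]
    by_cases h0 : (lev l n).card = 0
    · rw [card_eq_zero.1 h0]; simp
    · have : ((lev l n).card : ℝ) ≠ 0 := by exact_mod_cast h0
      field_simp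
  rw [this]; simp

theorem per_cast {l : ℕ} (f : (Fin 4 → ZMod l) → ℂ) : Per l (fun v => f (fun j => v j)) := by
  intro v w h
  simp only
  congr 1
  funext j
  exact ((ZMod.intCast_eq_intCast_iff_dvd_sub _ _ _).2 (h j)).symm

theorem per_prod (S : Finset ℕ) (f : ℕ → (Fin 4 → ℤ) → ℂ) (hf : ∀ l ∈ S, Per l (f l)) :
    Per (∏ l ∈ S, l) (fun v => ∏ l ∈ S, f l v) := by
  intro v w h
  refine prod_congr rfl fun l hl => hf l hl v w fun j => Dvd.dvd.trans ?_ (h j)
  exact_mod_cast dvd_prod_of_mem _ hl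

open Classical in
theorem sphere_remainder : ∃ C : ℝ, 0 < C ∧ ∀ (bad : (l : ℕ) → (Fin 4 → ZMod l) → Prop) (n : ℤ)
    (T : Finset ℕ), 0 < n → (∀ l ∈ T, l.Prime ∧ l ≠ 2) →
    |(((psphere n).filter (fun v => ∀ l ∈ T, bad l (fun j => v j))).card : ℝ) -
      (psphere n).card * ∏ l ∈ T, dens bad n l| ≤
      C * ((∏ l ∈ T, l : ℕ) : ℝ) ^ 9 * (n : ℝ) ^ (39 / 40 : ℝ) := by
  obtain ⟨C, hC, h⟩ := pcoef_power_saving
  refine ⟨C, hC, fun bad n T hn hT => ?_⟩
  set F : ℕ → (Fin 4 → ℤ) → ℝ := fun l v => fl bad n l (fun j => v j)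
  have e1 : (((psphere n).filter (fun v => ∀ l ∈ T, bad l (fun j => v j))).card : ℝ) =
      ∑ S ∈ T.powerset, (∑ v ∈ psphere n, ∏ l ∈ S, F l v) * ∏ l ∈ T \ S, dens bad n l := by
    simp_rw [sum_mul]
    rw [sum_comm, card_filter]
    push_cast
    refine sum_congr rfl fun v hv => ?_
    rw [← prod_add]
    rw [psphere, mem_filter, mem_sphere] at hv
    have e2 : ∀ l ∈ T, F l v + dens bad n l = if bad l (fun j => v j) then 1 else 0 := by
      intro l hl
      simp only [F, fl]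
      rw [if_pos]
      · ring
      constructor
      · intro h0
        have : l ∣ cont v := dvd_cont.2 fun j =>
          (ZMod.intCast_zmod_eq_zero_iff_dvd _ _).1 (congrFun h0 j)
        rw [hv.2] at this
        exact (hT l hl).1.one_lt.ne' (Nat.dvd_one.1 this)
      · rw [← hv.1]; unfold nsq; push_cast; rfl
    rw [prod_congr rfl e2]
    split_ifs with hb
    · exact (prod_eq_one fun l hl => if_pos (hb l hl)).symm
    · push Not at hb
      obtain ⟨l, hl, hb⟩ := hb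
      exact (prod_eq_zero hl (if_neg hb)).symm
  rw [e1, ← sum_erase_add _ _ (empty_mem_powerset T)]
  simp only [prod_empty, sum_const, nsmul_eq_mul, mul_one, sdiff_empty, add_sub_cancel_right]
  set d : ℕ := ∏ l ∈ T, l
  have hd0 : 0 < d := prod_pos fun l hl => (hT l hl).1.pos
  have e3 : ∀ S ∈ T.powerset.erase ∅,
      |(∑ v ∈ psphere n, ∏ l ∈ S, F l v) * ∏ l ∈ T \ S, dens bad n l| ≤
      C * (d : ℝ) ^ 8 * (n : ℝ) ^ (39 / 40 : ℝ) := by
    intro S hS
    have hST : S ⊆ T := mem_powerset.1 (mem_of_mem_erase hS)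
    obtain ⟨l0, hl0⟩ := nonempty_iff_ne_empty.2 (ne_of_mem_erase hS)
    rw [abs_mul]
    have a1 : |∏ l ∈ T \ S, dens bad n l| ≤ 1 := by
      rw [abs_of_nonneg (prod_nonneg fun l _ => dens_nonneg _ _ _)]
      exact prod_le_one (fun l _ => dens_nonneg _ _ _) (fun l _ => dens_le_one _ _ _)
    refine (mul_le_of_le_one_right (abs_nonneg _) a1).trans ?_
    have he0 : ∏ l ∈ S, l ≠ 0 := prod_ne_zero_iff.2 fun l hl => (hT l (hST hl)).1.ne_zero
    have a2 := h (∏ l ∈ S, l) (fun v => ∏ l ∈ S, (F l v : ℂ)) n he0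
      (per_prod S _ fun l _ => per_cast (fun w => (fl bad n l w : ℂ)))
      (fun v => by
        rw [norm_prod]
        exact prod_le_one (fun _ _ => norm_nonneg _) fun l _ => by
          rw [Complex.norm_real]; exact abs_fl_le _ _ _ _)
      (fun k => by
        have : Fact l0.Prime := ⟨(hT l0 (hST hl0)).1⟩
        have b1 := cusp_of_locCusp (l := l0) (e := ∏ l ∈ S.erase l0, l) (hT l0 (hST hl0)).2
          (prod_ne_zero_iff.2 fun l hl => (hT l (hST (mem_of_mem_erase hl))).1.ne_zero)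
          (by
            rw [(Nat.Prime.prime Fact.out).dvd_finsetProd_iff]
            rintro ⟨l, hl, hd⟩
            exact ne_of_mem_erase hl ((Nat.prime_dvd_prime_iff_eq Fact.out
              (hT l (hST (mem_of_mem_erase hl))).1).1 hd).symm)
          ((locCusp_fl bad n l0).smul k)
          (ψ := fun u => ∏ l ∈ S.erase l0, (F l (fun j => k * u j) : ℂ))
          (per_prod _ _ fun l _ v w hvw => per_cast (fun w => (fl bad n l w : ℂ)) _ _ fun j => by
            rw [← mul_sub]; exact (hvw j).mul_left _)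
        rw [mul_prod_erase S (fun l => l) hl0] at b1
        convert b1 using 2 with u
        rw [← mul_prod_erase S _ hl0]
        simp [F]) hn
    have a3 : ‖∑ v ∈ psphere n, ∏ l ∈ S, (F l v : ℂ)‖ = |∑ v ∈ psphere n, ∏ l ∈ S, F l v| := by
      rw [← Real.norm_eq_abs, ← Complex.norm_real]; push_cast; rfl
    rw [a3] at a2
    refine a2.trans ?_
    have a4 : ((∏ l ∈ S, l : ℕ) : ℝ) ≤ d := by
      exact_mod_cast Nat.le_of_dvd hd0 (prod_dvd_prod_of_subset _ _ _ hST)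
    have hnr : (0 : ℝ) < n := by exact_mod_cast hn
    gcongr
  refine (abs_sum_le_sum_abs _ _).trans ((sum_le_card_nsmul _ _ _ e3).trans ?_)
  rw [nsmul_eq_mul]
  have a5 : (T.powerset.erase ∅).card ≤ d := by
    refine card_erase_le.trans ?_
    rw [card_powerset]
    exact pow_card_le_prod _ (fun p => p) 2 fun l hl => (hT l hl).1.two_le
  have a6 : ((T.powerset.erase ∅).card : ℝ) ≤ d := by exact_mod_cast a5
  have hnr : (0 : ℝ) < n := by exact_mod_cast hn
  calc _ ≤ (d : ℝ) * (C * (d : ℝ) ^ 8 * (n : ℝ) ^ (39 / 40 : ℝ)) := by gcongr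
    _ = _ := by ring

theorem sphere_sieve (κ η : ℝ) (hκ : 0 ≤ κ) (hη : 0 < η) :
    ∃ c : ℝ, 0 < c ∧ ∃ n0 : ℕ, ∀ n : ℕ, n0 ≤ n → Odd n →
      ∀ bad : (l : ℕ) → (Fin 4 → ZMod l) → Prop,
      (∀ l : ℕ, l.Prime → l ≠ 2 → dens bad n l ≤ κ / l ∧ dens bad n l ≤ 1 - η) →
      ∃ v ∈ psphere n, ∀ l : ℕ, l.Prime → l ≠ 2 → (l : ℝ) ≤ (n : ℝ) ^ c →
        ¬ bad l (fun j => v j) := by
  classical
  obtain ⟨s, hs⟩ := fundamental_lemma κ η hκ hη
  obtain ⟨C, hC, hrem⟩ := sphere_remainder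
  set K : ℝ := κ / η
  have hK : 0 ≤ K := by positivity
  set E : ℝ := 10 * s + 2 + K
  have hE : 0 < E := by positivity
  set c : ℝ := 1 / (80 * E)
  have hc : 0 < c := by positivity
  have ev1 : ∀ᶠ n : ℕ in Filter.atTop, (2 : ℝ) ≤ (n : ℝ) ^ c :=
    ((tendsto_rpow_atTop hc).comp tendsto_natCast_atTop_atTop).eventually_ge_atTop 2
  have ev2 : ∀ᶠ n : ℕ in Filter.atTop, 2 * C * Real.exp K < (n : ℝ) ^ (1 / 80 : ℝ) :=
    ((tendsto_rpow_atTop (by norm_num)).comp tendsto_natCast_atTop_atTop).eventually_gt_atTop _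
  obtain ⟨n0, hn0⟩ := Filter.eventually_atTop.1 (ev1.and ev2)
  refine ⟨c, hc, n0, fun n hn hodd bad hbad => ?_⟩
  obtain ⟨h1, h2⟩ := hn0 n hn
  have hnr : (0 : ℝ) < n := by exact_mod_cast hodd.pos
  set z := ⌊(n : ℝ) ^ c⌋₊
  have hz : 2 ≤ z := Nat.le_floor (by exact_mod_cast h1)
  have hzr : (z : ℝ) ≤ (n : ℝ) ^ c := Nat.floor_le (by positivity)
  have hz1 : (1 : ℝ) ≤ z := by exact_mod_cast (by omega : 1 ≤ z)
  set P := (Nat.primesLE z).erase 2
  have hP : ∀ p ∈ P, p.Prime ∧ p ≤ z ∧ p ≠ 2 := fun p hp => by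
    rw [mem_erase, Nat.mem_primesLE] at hp; exact ⟨hp.2.2, hp.2.1, hp.1⟩
  have key := hs (psphere n) z P (fun v l => bad l (fun j => v j)) (dens bad n)
    (psphere n).card (C * ((z : ℝ) ^ s) ^ 9 * (n : ℝ) ^ (39 / 40 : ℝ)) hz (by positivity)
    (fun p hp => ⟨(hP p hp).1, (hP p hp).2.1⟩)
    (fun p hp => ⟨dens_nonneg _ _ _, hbad p (hP p hp).1 (hP p hp).2.2⟩)
    (fun T hT hTz => by
      have := hrem bad n T (by exact_mod_cast hodd.pos)
        (fun l hl => ⟨(hP l (hT hl)).1, (hP l (hT hl)).2.2⟩)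
      refine le_trans (le_of_eq ?_) (this.trans ?_)
      · congr
      · have h3 : ((∏ l ∈ T, l : ℕ) : ℝ) ≤ (z : ℝ) ^ s := by exact_mod_cast hTz
        push_cast at h3 ⊢
        gcongr)
  have hV : Real.exp (-K) * (z : ℝ) ^ (-K) ≤ ∏ p ∈ P, (1 - dens bad n p) := by
    refine le_trans ?_ (exp_neg_le_prod P _ hη
      fun p hp => ⟨dens_nonneg _ _ _, (hbad p (hP p hp).1 (hP p hp).2.2).2⟩)
    rw [Real.rpow_def_of_pos (by linarith), ← Real.exp_add, Real.exp_le_exp]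
    have a1 : ∑ p ∈ P, dens bad n p ≤ κ * (1 + Real.log z) := by
      calc ∑ p ∈ P, dens bad n p ≤ ∑ p ∈ P, κ * (p : ℝ)⁻¹ :=
            sum_le_sum fun p hp => (hbad p (hP p hp).1 (hP p hp).2.2).1
        _ ≤ ∑ p ∈ Icc 1 z, κ * (p : ℝ)⁻¹ :=
            sum_le_sum_of_subset_of_nonneg
              (fun p hp => mem_Icc.2 ⟨(hP p hp).1.pos, (hP p hp).2.1⟩) (fun _ _ _ => by positivity)
        _ = κ * harmonic z := by rw [harmonic_eq_sum_Icc, ← mul_sum]; push_cast; rfl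
        _ ≤ _ := by gcongr; exact harmonic_le_one_add_log z
    have a2 : (∑ p ∈ P, dens bad n p) / η ≤ K * (1 + Real.log z) := by
      simp only [K]; rw [div_mul_eq_mul_div]; gcongr
    linarith
  have hX : (n : ℝ) ≤ (psphere n).card := by exact_mod_cast le_card_psphere hodd
  have hpos : (z : ℝ) ^ (s + 2) * (C * ((z : ℝ) ^ s) ^ 9 * (n : ℝ) ^ (39 / 40 : ℝ)) <
      (psphere n).card * (∏ p ∈ P, (1 - dens bad n p)) / 2 := by
    have a1 : (z : ℝ) ^ E ≤ (n : ℝ) ^ (1 / 80 : ℝ) := by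
      calc (z : ℝ) ^ E ≤ ((n : ℝ) ^ c) ^ E := by gcongr
        _ = _ := by rw [← Real.rpow_mul hnr.le]; congr 1; simp only [c]; field_simp
    have a2 : (z : ℝ) ^ E = (z : ℝ) ^ (s + 2) * ((z : ℝ) ^ s) ^ 9 * (z : ℝ) ^ K := by
      rw [← pow_mul, ← pow_add, ← Real.rpow_natCast, ← Real.rpow_add (by linarith)]
      congr 1; simp only [E]; push_cast; ring
    have a3 : (n : ℝ) = (n : ℝ) ^ (1 / 80 : ℝ) * (n : ℝ) ^ (1 / 80 : ℝ) *
        (n : ℝ) ^ (39 / 40 : ℝ) := by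
      rw [← Real.rpow_add hnr, ← Real.rpow_add hnr]; norm_num
    have hzK : 0 < (z : ℝ) ^ K := by positivity
    calc (z : ℝ) ^ (s + 2) * (C * ((z : ℝ) ^ s) ^ 9 * (n : ℝ) ^ (39 / 40 : ℝ))
        = (2 * C * Real.exp K) * (z : ℝ) ^ E * (n : ℝ) ^ (39 / 40 : ℝ) *
            (Real.exp (-K) * (z : ℝ) ^ (-K)) / 2 := by
          rw [a2, Real.exp_neg, Real.rpow_neg (by positivity)]; field_simp
      _ < (n : ℝ) ^ (1 / 80 : ℝ) * (z : ℝ) ^ E * (n : ℝ) ^ (39 / 40 : ℝ) *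
            (Real.exp (-K) * (z : ℝ) ^ (-K)) / 2 := by gcongr
      _ ≤ (n : ℝ) ^ (1 / 80 : ℝ) * (n : ℝ) ^ (1 / 80 : ℝ) * (n : ℝ) ^ (39 / 40 : ℝ) *
            (Real.exp (-K) * (z : ℝ) ^ (-K)) / 2 := by gcongr
      _ = n * (Real.exp (-K) * (z : ℝ) ^ (-K)) / 2 := by rw [← a3]
      _ ≤ _ := div_le_div_of_nonneg_right
          (mul_le_mul hX hV (by positivity) (Nat.cast_nonneg _)) (by norm_num)
  have hcard : 0 < ((psphere n).filter (fun v => ∀ p ∈ P, ¬ bad p (fun j => v j))).card := by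
    have : (0 : ℝ) < ((psphere n).filter (fun v => ∀ p ∈ P, ¬ bad p (fun j => v j))).card := by
      refine lt_of_lt_of_le ?_ (key.trans (le_of_eq ?_))
      · linarith
      · congr
    exact_mod_cast this
  obtain ⟨v, hv⟩ := card_pos.1 hcard
  rw [mem_filter] at hv
  refine ⟨v, hv.1, fun l hl hl2 hln => hv.2 l ?_⟩
  rw [mem_erase, Nat.mem_primesLE]
  exact ⟨hl2, Nat.le_floor hln, hl⟩

end Pool.Agent.Lib.H9
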